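import Pool.Agent.H.MP_83e36b_nt.sp.PDefs
import Pool.Agent.H.MP_83e36b_nt.dc.Gal

/-! Families of completions of a field. -/

set_option autoImplicit false

open Topology

namespace NF83

/-- A family of embeddings of the field `k` in complete fields, with weak approximation. -/
class PlSys (k : Type) [Field k] where
  /-- the places -/
  P : Type
  /-- a place -/
  p0 : P
  /-- the completions -/
  C : P → Type
  nf : ∀ v, NontriviallyNormedField (C v)
  cs : ∀ v, CompleteSpace (C v)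
  /-- the embeddings -/
  em : ∀ v, k →+* C v
  wa : ∀ (S : Finset P) (x : ∀ v, C v) (ε : ℝ), 0 < ε → ∃ r : k, ∀ v ∈ S, ‖em v r - x v‖ < ε

/-- the places -/
abbrev Pk (k : Type) [Field k] [PlSys k] : Type := PlSys.P k

/-- a place -/
def p0 (k : Type) [Field k] [PlSys k] : Pk k := PlSys.p0

/-- the completions -/
def Cp {k : Type} [Field k] [PlSys k] (v : Pk k) : Type := PlSys.C v

section
variable {k : Type} [Field k] [PlSys k]

noncomputable instance instNF (v : Pk k) : NontriviallyNormedField (Cp v) := PlSys.nf v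

instance instCS (v : Pk k) : CompleteSpace (Cp v) := PlSys.cs v

/-- the embeddings -/
noncomputable def em (v : Pk k) : k →+* Cp v := PlSys.em v

instance instCZ [CharZero k] (v : Pk k) : CharZero (Cp v) :=
  charZero_of_injective_ringHom (em v).injective

/-- the algebraic closure -/
abbrev Ok (v : Pk k) : Type := AlgebraicClosure (Cp v)

theorem wa_rat (S : Finset (Pk k)) (x : ∀ v, Cp v) (U : ∀ v, Set (Cp v))
    (hU : ∀ v ∈ S, U v ∈ 𝓝 (x v)) : ∃ r : k, ∀ v ∈ S, em v r ∈ U v := by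
  classical
  have h1 : ∀ v : Pk k, ∃ ε > 0, v ∈ S → Metric.ball (x v) ε ⊆ U v := by
    intro v
    by_cases hv : v ∈ S
    · obtain ⟨ε, hε, h⟩ := Metric.mem_nhds_iff.1 (hU v hv)
      exact ⟨ε, hε, fun _ => h⟩
    · exact ⟨1, one_pos, fun h => absurd h hv⟩
  choose ε hε hball using h1
  obtain ⟨δ, hδ, hδε⟩ : ∃ δ : ℝ, 0 < δ ∧ ∀ v ∈ S, δ ≤ ε v := by
    rcases S.eq_empty_or_nonempty with h | h
    · exact ⟨1, one_pos, fun v hv => by simp [h] at hv⟩
    · refine ⟨S.inf' h ε, ?_, fun v hv => Finset.inf'_le _ hv⟩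
      rw [Finset.lt_inf'_iff]
      exact fun v _ => hε v
  obtain ⟨r, hr⟩ := PlSys.wa S x δ hδ
  refine ⟨r, fun v hv => hball v hv ?_⟩
  rw [Metric.mem_ball, dist_eq_norm]
  exact (hr v hv).trans_le (hδε v hv)

theorem wa_fun {ι : Type*} [Finite ι] (S : Finset (Pk k)) (x : ∀ v : Pk k, ι → Cp v)
    (U : ∀ v : Pk k, Set (ι → Cp v)) (hU : ∀ v ∈ S, U v ∈ 𝓝 (x v)) :
    ∃ r : ι → k, ∀ v ∈ S, (fun i => em v (r i)) ∈ U v := by
  classical
  have h1 : ∀ v : Pk k, ∃ t : ι → Set (Cp v), v ∈ S →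
      ((∀ i, t i ∈ 𝓝 (x v i)) ∧ Set.pi Set.univ t ⊆ U v) := by
    intro v
    by_cases hv : v ∈ S
    · have h2 := hU v hv
      rw [nhds_pi, Filter.mem_pi'] at h2
      obtain ⟨I, t, ht, hI⟩ := h2
      refine ⟨t, fun _ => ⟨ht, ?_⟩⟩
      intro z hz
      exact hI fun i _ => hz i (Set.mem_univ i)
    · exact ⟨fun _ => Set.univ, fun h => absurd h hv⟩
  choose t ht using h1
  have h2 : ∀ i, ∃ r : k, ∀ v ∈ S, em v r ∈ t v i := fun i =>
    wa_rat S (fun v => x v i) (fun v => t v i) fun v hv => (ht v hv).1 i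
  choose r hr using h2
  exact ⟨r, fun v hv => (ht v hv).2 fun i _ => hr i v hv⟩

end

end NF83
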