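import Pool.Agent.H.MP_83e36b_nt.nf.LocR
import Pool.Agent.H.MP_83e36b_nt.nf.Base
import Pool.Agent.H.MP_83e36b_nt.dc.LocP
import Pool.Agent.H.MP_83e36b_nt.dc.Pt
import Pool.Agent.H.MP_83e36b_nt.dc.Perm
import Pool.Agent.H.MP_83e36b_nt.sp.CRoot
import Pool.Agent.H.MP_83e36b_nt.sp.PDefs
import Pool.Agent.H.MP_83e36b_nt.sp.PMap

/-! The local points; as dc/LocB.lean, `n ≤ 7`. -/

set_option autoImplicit false

open Matrix Polynomial SpinWA DC83

namespace NF83

theorem loc_B {K : Type} [Field K] [CharZero K] {Ω : Type} [Field Ω] [Algebra K Ω]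
    {n : ℕ} (hn : 1 ≤ n) {a : Fin n → K} {x : Fin n → Ω} (hx : Function.Injective x)
    (hax : AnWA.monicPoly (fun i => algebraMap K Ω (a i)) = ∏ i, (X - C (x i)))
    (hc : Cong 1 (hk a)) :
    ∃ B : Matrix (Fin n) (Fin n) K, Bᵀ * B = hk a ∧ B.det ≠ 0 ∧
      algebraMap K Ω B.det = (vandermonde x).det := by
  have e1 : (hk a).map (algebraMap K Ω) = (vandermonde x)ᵀ * vandermonde x := by
    rw [hk_map]
    exact (vand_hk x _ hx hax).symm
  have e2 : algebraMap K Ω (hk a).det = (vandermonde x).det ^ 2 := by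
    rw [RingHom.map_det, RingHom.mapMatrix_apply, e1, det_mul, det_transpose, sq]
  obtain ⟨P, hP, hP'⟩ := hc
  rw [Matrix.mul_one] at hP'
  have e3 : P.det ^ 2 = (hk a).det := by
    rw [← hP', det_mul, det_transpose]
    ring
  have e4 : (algebraMap K Ω P.det) ^ 2 = (vandermonde x).det ^ 2 := by
    rw [← map_pow, e3, e2]
  rcases sq_eq_sq_iff_eq_or_eq_neg.1 e4 with h | h
  · exact ⟨P, hP', hP, h⟩
  · obtain ⟨D, hD⟩ : ∃ D : Matrix (Fin n) (Fin n) K,
        D = diagonal fun i => if i = (⟨0, hn⟩ : Fin n) then (-1 : K) else 1 := ⟨_, rfl⟩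
    have hDd : D.det = -1 := by
      rw [hD, det_diagonal, Finset.prod_ite_eq' Finset.univ (⟨0, hn⟩ : Fin n) fun _ => (-1 : K),
        if_pos (Finset.mem_univ _)]
    have hDJ : Dᵀ * D = 1 := by
      rw [hD, diagonal_transpose, diagonal_mul_diagonal, ← diagonal_one]
      congr 1
      funext i
      split_ifs <;> ring
    refine ⟨D * P, ?_, ?_, ?_⟩
    · calc (D * P)ᵀ * (D * P) = Pᵀ * (Dᵀ * D) * P := by
            rw [transpose_mul]
            simp only [Matrix.mul_assoc]
        _ = hk a := by rw [hDJ, Matrix.mul_one, hP']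
    · rw [det_mul, hDd]
      simpa using hP
    · rw [det_mul, hDd, neg_one_mul, map_neg, h, neg_neg]

/-- A field which behaves as a completion of a number field: quadratic forms in five variables are
isotropic, or it is isomorphic to `ℝ`. -/
def GoodPl (K : Type) [Field K] : Prop := U5 K ∨ Nonempty (K ≃+* ℝ)

theorem loc_one {K : Type} [Field K] [CharZero K] (hK : GoodPl K) {Ω : Type} [Field Ω]
    [Algebra K Ω] [IsAlgClosed Ω] [Algebra.IsAlgebraic K Ω] {n : ℕ} (hn : 1 ≤ n) (hn7 : n ≤ 7)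
    {ρ : (Ω ≃ₐ[K] Ω) →* dAlt n} (hρ : Cts ρ) :
    ∃ (a : Fin n → K) (x : Fin n → Ω) (B : Matrix (Fin n) (Fin n) K), Function.Injective x ∧
      AnWA.monicPoly (fun i => algebraMap K Ω (a i)) = ∏ i, (X - C (x i)) ∧
      (∀ τ i, τ (x i) = x (pi n (ρ τ) i)) ∧ Bᵀ * B = hk a ∧
      B.det ≠ 0 ∧ algebraMap K Ω B.det = (vandermonde x).det := by
  have hΩ : CharZero Ω := charZero_of_injective_algebraMap (algebraMap K Ω).injective
  obtain ⟨a, x, hx, hax, hτ⟩ := exists_point (hρ.comp (pi n))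
  have hV : (vandermonde x).det ≠ 0 := det_vandermonde_ne_zero_iff.2 hx
  have hVτ : ∀ τ : Ω ≃ₐ[K] Ω,
      (vandermonde x).map τ = pM Ω (pi n (ρ τ)) * vandermonde x := by
    intro τ
    ext i j
    rw [pM_mul_apply, map_apply, vandermonde_apply, vandermonde_apply, map_pow, hτ]
    rfl
  have e1 : (hk a).map (algebraMap K Ω) = (vandermonde x)ᵀ * vandermonde x := by
    rw [hk_map]
    exact (vand_hk x _ hx hax).symm
  have hc : Cong 1 (hk a) := by
    rcases hK with hu | ⟨⟨φ⟩⟩
    · have hd : (hk a).det ≠ 0 := by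
        intro h
        have h4 := congrArg Matrix.det e1
        have h5 : ((hk a).map (algebraMap K Ω)).det = algebraMap K Ω (hk a).det := by
          rw [← RingHom.mapMatrix_apply, ← RingHom.map_det]
        rw [h5, h, map_zero, Matrix.det_mul, Matrix.det_transpose] at h4
        exact mul_ne_zero hV hV h4.symm
      have hone : cls (1 : Matrix (Fin n) (Fin n) K) = n • cl (1 : K) := by
        have h1 : (1 : Matrix (Fin n) (Fin n) K) = diagonal fun _ => (1 : K) := diagonal_one.symm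
        rw [cls_eq_sum two_ne_zero (d := fun _ => (1 : K)) (fun _ => one_ne_zero)
          (by rw [h1]; exact Cong.refl _)]
        simp
      exact cong_of_cls two_ne_zero transpose_one (by rw [det_one]; exact one_ne_zero)
        (hk_transpose a) hd (hone.trans (locP hu hρ hV hVτ e1).symm)
    · exact loc_real ‹_› hn7 ρ hV hVτ e1
  obtain ⟨B, hB1, hB2, hB3⟩ := loc_B hn hx hax hc
  exact ⟨a, x, B, hx, hax, hτ, hB1, hB2, hB3⟩

end NF83
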