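import Pool.Agent.H.MP_83e36b_nt.nf.U5b
import Pool.Agent.H.MP_83e36b_nt.nf.LocB
import Pool.Agent.H.MP_83e36b_nt.PlaceDefs
import Pool.Agent.H.MP_83e36b_nt.I1a

/-! The completions of number fields. -/

set_option autoImplicit false

open DC83 NumberField IsDedekindDomain IsDedekindDomain.HeightOneSpectrum
  NumberField.HeightOneSpectrum

namespace NF83

private theorem U5c_exp {m : WithZero (Multiplicative ℤ)} (h : m < 1) : m ≤ WithZero.exp (-1) := by
  by_cases h0 : m = 0
  · rw [h0]
    exact zero_le'
  · obtain ⟨n, rfl⟩ : ∃ n : ℤ, m = WithZero.exp n := ⟨WithZero.log m, (WithZero.exp_log h0).symm⟩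
    rw [← WithZero.exp_zero, WithZero.exp_lt_exp] at h
    rw [WithZero.exp_le_exp]
    omega

variable {k : Type} [Field k] [NumberField k]

private theorem U5c_norm (v : HeightOneSpectrum (𝓞 k)) (x : v.adicCompletion k) :
    ‖x‖ = WithZeroMulInt.toNNReal (absNorm_ne_zero v) (Valued.v x) :=
  FinitePlace.norm_def (v := v) x

private theorem U5c_mono (v : HeightOneSpectrum (𝓞 k)) {x y : v.adicCompletion k}
    (h : Valued.v x ≤ Valued.v y) : ‖x‖ ≤ ‖y‖ := by
  rw [U5c_norm, U5c_norm]
  exact_mod_cast (WithZeroMulInt.toNNReal_strictMono (one_lt_absNorm_nnreal v)).monotone h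

private theorem U5c_lt (v : HeightOneSpectrum (𝓞 k)) (x : v.adicCompletion k) :
    ‖x‖ < 1 ↔ Valued.v x < 1 := by
  rw [U5c_norm, ← WithZeroMulInt.toNNReal_lt_one_iff (one_lt_absNorm_nnreal v)]
  exact_mod_cast Iff.rfl

private theorem U5c_le (v : HeightOneSpectrum (𝓞 k)) (x : v.adicCompletion k) :
    ‖x‖ ≤ 1 ↔ Valued.v x ≤ 1 := by
  rw [U5c_norm, ← WithZeroMulInt.toNNReal_le_one_iff (one_lt_absNorm_nnreal v)]
  exact_mod_cast Iff.rfl

private theorem U5c_val (v : HeightOneSpectrum (𝓞 k)) (y : k) :
    Valued.v (algebraMap k (v.adicCompletion k) y) = v.valuation k y :=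
  valuedAdicCompletion_eq_valuation' v y

theorem u5_adic (v : HeightOneSpectrum (𝓞 k)) [CompleteSpace (v.adicCompletion k)] :
    U5 (v.adicCompletion k) := by
  classical
  let _ : Field (𝓞 k ⧸ v.asIdeal) := Ideal.Quotient.field v.asIdeal
  have hfin : Finite (𝓞 k ⧸ v.asIdeal) := v.asIdeal.finiteQuotientOfFreeOfNeBot v.ne_bot
  obtain ⟨π, hπ⟩ := v.valuation_exists_uniformizer k
  have hπv : Valued.v (algebraMap k (v.adicCompletion k) π) = WithZero.exp (-1 : ℤ) := by
    rw [U5c_val, hπ]
  have hchar : CharZero (v.adicCompletion k) :=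
    charZero_of_injective_ringHom (algebraMap k (v.adicCompletion k)).injective
  have h : LocF ((algebraMap k (v.adicCompletion k)).comp (algebraMap (𝓞 k) k))
      (Ideal.Quotient.mk v.asIdeal) (algebraMap k (v.adicCompletion k) π) := by
    refine ⟨?_, ?_, ?_, Ideal.Quotient.mk_surjective, ?_, ?_, ?_, ?_⟩
    · intro x y
      rcases le_total (Valued.v x) (Valued.v y) with h | h
      · refine le_max_of_le_right (U5c_mono v ?_)
        exact (Valuation.map_add _ x y).trans (max_le h le_rfl)
      · refine le_max_of_le_left (U5c_mono v ?_)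
        exact (Valuation.map_add _ x y).trans (max_le le_rfl h)
    · intro r
      exact FinitePlace.norm_le_one k v r
    · intro x hx
      obtain ⟨y, hy⟩ := (v.denseRange_algebraMap k).exists_dist_lt x one_pos
      rw [dist_eq_norm, U5c_lt] at hy
      rw [U5c_le] at hx
      have h1 : Valued.v (algebraMap k (v.adicCompletion k) y) ≤ 1 := by
        have e : algebraMap k (v.adicCompletion k) y =
            x - (x - algebraMap k (v.adicCompletion k) y) := by ring
        rw [e]
        exact (Valuation.map_sub _ _ _).trans (max_le hx hy.le)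
      rw [U5c_val] at h1
      obtain ⟨r, hr⟩ := exists_valuation_sub_lt_of_integer v h1 1
      refine ⟨r, ?_⟩
      rw [U5c_lt]
      have e : x - (algebraMap k (v.adicCompletion k)).comp (algebraMap (𝓞 k) k) r =
          (x - algebraMap k (v.adicCompletion k) y) -
            algebraMap k (v.adicCompletion k) (algebraMap (𝓞 k) k r - y) := by
        rw [map_sub, RingHom.comp_apply]
        ring
      rw [e]
      refine (Valuation.map_sub _ _ _).trans_lt (max_lt hy ?_)
      rw [U5c_val]
      exact hr
    · intro r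
      rw [Ideal.Quotient.eq_zero_iff_mem]
      exact (FinitePlace.norm_lt_one_iff_mem k v r).symm
    · intro h0
      rw [h0, map_zero] at hπv
      exact WithZero.exp_ne_zero hπv.symm
    · rw [U5c_lt, hπv, ← WithZero.exp_zero, WithZero.exp_lt_exp]
      norm_num
    · intro x hx
      apply U5c_mono
      rw [hπv]
      exact U5c_exp ((U5c_lt v x).1 hx)
  exact h.u5 two_ne_zero

theorem u5_closed {K : Type} [Field K] (e : K ≃+* ℂ) : U5 K := by
  intro d hd
  obtain ⟨z, hz⟩ := IsAlgClosed.exists_pow_nat_eq (-(e (d 0)) / e (d 1)) (n := 2) two_pos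
  have hd1 : e (d 1) ≠ 0 := (map_ne_zero e).2 (hd 1)
  refine ⟨fun i => if i = 0 then 1 else if i = 1 then e.symm z else 0, ?_, ?_⟩
  · intro h
    have := congrFun h 0
    simp at this
  · apply e.injective
    rw [map_zero, Fin.sum_univ_five]
    simp only [map_add, map_mul, map_pow]
    simp
    rw [hz]
    field_simp
    ring

open AnWA in
theorem good_compl (T : Finset (HeightOneSpectrum (𝓞 k))) (i) : GoodPl (Compl T i) := by
  rcases i with v | v
  · rcases v.isReal_or_isComplex with h | h
    · right
      exact ⟨InfinitePlace.Completion.ringEquivRealOfIsReal h⟩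
    · left
      exact u5_closed (InfinitePlace.Completion.ringEquivComplexOfIsComplex h)
  · left
    exact u5_adic v.1

end NF83
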