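import Pool.Agent.H.MP_83e36b_nt.dc.Gal

/-! Restriction to decomposition groups; as dc/Res.lean, over an arbitrary field. -/

set_option autoImplicit false

open DC83

namespace NF83

universe u v w x y

/-- a finite set of elements of a finite extension such that the automorphisms which fix them are trivial on
the extension -/
private theorem Res_aux {F : Type u} [Field F] {E : Type v} [Field E] [Algebra F E]
    (L : IntermediateField F E) (hL : FiniteDimensional F L) :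
    ∃ (n : ℕ) (y : Fin n → E), ∀ σ : E ≃ₐ[F] E, (∀ i, σ (y i) = y i) → ∀ z ∈ L, σ z = z := by
  let b := Module.finBasis F L
  refine ⟨_, fun i => (b i : E), fun σ h z hz => ?_⟩
  have h2 : ((σ : E →ₐ[F] E).toLinearMap.comp L.val.toLinearMap) = L.val.toLinearMap :=
    b.ext fun i => h i
  exact LinearMap.congr_fun h2 ⟨z, hz⟩

section
variable {k : Type y} [Field k] [CharZero k] {K : Type u} [Field K] {Ω : Type v} [Field Ω]
  [Algebra K Ω] {Ω₀ : Type w} [Field Ω₀] [Algebra k Ω₀]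

theorem exists_res [IsAlgClosed Ω₀] [Algebra.IsAlgebraic k Ω₀] (j : k →+* K) (ι : Ω₀ →+* Ω)
    (hι : ι.comp (algebraMap k Ω₀) = (algebraMap K Ω).comp j) :
    ∃ r : (Ω ≃ₐ[K] Ω) →* (Ω₀ ≃ₐ[k] Ω₀), ∀ τ x, ι (r τ x) = τ (ι x) := by
  letI : Algebra Ω₀ Ω := ι.toAlgebra
  letI : Algebra k Ω := (ι.comp (algebraMap k Ω₀)).toAlgebra
  haveI : IsScalarTower k Ω₀ Ω := IsScalarTower.of_algebraMap_eq' rfl
  haveI : IsAlgClosure k Ω₀ := ⟨inferInstance, inferInstance⟩
  haveI : Normal k Ω₀ := IsAlgClosure.normal k Ω₀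
  let f : (Ω ≃ₐ[K] Ω) →* (Ω ≃ₐ[k] Ω) :=
    { toFun := fun τ => AlgEquiv.ofRingEquiv (f := τ.toRingEquiv) fun q => by
        have h : algebraMap k Ω q = algebraMap K Ω (j q) := RingHom.congr_fun hι q
        show τ (algebraMap k Ω q) = algebraMap k Ω q
        rw [h, AlgEquiv.commutes]
      map_one' := by
        ext x
        rfl
      map_mul' := fun σ τ => by
        ext x
        rfl }
  refine ⟨(AlgEquiv.restrictNormalHom Ω₀).comp f, fun τ x => ?_⟩
  exact AlgEquiv.restrictNormal_commutes (f τ) Ω₀ x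

omit [CharZero k] in
theorem Cts_res [CharZero K] [Algebra.IsAlgebraic K Ω] [Algebra.IsAlgebraic k Ω₀] (ι : Ω₀ →+* Ω)
    {r : (Ω ≃ₐ[K] Ω) →* (Ω₀ ≃ₐ[k] Ω₀)} (hr : ∀ τ x, ι (r τ x) = τ (ι x)) {G : Type x} [Group G]
    {ρ : (Ω₀ ≃ₐ[k] Ω₀) →* G} (hρ : Cts ρ) : Cts (ρ.comp r) := by
  obtain ⟨L, hL, h⟩ := hρ
  obtain ⟨n, y, hy⟩ := Res_aux L hL
  refine Cts.of_fix _ (fun i => ι (y i)) fun τ hτ => ?_
  exact h (r τ) (hy (r τ) fun i => ι.injective ((hr τ _).trans (hτ i)))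

end

end NF83
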