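import Pool.Agent.H.MP_83e36b_nt.dc.Perm
import Pool.Agent.H.MP_83e36b_nt.nf.Res
import Pool.Agent.H.MP_83e36b_nt.Statement

/-! Comparison of two lifts of the same étale algebra to `2.A_n`; as dc/Cmp.lean. -/

set_option autoImplicit false

open Matrix Polynomial DC83

namespace NF83

private theorem Cmp_root {F : Type*} [Field F] {n : ℕ} {u y : Fin n → F}
    (hu : Function.Injective u)
    (h : ∏ i, (X - C (u i)) = ∏ i, (X - C (y i))) :
    ∃ κ : Equiv.Perm (Fin n), ∀ i, u i = y (κ i) := by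
  have h1 : ∀ i, ∃ j, u i = y j := by
    intro i
    have h2 : (∏ j, (X - C (y j))).eval (u i) = 0 := by
      rw [← h, eval_prod]
      exact Finset.prod_eq_zero (Finset.mem_univ i) (by simp)
    rw [eval_prod, Finset.prod_eq_zero_iff] at h2
    obtain ⟨j, -, hj⟩ := h2
    refine ⟨j, ?_⟩
    rw [eval_sub, eval_X, eval_C] at hj
    exact sub_eq_zero.1 hj
  choose κ hκ using h1
  have hinj : Function.Injective κ := by
    intro i j hij
    apply hu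
    rw [hκ, hκ, hij]
  exact ⟨Equiv.ofBijective κ (Finite.injective_iff_bijective.1 hinj), hκ⟩

private theorem Cmp_vand {F : Type*} [Field F] {n : ℕ} {u y : Fin n → F}
    {κ : Equiv.Perm (Fin n)} (h : ∀ i, u i = y (κ i)) :
    (vandermonde u).det = ((Equiv.Perm.sign κ : ℤ) : F) * (vandermonde y).det := by
  have h1 : vandermonde u = (vandermonde y).submatrix κ id := by
    ext i j
    rw [submatrix_apply, vandermonde_apply, vandermonde_apply, h]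
    rfl
  rw [h1, det_permute]

private theorem Cmp_inj {n : ℕ} (x : dAlt n) {u w : ℤˣ}
    (h : ((u : ℤ) : ℚ) • (x.1 : Matrix (Ix n) (Ix n) ℚ) =
      ((w : ℤ) : ℚ) • (x.1 : Matrix (Ix n) (Ix n) ℚ)) : u = w := by
  have h1 : (((u : ℤ) : ℚ) - ((w : ℤ) : ℚ)) • (x.1 : Matrix (Ix n) (Ix n) ℚ) = 0 := by
    rw [sub_smul, h, sub_self]
  rcases smul_eq_zero.1 h1 with h2 | h2
  · exact Units.ext (Int.cast_injective (α := ℚ) (sub_eq_zero.1 h2))
  · exact absurd h2 x.1.ne_zero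

theorem compare {k : Type} [Field k] [CharZero k] {K : Type} [Field K] [CharZero K]
    {Ω : Type} [Field Ω] [CharZero Ω] [Algebra K Ω]
    [IsAlgClosed Ω] [Algebra.IsAlgebraic K Ω] {Ω₀ : Type} [Field Ω₀] [Algebra k Ω₀]
    [IsAlgClosed Ω₀] [Algebra.IsAlgebraic k Ω₀] (j : k →+* K) (ι : Ω₀ →+* Ω)
    (hι : ι.comp (algebraMap k Ω₀) = (algebraMap K Ω).comp j) {n : ℕ} {a : Fin n → k}
    {z : Fin n → Ω₀} (hz : Function.Injective z)
    (hza : AnWA.monicPoly (fun i => algebraMap k Ω₀ (a i)) = ∏ i, (X - C (z i)))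
    {ρ₀ : (Ω₀ ≃ₐ[k] Ω₀) →* dAlt n} (hρ₀ : ∀ τ i, τ (z i) = z (pi n (ρ₀ τ) i)) (hc₀ : Cts ρ₀)
    {y : Fin n → Ω}
    (hya : AnWA.monicPoly (fun i => algebraMap K Ω (j (a i))) = ∏ i, (X - C (y i)))
    {ρ : (Ω ≃ₐ[K] Ω) →* dAlt n} (hρ : ∀ τ i, τ (y i) = y (pi n (ρ τ) i)) (hc : Cts ρ)
    (hdet : (vandermonde y).det ≠ - ι ((vandermonde z).det)) :
    ∃ (g : dAlt n) (χ : (Ω ≃ₐ[K] Ω) →* ℤˣ), Cts χ ∧ ∀ τ τ₀, (∀ x, ι (τ₀ x) = τ (ι x)) →
      ((ρ₀ τ₀ : dAlt n).1 : Matrix (Ix n) (Ix n) ℚ) =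
        ((χ τ : ℤ) : ℚ) • ((g * ρ τ * g⁻¹ : dAlt n).1 : Matrix (Ix n) (Ix n) ℚ) := by
  have hιz : Function.Injective (fun i => ι (z i)) := fun i j h => hz (ι.injective h)
  have hpoly : ∏ i, (X - C (ι (z i))) = ∏ i, (X - C (y i)) := by
    rw [← hya]
    have h1 : (∏ i, (X - C (z i))).map ι = ∏ i, (X - C (ι (z i))) := by
      rw [Polynomial.map_prod]
      refine Finset.prod_congr rfl fun i _ => ?_
      rw [Polynomial.map_sub, Polynomial.map_X, Polynomial.map_C]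
    rw [← h1, ← hza, ← AnWA.monicPoly_map]
    congr 1
    funext i
    exact RingHom.congr_fun hι (a i)
  obtain ⟨κ, hκ⟩ := Cmp_root hιz hpoly
  have hs : Equiv.Perm.sign κ = 1 := by
    rcases Int.units_eq_one_or (Equiv.Perm.sign κ) with h | h
    · exact h
    · exfalso
      apply hdet
      have h1 := Cmp_vand hκ
      have h2 : ι (vandermonde z).det = (vandermonde fun i => ι (z i)).det := by
        rw [RingHom.map_det]
        congr 1
        ext i j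
        rw [RingHom.mapMatrix_apply, map_apply, vandermonde_apply, vandermonde_apply, map_pow]
      rw [h2, h1, h]
      simp
  have hy : Function.Injective y := by
    intro i j hij
    have h1 : ι (z (κ.symm i)) = ι (z (κ.symm j)) := by
      rw [hκ, hκ, Equiv.apply_symm_apply, Equiv.apply_symm_apply, hij]
    exact κ.symm.injective (hz (ι.injective h1))
  obtain ⟨g, hg⟩ := exists_pi (σ := κ⁻¹) (by rw [Equiv.Perm.sign_inv, hs])
  obtain ⟨r, hr⟩ := exists_res j ι hι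
  have hpi : ∀ τ, pi n (ρ₀ (r τ)) = pi n (g * ρ τ * g⁻¹) := by
    intro τ
    rw [map_mul, map_mul, map_inv, hg, inv_inv]
    refine Equiv.ext fun i => ?_
    apply κ.injective
    apply hy
    have e1 : κ (κ⁻¹ (pi n (ρ τ) (κ i))) = pi n (ρ τ) (κ i) := Equiv.apply_symm_apply κ _
    show y (κ (pi n (ρ₀ (r τ)) i)) = y (κ (κ⁻¹ (pi n (ρ τ) (κ i))))
    rw [e1, ← hκ, ← hρ₀, hr, hκ, hρ]
  have hχ : ∀ τ, ∃ u : ℤˣ, ((ρ₀ (r τ) : dAlt n).1 : Matrix (Ix n) (Ix n) ℚ) =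
      ((u : ℤ) : ℚ) • ((g * ρ τ * g⁻¹ : dAlt n).1 : Matrix (Ix n) (Ix n) ℚ) := by
    intro τ
    have h1 : pi n (ρ₀ (r τ) * (g * ρ τ * g⁻¹)⁻¹) = 1 := by
      rw [map_mul, map_inv, hpi, mul_inv_cancel]
    have h2 : ρ₀ (r τ) = (ρ₀ (r τ) * (g * ρ τ * g⁻¹)⁻¹) * (g * ρ τ * g⁻¹) := by
      rw [inv_mul_cancel_right]
    generalize ρ₀ (r τ) * (g * ρ τ * g⁻¹)⁻¹ = w at h1 h2
    rcases pi_ker h1 with h3 | h3
    · refine ⟨1, ?_⟩
      rw [h2, Subgroup.coe_mul, Units.val_mul, h3, one_mul, Units.val_one, Int.cast_one, one_smul]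
    · refine ⟨-1, ?_⟩
      rw [h2, Subgroup.coe_mul, Units.val_mul, h3, neg_one_mul, Units.val_neg, Units.val_one,
        Int.cast_neg, Int.cast_one, neg_smul, one_smul]
  choose χ hχ using hχ
  obtain ⟨χ', hχ'⟩ : ∃ χ' : (Ω ≃ₐ[K] Ω) →* ℤˣ, ∀ τ, χ' τ = χ τ := by
    refine ⟨MonoidHom.mk' χ fun τ τ' => ?_, fun _ => rfl⟩
    apply Cmp_inj (g * ρ (τ * τ') * g⁻¹)
    have e1 : g * ρ (τ * τ') * g⁻¹ = (g * ρ τ * g⁻¹) * (g * ρ τ' * g⁻¹) := by
      rw [map_mul]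
      group
    have e2 : ((ρ₀ (r (τ * τ')) : dAlt n).1 : Matrix (Ix n) (Ix n) ℚ) =
        ((ρ₀ (r τ) : dAlt n).1 : Matrix (Ix n) (Ix n) ℚ) *
        ((ρ₀ (r τ') : dAlt n).1 : Matrix (Ix n) (Ix n) ℚ) := by
      rw [map_mul, map_mul, Subgroup.coe_mul, Units.val_mul]
    rw [← hχ, e2, hχ τ, hχ τ', Matrix.smul_mul, Matrix.mul_smul, smul_smul, ← Units.val_mul,
      ← Subgroup.coe_mul, ← e1, Units.val_mul, Int.cast_mul]
  refine ⟨g, χ', ?_, ?_⟩
  · refine Cts.of_two (Cts_res ι hr hc₀) hc χ' fun τ h1 h2 => ?_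
    rw [hχ']
    have h3 := hχ τ
    have h1' : ρ₀ (r τ) = 1 := h1
    rw [h1', h2, mul_one, mul_inv_cancel] at h3
    refine (Cmp_inj (1 : dAlt n) (u := 1) (w := χ τ) ?_).symm
    rw [Units.val_one, Int.cast_one, one_smul]
    exact h3
  · intro τ τ₀ h
    have h1 : τ₀ = r τ := AlgEquiv.ext fun x => ι.injective ((h x).trans (hr τ x).symm)
    rw [h1, hχ']
    exact hχ τ

end NF83
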