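import Pool.Agent.H.MP_83e36b_nt.nf.Quad

/-! The Grunwald problem; as dc/GDef.lean. -/

set_option autoImplicit false

open DC83

namespace NF83

/-- the Grunwald problem for the finite group `G` over the field `kk` with a family of completions is
solvable for all finite sets of places: homomorphisms `ρ v` of the absolute Galois groups of the
completions at the places of `S` are, up to conjugation, the restrictions of a homomorphism of the
absolute Galois group of `kk` -/
def Grunwald (kk : Type) [Field kk] [PlSys kk] (G : Type) [Group G] : Prop :=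
  ∀ (S : Finset (Pk kk)) (ι : ∀ v : Pk kk, Kb kk →+* Ok v)
    (_ : ∀ v : Pk kk, (ι v).comp (algebraMap kk (Kb kk)) = (algebraMap (Cp v) (Ok v)).comp (em v))
    (ρ : ∀ v : Pk kk, (Ok v ≃ₐ[Cp v] Ok v) →* G),
    (∀ v, Cts (ρ v)) → ∃ ρ₀ : (Kb kk ≃ₐ[kk] Kb kk) →* G, Cts ρ₀ ∧ ∀ v ∈ S, ∃ g : G, ∀ τ τ₀,
      (∀ x, ι v (τ₀ x) = τ (ι v x)) → ρ₀ τ₀ = g * ρ v τ * g⁻¹

end NF83
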