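import Pool.Agent.H.MP_83e36b_nt.dc.Perm
import Pool.Agent.H.MP_83e36b_nt.dc.Orth
import Pool.Agent.H.MP_83e36b_nt.dc.Gal
import Pool.Agent.H.MP_83e36b_nt.dc.Four

/-! The lifting of a Galois representation with values in `A_n` to `2.A_n`; as dc/Glob.lean, for the
form `n<1>` over an arbitrary field. -/

set_option autoImplicit false

open Matrix SpinWA DC83

namespace NF83

section
variable {k : Type} [Field k] {Ω : Type} [Field Ω] [CharZero Ω] [Algebra k Ω]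

omit [CharZero Ω] in
private theorem Glob_mul {m : Type*} [Fintype m] (τ : Ω ≃ₐ[k] Ω) (A B : Matrix m m Ω) :
    (A * B).map τ = A.map τ * B.map τ :=
  Matrix.map_mul (f := (τ : Ω →+* Ω))

private theorem Glob_rat {m : Type*} (τ : Ω ≃ₐ[k] Ω) (A : Matrix m m ℚ) :
    (A.map (Rat.castHom Ω)).map τ = A.map (Rat.castHom Ω) := by
  ext i j
  simp only [Matrix.map_apply, eq_ratCast, map_ratCast]

private theorem Glob_sign {n : ℕ} (hn : 2 ≤ n) {a : Ω} (ha : a * a = 1) :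
    ∃ r : Fin n → ℚ, (∀ i, r i * r i = 1) ∧ (diagonal fun i => (Rat.castHom Ω) (r i)).det = a := by
  rcases mul_self_eq_one_iff.1 ha with h | h
  · refine ⟨fun _ => 1, fun _ => one_mul 1, ?_⟩
    rw [det_diagonal, h]
    simp
  · refine ⟨fun i => if i = ⟨0, by omega⟩ then -1 else 1, fun i => ?_, ?_⟩
    · by_cases hi : i = ⟨0, by omega⟩
      · simp only [if_pos hi]
        norm_num
      · simp only [if_neg hi]
        norm_num
    · rw [det_diagonal, h]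
      have e : ∀ i : Fin n, (Rat.castHom Ω) (if i = ⟨0, by omega⟩ then -1 else 1) =
          if i = ⟨0, by omega⟩ then -1 else 1 := by
        intro i
        split_ifs <;> simp
      rw [Finset.prod_congr rfl fun i _ => e i, Finset.prod_ite_eq']
      simp

end

/-- Proof: `M = V B⁻¹`, `Mᵀ M = 1`, `M₁ = M R` of determinant `1` with a rational diagonal `R`;
`τ(M₁) = pM (σ τ) M₁`.  Let `x` with `Spn x M₁`, `g_τ = x (τ x)ᵀ`. -/
theorem glob {n : ℕ} (hn : 2 ≤ n) {k : Type} [Field k] {Ω : Type} [Field Ω] [CharZero Ω]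
    [Algebra k Ω] [IsAlgClosed Ω] [Algebra.IsAlgebraic k Ω] {V : Matrix (Fin n) (Fin n) Ω}
    (hV : V.det ≠ 0) (σ : (Ω ≃ₐ[k] Ω) →* Equiv.Perm (Fin n))
    (hτ : ∀ τ : Ω ≃ₐ[k] Ω, V.map τ = pM Ω (σ τ) * V) {B : Matrix (Fin n) (Fin n) k}
    (h : (B.map (algebraMap k Ω))ᵀ * B.map (algebraMap k Ω) = Vᵀ * V) :
    ∃ ρ : (Ω ≃ₐ[k] Ω) →* dAlt n, Cts ρ ∧ ∀ τ, pi n (ρ τ) = σ τ := by
  classical
  obtain ⟨c, hc⟩ : ∃ c : ℚ →+* Ω, c = Rat.castHom Ω := ⟨_, rfl⟩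
  have hcm : ∀ (τ : Ω ≃ₐ[k] Ω) {m : Type} (A : Matrix m m ℚ), (A.map c).map τ = A.map c := by
    intro τ m A
    rw [hc]
    exact Glob_rat τ A
  obtain ⟨c', hc'⟩ : ∃ c' : k →+* Ω, c' = algebraMap k Ω := ⟨_, rfl⟩
  have hcm' : ∀ (τ : Ω ≃ₐ[k] Ω) {m : Type} (A : Matrix m m k), (A.map c').map τ = A.map c' := by
    intro τ m A
    rw [hc']
    ext i j
    exact τ.commutes _
  rw [← hc'] at h
  -- the inverse of B
  have hBdet : B.det ≠ 0 := by
    intro h0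
    have h1 : (B.map c').det = 0 := by
      have h2 := RingHom.map_det c' B
      rw [h0, map_zero] at h2
      exact h2.symm
    have h3 := congrArg Matrix.det h
    rw [det_mul, h1, mul_zero, det_mul, det_transpose] at h3
    exact mul_ne_zero hV hV h3.symm
  obtain ⟨Bm, hBm⟩ : ∃ Bm, Bm = B.map c' := ⟨_, rfl⟩
  obtain ⟨Bi, hBi⟩ : ∃ Bi, Bi = (B⁻¹).map c' := ⟨_, rfl⟩
  have hBB : Bm * Bi = 1 := by
    rw [hBm, hBi, ← Matrix.map_mul, Matrix.mul_nonsing_inv B (isUnit_iff_ne_zero.2 hBdet),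
      Matrix.map_one _ (map_zero c') (map_one c')]
  have hBBt : Biᵀ * Bmᵀ = 1 := by rw [← transpose_mul, hBB, transpose_one]
  rw [← hBm] at h
  obtain ⟨M, hM⟩ : ∃ M, M = V * Bi := ⟨_, rfl⟩
  have hMM : Mᵀ * M = 1 := by
    rw [hM, transpose_mul]
    calc Biᵀ * Vᵀ * (V * Bi) = Biᵀ * (Vᵀ * V) * Bi := by
          simp only [Matrix.mul_assoc]
      _ = (Biᵀ * Bmᵀ) * (Bm * Bi) := by
          rw [← h]
          simp only [Matrix.mul_assoc]
      _ = 1 := by rw [hBBt, hBB, Matrix.mul_one]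
  have hMdet : M.det * M.det = 1 := by
    have h1 := congrArg Matrix.det hMM
    rw [det_mul, det_transpose, det_one] at h1
    exact h1
  obtain ⟨r, hr1, hr2⟩ := Glob_sign hn hMdet
  obtain ⟨R, hR⟩ : ∃ R : Matrix (Fin n) (Fin n) Ω, R = diagonal fun i => c (r i) := ⟨_, rfl⟩
  have hRdet : R.det = M.det := by rw [hR, hc, hr2]
  have hRt : Rᵀ = R := by rw [hR, diagonal_transpose]
  have hRR : R * R = 1 := by
    rw [hR, diagonal_mul_diagonal, ← diagonal_one]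
    congr 1
    funext i
    rw [← map_mul, hr1, map_one]
  have hRτ : ∀ τ : Ω ≃ₐ[k] Ω, R.map τ = R := by
    intro τ
    have h1 : R = (diagonal r).map c := by
      rw [hR, diagonal_map (map_zero c)]
    rw [h1, hcm]
  obtain ⟨M₁, hM₁⟩ : ∃ M₁, M₁ = M * R := ⟨_, rfl⟩
  have hMM₁ : M₁ᵀ * M₁ = 1 := by
    rw [hM₁, transpose_mul, hRt]
    calc R * Mᵀ * (M * R) = R * (Mᵀ * M) * R := by simp only [Matrix.mul_assoc]
      _ = 1 := by rw [hMM, Matrix.mul_one, hRR]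
  have hdet₁ : M₁.det = 1 := by rw [hM₁, det_mul, hRdet, hMdet]
  obtain ⟨x, hx⟩ := Spn.exists hMM₁ hdet₁
  have hx1 := hx.mul_transpose
  have hMτ : ∀ τ : Ω ≃ₐ[k] Ω, M₁.map τ = pM Ω (σ τ) * M₁ := by
    intro τ
    rw [hM₁, hM, Glob_mul, Glob_mul, hτ, hRτ, hBi, hcm']
    simp only [Matrix.mul_assoc]
  obtain ⟨g, hg⟩ : ∃ g : (Ω ≃ₐ[k] Ω) → Matrix (Ix n) (Ix n) Ω,
      g = fun τ : Ω ≃ₐ[k] Ω => x * (x.map (fun y => τ y))ᵀ := ⟨_, rfl⟩
  have hgs : ∀ τ, Spn (g τ) (pM Ω (σ τ)⁻¹) := by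
    intro τ
    have h1 := hx.mul' ((hx.map (τ : Ω →+* Ω)).transpose)
    have h2 : M₁ * (M₁.map (τ : Ω →+* Ω))ᵀ = pM Ω (σ τ)⁻¹ := by
      have h3 : M₁.map (τ : Ω →+* Ω) = pM Ω (σ τ) * M₁ := hMτ τ
      rw [h3, transpose_mul, pM_transpose, ← Matrix.mul_assoc, mul_eq_one_comm.1 hMM₁,
        Matrix.one_mul]
    rw [h2] at h1
    rw [hg]
    exact h1
  have hex := fun τ => exists_of_spn hn (hgs τ)
  rw [← hc] at hex
  choose ρ hρ1 hρ2 using hex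
  have hinj : ∀ a b : dAlt n, (a.1 : Matrix (Ix n) (Ix n) ℚ).map c =
      (b.1 : Matrix (Ix n) (Ix n) ℚ).map c → a = b := fun a b hab =>
    Subtype.ext (Units.ext (Matrix.map_injective c.injective hab))
  have hxτ : ∀ τ : Ω ≃ₐ[k] Ω, (x.map τ)ᵀ * x.map τ = 1 := by
    intro τ
    have h1 : (x.map τ)ᵀ = xᵀ.map τ := rfl
    rw [h1, ← Glob_mul, hx1.2.1, Matrix.map_one _ (map_zero τ) (map_one τ)]
  have hgg : ∀ τ τ' : Ω ≃ₐ[k] Ω, g (τ * τ') = g τ * g τ' := by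
    intro τ τ'
    have e1 : (g τ').map τ = g τ' := by rw [← hρ2, hcm]
    have e2 : (g τ').map τ = x.map τ * (x.map (τ * τ'))ᵀ := by
      rw [hg]
      simp only []
      rw [Glob_mul]
      rfl
    rw [← e1, e2, hg]
    show x * (x.map (τ * τ'))ᵀ = x * (x.map τ)ᵀ * (x.map τ * (x.map (τ * τ'))ᵀ)
    calc x * (x.map (τ * τ'))ᵀ
        = x * 1 * (x.map (τ * τ'))ᵀ := by rw [Matrix.mul_one]
      _ = x * (x.map τ)ᵀ * (x.map τ * (x.map (τ * τ'))ᵀ) := by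
          rw [← hxτ τ]
          simp only [Matrix.mul_assoc]
  refine ⟨MonoidHom.mk' ρ fun τ τ' => hinj _ _ ?_, ?_, hρ1⟩
  · rw [hρ2, hgg, ← hρ2, ← hρ2, ← Matrix.map_mul, Subgroup.coe_mul, Units.val_mul]
  · refine Cts.of_fix _ (ι := Ix n × Ix n) (fun p => x p.1 p.2) fun τ hfix => ?_
    have h2 : x.map τ = x := by
      ext a b
      exact hfix (a, b)
    apply hinj
    show (((ρ τ).1 : (Matrix (Ix n) (Ix n) ℚ)ˣ) : Matrix (Ix n) (Ix n) ℚ).map c = _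
    rw [hρ2, hg]
    simp only []
    rw [h2, hx1.1, Subgroup.coe_one, Units.val_one, Matrix.map_one _ (map_zero c) (map_one c)]

end NF83
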