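import Pool.Agent.H.MP_83e36b_nt.nf.Apx
import Pool.Agent.H.MP_83e36b_nt.nf.Glob
import Pool.Agent.H.MP_83e36b_nt.nf.Cmp
import Pool.Agent.H.MP_83e36b_nt.nf.GDef
import Pool.Agent.H.MP_83e36b_nt.nf.LocB

/-! The Grunwald problem for `2.A_6` and `2.A_7`; as dc/Grun.lean. -/

set_option autoImplicit false

open Matrix Polynomial SpinWA DC83

namespace NF83

/-- the signs in the centre of `2.A_n` -/
private def Grun_c {n : ℕ} (hn : 2 ≤ n) : ℤˣ →* dAlt n :=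
  (Units.map (Int.castRingHom (Matrix (Ix n) (Ix n) ℚ) : ℤ →* Matrix (Ix n) (Ix n) ℚ)).codRestrict
    (dAlt n) (fun u => by
      rcases Int.units_eq_one_or u with h | h
      · rw [h, map_one]
        exact one_mem _
      · rw [h]
        have e1 : Units.map (Int.castRingHom (Matrix (Ix n) (Ix n) ℚ) :
            ℤ →* Matrix (Ix n) (Ix n) ℚ) (-1) = -1 := by
          ext1
          simp
        rw [e1]
        exact neg_one_mem hn)

private theorem Grun_c_val {n : ℕ} (hn : 2 ≤ n) (u : ℤˣ) :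
    ((Grun_c hn u : dAlt n).1 : Matrix (Ix n) (Ix n) ℚ) = (((u : ℤ)) : Matrix (Ix n) (Ix n) ℚ) :=
  rfl

private theorem Grun_c_comm {n : ℕ} (hn : 2 ≤ n) (u : ℤˣ) (x : dAlt n) :
    Grun_c hn u * x = x * Grun_c hn u := by
  apply Subtype.ext
  apply Units.ext
  rw [Subgroup.coe_mul, Subgroup.coe_mul, Units.val_mul, Units.val_mul, Grun_c_val]
  exact Int.cast_commute _ _

private theorem Grun_hk_det {k : Type} [Field k] {n : ℕ} {b : Fin n → k}
    {C' : Matrix (Fin n) (Fin n) k} (h : C'ᵀ * C' = hk b) : (hk b).det = C'.det ^ 2 := by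
  rw [← h, det_mul, det_transpose]
  ring

/-- the roots, in the right order -/
private theorem Grun_roots {k : Type} [Field k] [CharZero k] {n : ℕ} (hn : 4 ≤ n) {b : Fin n → k}
    {C' : Matrix (Fin n) (Fin n) k} (h : C'ᵀ * C' = hk b) (hC : C'.det ≠ 0) :
    ∃ z : Fin n → Kb k, Function.Injective z ∧
      AnWA.monicPoly (fun i => algebraMap k (Kb k) (b i)) = ∏ i, (X - C (z i)) ∧
      (vandermonde z).det = algebraMap k (Kb k) C'.det := by
  have hd := Grun_hk_det h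
  have hd0 : (hk b).det ≠ 0 := by
    rw [hd]
    exact pow_ne_zero 2 hC
  obtain ⟨z, hz, hzb⟩ := exists_roots (algebraMap k (Kb k)) b hd0
  have h1 : (vandermonde z).det ^ 2 = (algebraMap k (Kb k) C'.det) ^ 2 := by
    have h2 := croot_hk_det_map (algebraMap k (Kb k)) b
    rw [← vand_hk z _ hz hzb, det_mul, det_transpose, hd, map_pow] at h2
    rw [sq, h2]
  rcases sq_eq_sq_iff_eq_or_eq_neg.1 h1 with h2 | h2
  · exact ⟨z, hz, hzb, h2⟩
  · obtain ⟨κ, hκ⟩ : ∃ κ : Equiv.Perm (Fin n), κ = Equiv.swap ⟨0, by omega⟩ ⟨1, by omega⟩ :=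
      ⟨_, rfl⟩
    have hne : (⟨0, by omega⟩ : Fin n) ≠ ⟨1, by omega⟩ := by
      intro h3
      have h4 := congrArg Fin.val h3
      simp at h4
    refine ⟨z ∘ κ, hz.comp κ.injective, ?_, ?_⟩
    · rw [hzb]
      exact (Equiv.prod_comp κ (fun i => (X - C (z i)))).symm
    · have h3 : vandermonde (z ∘ κ) = pM (Kb k) κ * vandermonde z := by
        ext i j
        rw [pM_mul_apply, vandermonde_apply, vandermonde_apply]
        rfl
      rw [h3, det_mul, pM_det, hκ, Equiv.Perm.sign_swap hne, h2]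
      simp

theorem grun {kk : Type} [Field kk] [CharZero kk] [PlSys kk] (hpl : ∀ v : Pk kk, GoodPl (Cp v))
    {n : ℕ} (hn : n = 6 ∨ n = 7) : Grunwald kk (dAlt n) := by
  intro S ι hι ρ hρ
  have hal : Algebra.IsAlgebraic kk (Kb kk) := AlgebraicClosure.isAlgebraic kk
  have hn2 : 2 ≤ n := by omega
  have hchar : CharZero (Kb kk) :=
    charZero_of_injective_algebraMap (algebraMap kk (Kb kk)).injective
  have hloc := fun v : Pk kk => loc_one (hpl v) (Ω := Ok v) (by omega : 1 ≤ n) (by omega) (hρ v)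
  choose a x B hx hax hρx hB hBd hBx using hloc
  obtain ⟨b, C', hC', hC'd, hy⟩ := approx hn S ρ a x B hx hax hρx hB hBd hBx
  obtain ⟨z, hz, hzb, hzd⟩ := Grun_roots (by omega) hC' hC'd
  obtain ⟨σ, hσ⟩ := exists_gal hz hzb
  have hV : (vandermonde z).det ≠ 0 := det_vandermonde_ne_zero_iff.2 hz
  have hτ : ∀ τ : Kb kk ≃ₐ[kk] Kb kk,
      (vandermonde z).map τ = pM (Kb kk) (σ τ) * vandermonde z := by
    intro τ
    ext i j
    rw [pM_mul_apply, Matrix.map_apply, vandermonde_apply, vandermonde_apply, map_pow, hσ]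
  have hform : (C'.map (algebraMap kk (Kb kk)))ᵀ * C'.map (algebraMap kk (Kb kk)) =
      (vandermonde z)ᵀ * vandermonde z := by
    rw [vand_hk z _ hz hzb, ← hk_map (algebraMap kk (Kb kk)) b, ← hC', Matrix.map_mul,
      Matrix.transpose_map]
  obtain ⟨ρ₁, hc₁, hρ₁⟩ := glob hn2 hV σ hτ hform
  have hρ₁z : ∀ τ i, τ (z i) = z (pi n (ρ₁ τ) i) := by
    intro τ i
    rw [hρ₁, hσ]
  have hcmp : ∀ v : Pk kk, ∃ (g : dAlt n) (χ : (Ok v ≃ₐ[Cp v] Ok v) →* ℤˣ), Cts χ ∧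
      (v ∈ S → ∀ τ τ₀, (∀ x, ι v (τ₀ x) = τ (ι v x)) →
        ((ρ₁ τ₀ : dAlt n).1 : Matrix (Ix n) (Ix n) ℚ) =
          ((χ τ : ℤ) : ℚ) • ((g * ρ v τ * g⁻¹ : dAlt n).1 : Matrix (Ix n) (Ix n) ℚ)) := by
    intro v
    by_cases hv : v ∈ S
    · obtain ⟨y, hyb, hyρ, hyd⟩ := hy v hv
      have hcv : CharZero (Ok v) :=
        charZero_of_injective_algebraMap (algebraMap (Cp v) (Ok v)).injective
      have hdet : (vandermonde y).det ≠ - (ι v) ((vandermonde z).det) := by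
        have e1 : (ι v) ((vandermonde z).det) = algebraMap (Cp v) (Ok v) (em v C'.det) := by
          rw [hzd]
          exact RingHom.congr_fun (hι v) C'.det
        rw [e1]
        exact hyd
      obtain ⟨g, χ, hχ, h⟩ := compare (em v) (ι v) (hι v) hz hzb hρ₁z hc₁ hyb hyρ (hρ v) hdet
      exact ⟨g, χ, hχ, fun _ => h⟩
    · exact ⟨1, 1, Cts.one, fun h => absurd h hv⟩
  choose g χ hχ hg using hcmp
  obtain ⟨χ₀, hχ₀, hχ₀'⟩ := quad S ι hι χ hχ
  obtain ⟨ρ₀, hρ₀⟩ : ∃ ρ₀ : (Kb kk ≃ₐ[kk] Kb kk) →* dAlt n,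
      ∀ τ, ρ₀ τ = Grun_c hn2 (χ₀ τ) * ρ₁ τ := by
    refine ⟨MonoidHom.mk' (fun τ => Grun_c hn2 (χ₀ τ) * ρ₁ τ) ?_, fun τ => rfl⟩
    intro τ τ'
    rw [map_mul, map_mul, map_mul, mul_assoc, ← mul_assoc (Grun_c hn2 (χ₀ τ')),
      Grun_c_comm hn2 (χ₀ τ') (ρ₁ τ)]
    simp only [mul_assoc]
  refine ⟨ρ₀, ?_, ?_⟩
  · refine Cts.of_two hc₁ hχ₀ ρ₀ fun τ h1 h2 => ?_
    rw [hρ₀, h1, h2, map_one, one_mul]
  · intro v hv
    refine ⟨g v, fun τ τ₀ hτ₀ => ?_⟩
    apply Subtype.ext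
    apply Units.ext
    rw [hρ₀, Subgroup.coe_mul, Units.val_mul, Grun_c_val, hg v hv τ τ₀ hτ₀, hχ₀' v hv τ τ₀ hτ₀]
    rcases Int.units_eq_one_or (χ v τ) with h | h
    · rw [h]
      simp
    · rw [h]
      simp

end NF83
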