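import Pool.Agent.H.MP_83e36b_nt.nf.TrG
import Pool.Agent.H.MP_83e36b_nt.nf.Grun
import Pool.Agent.H.MP_83e36b_nt.nf.U5c
import Pool.Agent.H.MP_83e36b_nt.wa.All

/-! Weak approximation over number fields for the quotients by groups `P` for which the Grunwald problem
is solvable, for example `2.A_6` and `2.A_7`. -/

set_option autoImplicit false

open Polynomial NumberField IsDedekindDomain Topology DC83

namespace NF83

open CM83 NR83 WA83 AnWA

universe u v

/-- The completions of a number field at all infinite places and the finite places of `T`. -/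
@[instance_reducible]
noncomputable def plSys (k : Type) [Field k] [NumberField k]
    (T : Finset (HeightOneSpectrum (𝓞 k))) : PlSys k where
  P := InfinitePlace k ⊕ {v // v ∈ T}
  p0 := Sum.inl (Classical.arbitrary (InfinitePlace k))
  C := Compl T
  nf i := { (inferInstance : NormedField (Compl T i)) with
    non_trivial := exists_one_lt_norm T i }
  cs i := complete_compl T i
  em := complEmb T
  wa S x ε hε := by
    obtain ⟨r, hr⟩ := fieldWA_numberField T x ε hε
    exact ⟨r, fun v _ => hr v⟩

theorem countable_numberField (k : Type) [Field k] [NumberField k] : Countable k := by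
  have b := Module.finBasis ℚ k
  exact b.equivFun.toEquiv.countable_iff.2 inferInstance

/-- the Grunwald problem for `2.A_6` and `2.A_7` over a number field -/
theorem grun_nf {k : Type} [Field k] [NumberField k] (T : Finset (HeightOneSpectrum (𝓞 k))) {n : ℕ}
    (hn : n = 6 ∨ n = 7) : @Grunwald k _ (plSys k T) (dAlt n) _ := by
  letI iP : PlSys k := plSys k T
  have hgood : ∀ v : Pk k, GoodPl (Cp v) := fun v => good_compl T v
  exact grun hgood hn

/-- the places of a finite set -/
theorem dense_fin {k : Type} [Field k] [NumberField k] {P : Type} [Group P] [Finite P]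
    (hGr : ∀ T : Finset (HeightOneSpectrum (𝓞 k)), @Grunwald k _ (plSys k T) P _)
    {d : ℕ} (β : P →* (RF k d ≃ₐ[k] RF k d)) (hβ : SemiLin (1 : P →* (k ≃ₐ[k] k)) β)
    {m : ℕ} {f g : (MvPolynomial (Fin m) k)[X]} {F : Type u} [Field F] [Algebra k F]
    {ξ : Fin m → F} {η : F} (h : Generic f F ξ η) (hg : evP (algebraMap k F) ξ η g ≠ 0)
    (hF : StablyIso k F (fixF β)) (T : Finset (HeightOneSpectrum (𝓞 k))) :
    DenseRange (fun p : Pts f g (RingHom.id k) =>
      ((fun v : InfinitePlace k => mapPts (algebraMap k v.Completion) p),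
       (fun v : T => mapPts (algebraMap k (v.1.adicCompletion k)) p))) := by
  classical
  rintro ⟨A, B⟩
  have hcount : Countable k := countable_numberField k
  -- the data at all places
  let D : ∀ i, Pts f g (complEmb T i) := fun i =>
    match i with
    | Sum.inl v => A v
    | Sum.inr v => B v
  have hex : ∀ N : ℕ, ∃ p : Pts f g (RingHom.id k), ∀ i,
      (∀ j : Fin m, ‖(mapPts (complEmb T i) p).1.1 j - (D i).1.1 j‖ < 1 / ((N : ℝ) + 1)) ∧
      ‖(mapPts (complEmb T i) p).1.2 - (D i).1.2‖ < 1 / ((N : ℝ) + 1) := by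
    intro N
    letI iP : PlSys k := plSys k T
    have hG : Grunwald k P := hGr T
    have hfi : Finite (InfinitePlace k ⊕ {v // v ∈ T}) := inferInstance
    have hfi' : (Set.univ : Set (InfinitePlace k ⊕ {v // v ∈ T})).Finite := Set.finite_univ
    obtain ⟨p, hp⟩ := transfer hG β hβ h hg hF (hfi'.toFinset : Finset (Pk k)) D
      (ε := 1 / ((N : ℝ) + 1)) (by positivity)
    exact ⟨p, fun i => hp i (hfi'.mem_toFinset.2 (Set.mem_univ i))⟩
  choose p hp using hex
  refine mem_closure_of_tendsto (f := fun N => ((fun v : InfinitePlace k =>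
    mapPts (algebraMap k v.Completion) (p N)),
    (fun v : T => mapPts (algebraMap k (v.1.adicCompletion k)) (p N)))) (b := Filter.atTop) ?_
    (Filter.Eventually.of_forall fun N => ⟨p N, rfl⟩)
  rw [Prod.tendsto_iff]
  constructor
  · rw [tendsto_pi_nhds]
    intro v
    exact Pts.tendsto _ _ (fun N j => (hp N (Sum.inl v)).1 j) (fun N => (hp N (Sum.inl v)).2)
  · rw [tendsto_pi_nhds]
    intro v
    exact Pts.tendsto _ _ (fun N j => (hp N (Sum.inr v)).1 j) (fun N => (hp N (Sum.inr v)).2)

theorem dense_all {k : Type} [Field k] [NumberField k] {P : Type} [Group P] [Finite P]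
    (hGr : ∀ T : Finset (HeightOneSpectrum (𝓞 k)), @Grunwald k _ (plSys k T) P _)
    {d : ℕ} (β : P →* (RF k d ≃ₐ[k] RF k d)) (hβ : SemiLin (1 : P →* (k ≃ₐ[k] k)) β)
    {m : ℕ} {f g : (MvPolynomial (Fin m) k)[X]} {F : Type u} [Field F] [Algebra k F]
    {ξ : Fin m → F} {η : F} (h : Generic f F ξ η) (hg : evP (algebraMap k F) ξ η g ≠ 0)
    (hF : StablyIso k F (fixF β)) :
    DenseRange (fun p : Pts f g (RingHom.id k) =>
      ((fun v : InfinitePlace k => mapPts (algebraMap k v.Completion) p),
       (fun v : HeightOneSpectrum (𝓞 k) => mapPts (algebraMap k (v.adicCompletion k)) p))) := by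
  classical
  rintro ⟨A, B⟩
  rw [mem_closure_iff_nhds]
  intro U hU
  rw [nhds_prod_eq, Filter.mem_prod_iff] at hU
  obtain ⟨U1, hU1, U2, hU2, hsub⟩ := hU
  rw [nhds_pi, Filter.mem_pi] at hU2
  obtain ⟨S, hS, t, ht, hts⟩ := hU2
  have hdense := dense_fin hGr β hβ h hg hF hS.toFinset
  have h1 := hdense (A, fun v => B v.1)
  rw [mem_closure_iff_nhds] at h1
  have hnhds : U1 ×ˢ (Set.pi Set.univ (fun v : {v // v ∈ hS.toFinset} => t v.1)) ∈
      nhds (A, fun v : {v // v ∈ hS.toFinset} => B v.1) := by
    rw [nhds_prod_eq]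
    refine Filter.prod_mem_prod hU1 ?_
    exact set_pi_mem_nhds Set.finite_univ (fun v _ => ht v.1)
  obtain ⟨_, ⟨hp1, hp2⟩, p, rfl⟩ := h1 _ hnhds
  refine ⟨_, hsub ⟨hp1, hts ?_⟩, p, rfl⟩
  intro v hv
  exact hp2 ⟨v, hS.mem_toFinset.mpr hv⟩ (Set.mem_univ _)

end NF83
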