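import Pool.Agent.H.MP_83e36b_nt.dc.GalB

/-! Hilbert's theorem 90 for a homomorphism to matrices over the base field; as dc/H90.lean. -/

set_option autoImplicit false

open Matrix DC83

namespace NF83

universe u v w

section

variable {K : Type u} [Field K] {Ω : Type v} [Field Ω] [Algebra K Ω] {G : Type w} [Group G]
  [Fintype G] {κ : Type*} [Fintype κ] [DecidableEq κ]

/-- the twisting matrix with the parameters `p` -/
private noncomputable def H90T (R : G →* (Matrix κ κ K)ˣ) (n : ℕ) (x : G → Ω) (p : ℕ → Ω) :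
    Matrix κ κ Ω :=
  ∑ g, (∑ k ∈ Finset.range n, p k * x g ^ k) •
    (algebraMap K Ω).mapMatrix (((R g : (Matrix κ κ K)ˣ)) : Matrix κ κ K)

/-- its determinant is a polynomial in `p` -/
private theorem H90_poly (R : G →* (Matrix κ κ K)ˣ) (n : ℕ) (x : G → Ω) :
    ∃ D : MvPolynomial ℕ Ω, ∀ p, MvPolynomial.eval p D = (H90T R n x p).det := by
  refine ⟨(∑ g, (∑ k ∈ Finset.range n, MvPolynomial.X k * MvPolynomial.C (x g ^ k)) •
    (MvPolynomial.C.comp (algebraMap K Ω)).mapMatrix (((R g : (Matrix κ κ K)ˣ)) :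
      Matrix κ κ K) : Matrix κ κ (MvPolynomial ℕ Ω)).det, fun p => ?_⟩
  rw [RingHom.map_det]
  congr 1
  unfold H90T
  rw [map_sum]
  refine Finset.sum_congr rfl fun g _ => ?_
  ext i j
  simp [RingHom.mapMatrix_apply, Matrix.map_apply, Matrix.smul_apply]

/-- for suitable parameters it is the identity matrix -/
private theorem H90_one (R : G →* (Matrix κ κ K)ˣ) (x : G → Ω) (hx : Function.Injective x) :
    ∃ (n : ℕ) (p : ℕ → Ω), H90T R n x p = 1 := by
  classical
  obtain ⟨f, hf⟩ : ∃ f : Polynomial Ω, f = Lagrange.basis Finset.univ x 1 := ⟨_, rfl⟩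
  refine ⟨f.natDegree + 1, f.coeff, ?_⟩
  have h1 : ∀ g, ∑ k ∈ Finset.range (f.natDegree + 1), f.coeff k * x g ^ k =
      if g = 1 then 1 else 0 := by
    intro g
    rw [← Polynomial.eval_eq_sum_range, hf]
    split_ifs with h
    · rw [h]
      exact Lagrange.eval_basis_self (fun a _ b _ h => hx h) (Finset.mem_univ _)
    · exact Lagrange.eval_basis_of_ne (fun h' => h h'.symm) (Finset.mem_univ _)
  unfold H90T
  rw [Finset.sum_eq_single 1]
  · rw [h1, if_pos rfl, one_smul, map_one, Units.val_one, map_one]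
  · intro g _ hg
    rw [h1, if_neg hg, zero_smul]
  · intro h
    exact absurd (Finset.mem_univ _) h

end

/-- Proof: the image `Γ` of `ρ` in `G` is finite (or replace `G` by the range of `ρ`; `G` is finite
anyway).  By `exists_equivariant` for the regular action of `G` there is an injective `x : G → Ω`
with `τ (x g) = x (ρ τ * g)`.  For `p : G → K` (or `Fin N → K`) let
`T_p = ∑ g, (∑ k, p_k x_g ^ k) • R g`, `k < N = card G`; then `τ T_p = R (ρ τ)⁻¹ T_p`.  The
determinant of `T_p` is a polynomial in `p` over `Ω`; it is not zero: since the `x_g` are distinct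
(Vandermonde) there are `p_k` in `Ω` with `∑ k, p_k x_g ^ k = 1` for `g = 1` and `= 0` else, where
`T_p = R 1 = 1`.  So it is not zero at some `p` with values in the infinite field `K`. -/
theorem exists_hilbert90 {K : Type u} [Field K] [CharZero K] {Ω : Type v} [Field Ω] [Algebra K Ω]
    [IsAlgClosed Ω] [Algebra.IsAlgebraic K Ω] {G : Type w} [Group G] [Finite G]
    {ρ : (Ω ≃ₐ[K] Ω) →* G} (hρ : Cts ρ) {κ : Type*} [Fintype κ] [DecidableEq κ]
    (R : G →* (Matrix κ κ K)ˣ) :
    ∃ T : Matrix κ κ Ω, T.det ≠ 0 ∧ ∀ τ : Ω ≃ₐ[K] Ω,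
      T.map τ = (((R (ρ τ))⁻¹ : (Matrix κ κ K)ˣ) : Matrix κ κ K).map (algebraMap K Ω) * T := by
  classical
  have : Fintype G := Fintype.ofFinite G
  have : CharZero Ω := charZero_of_injective_algebraMap (algebraMap K Ω).injective
  have : Infinite K := CharZero.infinite K
  obtain ⟨x, hx, hτ⟩ := exists_equivariant hρ G
  obtain ⟨n, p₀, hp₀⟩ := H90_one R x hx
  obtain ⟨D, hD⟩ := H90_poly R n x
  have hD0 : D ≠ 0 := by
    intro h
    have h1 := hD p₀
    rw [h, map_zero, hp₀, det_one] at h1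
    exact zero_ne_one h1
  obtain ⟨p, hp, hpD⟩ : ∃ p ∈ Set.pi Set.univ (fun _ : ℕ => Set.range (algebraMap K Ω)),
      MvPolynomial.eval p D ≠ 0 := by
    by_contra hcon
    push Not at hcon
    apply hD0
    refine MvPolynomial.funext_set (fun _ : ℕ => Set.range (algebraMap K Ω))
      (fun _ => Set.infinite_range_of_injective (algebraMap K Ω).injective) fun y hy => ?_
    rw [map_zero]
    exact hcon y hy
  have hpτ : ∀ (τ : Ω ≃ₐ[K] Ω) (k : ℕ), τ (p k) = p k := by
    intro τ k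
    obtain ⟨a, ha⟩ := hp k (Set.mem_univ k)
    rw [← ha]
    exact τ.commutes a
  refine ⟨H90T R n x p, by rw [← hD]; exact hpD, fun τ => ?_⟩
  have h1 : (H90T R n x p).map τ = ∑ g, (∑ k ∈ Finset.range n, p k * x (ρ τ * g) ^ k) •
      (algebraMap K Ω).mapMatrix (((R g : (Matrix κ κ K)ˣ)) : Matrix κ κ K) := by
    ext i j
    unfold H90T
    rw [Matrix.map_apply, Matrix.sum_apply, Matrix.sum_apply, map_sum]
    refine Finset.sum_congr rfl fun g _ => ?_
    rw [Matrix.smul_apply, Matrix.smul_apply, smul_eq_mul, smul_eq_mul, map_mul, map_sum]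
    congr 1
    · refine Finset.sum_congr rfl fun k _ => ?_
      rw [map_mul, map_pow, hpτ, hτ, smul_eq_mul]
    · simp [RingHom.mapMatrix_apply, Matrix.map_apply]
  have h2 : (((R (ρ τ))⁻¹ : (Matrix κ κ K)ˣ) : Matrix κ κ K).map (algebraMap K Ω) =
      (algebraMap K Ω).mapMatrix (((R (ρ τ))⁻¹ : (Matrix κ κ K)ˣ) : Matrix κ κ K) := rfl
  rw [h1, h2]
  unfold H90T
  rw [Finset.mul_sum]
  refine Fintype.sum_equiv (Equiv.mulLeft (ρ τ)) _ _ fun g => ?_
  rw [Matrix.mul_smul]
  show (∑ k ∈ Finset.range n, p k * x (ρ τ * g) ^ k) • _ =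
    (∑ k ∈ Finset.range n, p k * x (ρ τ * g) ^ k) • _
  congr 1
  rw [← map_mul, ← Units.val_mul]
  show _ = (algebraMap K Ω).mapMatrix (((R (ρ τ))⁻¹ * R (ρ τ * g) : (Matrix κ κ K)ˣ) :
    Matrix κ κ K)
  rw [map_mul, inv_mul_cancel_left]

end NF83
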