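import Pool.Agent.H.MP_83e36b_nt.dc.GalC
import Pool.Agent.H.MP_83e36b_nt.sp.LCls
import Pool.Agent.H.MP_83e36b_nt.nf.Base

/-! Weak approximation for quadratic characters; as dc/Quad.lean. -/

set_option autoImplicit false

open SpinWA Topology DC83

namespace NF83

private theorem Quad_nhds {K : Type*} [NontriviallyNormedField K] [CompleteSpace K] [CharZero K]
    {d : K} (hd : d ≠ 0) : {a : K | ∃ r : K, r ≠ 0 ∧ a = d * r ^ 2} ∈ 𝓝 d := by
  have h1 : {r : K | r ≠ 0} ∈ 𝓝 (1 : K) := isOpen_ne.mem_nhds one_ne_zero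
  have h2 := sqrt_nhds (K := K) two_ne_zero h1
  have h3 : Filter.Tendsto (fun a : K => a / d) (𝓝 d) (𝓝 1) := by
    have h4 : ContinuousAt (fun a : K => a / d) d := continuousAt_id.div_const d
    have h6 := h4.tendsto
    rwa [div_self hd] at h6
  filter_upwards [h3.eventually h2] with a ha
  obtain ⟨r, hr, hra⟩ := ha
  refine ⟨r, hr, ?_⟩
  rw [hra, mul_div_cancel₀ _ hd]

/-- the algebraic closure -/
abbrev Kb (kk : Type) [Field kk] : Type := AlgebraicClosure kk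

variable {kk : Type} [Field kk] [CharZero kk] [PlSys kk]

theorem quad (S : Finset (Pk kk)) (ι : ∀ v : Pk kk, Kb kk →+* Ok v)
    (hι : ∀ v : Pk kk, (ι v).comp (algebraMap kk (Kb kk)) = (algebraMap (Cp v) (Ok v)).comp (em v))
    (χ : ∀ v : Pk kk, (Ok v ≃ₐ[Cp v] Ok v) →* ℤˣ) (hχ : ∀ v, Cts (χ v)) :
    ∃ χ₀ : (Kb kk ≃ₐ[kk] Kb kk) →* ℤˣ, Cts χ₀ ∧ ∀ v ∈ S, ∀ τ τ₀,
      (∀ x, ι v (τ₀ x) = τ (ι v x)) → χ₀ τ₀ = χ v τ := by
  classical
  have h1 : ∀ v : Pk kk, ∃ (d : Cp v) (y : Ok v), d ≠ 0 ∧ y ^ 2 = algebraMap (Cp v) (Ok v) d ∧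
      ∀ τ, τ y = ((χ v τ : ℤ) : Ok v) * y := fun v => exists_sqrt (hχ v)
  choose d y hd hy hτ using h1
  obtain ⟨r, hr⟩ := wa_rat (insert (p0 kk) S) d
    (fun v => {a : Cp v | ∃ t : Cp v, t ≠ 0 ∧ a = d v * t ^ 2}) fun v _ => Quad_nhds (hd v)
  have hr0 : r ≠ 0 := by
    rintro rfl
    obtain ⟨t, ht, h2⟩ := hr (p0 kk) (Finset.mem_insert_self _ _)
    rw [map_zero] at h2
    exact mul_ne_zero (hd (p0 kk)) (pow_ne_zero 2 ht) h2.symm
  obtain ⟨z, hz⟩ := IsAlgClosed.exists_pow_nat_eq (algebraMap kk (Kb kk) r) (n := 2) two_pos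
  have halg : Algebra.IsAlgebraic kk (Kb kk) := AlgebraicClosure.isAlgebraic kk
  obtain ⟨χ₀, hc, hχ₀⟩ := exists_char (K := kk) (Ω := Kb kk) hr0 hz
  refine ⟨χ₀, hc, fun v hv τ τ₀ hcomm => ?_⟩
  obtain ⟨t, ht, h2⟩ := hr v (Finset.mem_insert_of_mem hv)
  have hchar : CharZero (Ok v) :=
    charZero_of_injective_algebraMap (algebraMap (Cp v) (Ok v)).injective
  have h3 : ι v (algebraMap kk (Kb kk) r) = algebraMap (Cp v) (Ok v) (em v r) := by
    exact RingHom.congr_fun (hι v) r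
  have h5 : (ι v z) ^ 2 = (y v * algebraMap (Cp v) (Ok v) t) ^ 2 := by
    rw [← map_pow, hz, h3, h2, mul_pow, hy v, map_mul, map_pow]
  have h6 : τ (ι v z) = ((χ v τ : ℤ) : Ok v) * ι v z := by
    rcases sq_eq_sq_iff_eq_or_eq_neg.1 h5 with h7 | h7
    · rw [h7, map_mul, hτ v τ, AlgEquiv.commutes]
      ring
    · rw [h7, map_neg, map_mul, hτ v τ, AlgEquiv.commutes]
      ring
  have h7 : ι v (τ₀ z) = ((χ₀ τ₀ : ℤ) : Ok v) * ι v z := by
    rw [hχ₀ τ₀, map_mul, map_intCast]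
  have hz0 : ι v z ≠ 0 := by
    intro h8
    have h9 : z = 0 := (map_eq_zero_iff _ (ι v).injective).1 h8
    rw [h9, zero_pow two_ne_zero] at hz
    exact hr0 ((map_eq_zero_iff _ (algebraMap kk (Kb kk)).injective).1 hz.symm)
  have h8 : ((χ₀ τ₀ : ℤ) : Ok v) = ((χ v τ : ℤ) : Ok v) := by
    refine mul_right_cancel₀ hz0 ?_
    rw [← h7, hcomm z, h6]
  exact Units.ext (Int.cast_injective h8)

end NF83
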