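import Pool.Agent.H.MP_83e36b_nt.dc.U5

/-! Quadratic forms in five variables over a complete discretely valued field with finite residue
field are isotropic. -/

set_option autoImplicit false

open DC83

namespace NF83

/-- data of a complete discretely valued field `K` with finite residue field `κ`; `ψ : R → K` is a
ring of integral elements which is dense modulo the maximal ideal -/
structure LocF {K : Type*} [NormedField K] {R κ : Type*} [CommRing R] [Field κ] (ψ : R →+* K)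
    (red : R →+* κ) (π : K) : Prop where
  ultra : ∀ x y : K, ‖x + y‖ ≤ max ‖x‖ ‖y‖
  int : ∀ r, ‖ψ r‖ ≤ 1
  dens : ∀ x : K, ‖x‖ ≤ 1 → ∃ r, ‖x - ψ r‖ < 1
  surj : Function.Surjective red
  ker : ∀ r, red r = 0 ↔ ‖ψ r‖ < 1
  pi0 : π ≠ 0
  pi1 : ‖π‖ < 1
  disc : ∀ x : K, ‖x‖ < 1 → ‖x‖ ≤ ‖π‖

section
variable {K : Type*} [NormedField K] {d : Fin 5 → K}

/-- the quadratic form -/
def qd (d x : Fin 5 → K) : K := ∑ i, d i * x i ^ 2

/-- the bilinear form -/
def bd (d x y : Fin 5 → K) : K := ∑ i, 2 * d i * x i * y i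

theorem qd_add (x y : Fin 5 → K) (t : K) :
    qd d (x + t • y) = qd d x + t * bd d x y + t ^ 2 * qd d y := by
  simp only [qd, bd, Finset.mul_sum, ← Finset.sum_add_distrib]
  refine Finset.sum_congr rfl fun i _ => ?_
  simp only [Pi.add_apply, Pi.smul_apply, smul_eq_mul]
  ring

theorem qd_smul (x : Fin 5 → K) (t : K) : qd d (t • x) = t ^ 2 * qd d x := by
  simp only [qd, Finset.mul_sum]
  refine Finset.sum_congr rfl fun i _ => ?_
  simp only [Pi.smul_apply, smul_eq_mul]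
  ring

theorem qd_three (y : Fin 3 → Fin 5 → K) (a : Fin 3 → K) :
    qd d (∑ i, a i • y i) = a 0 ^ 2 * qd d (y 0) + a 1 ^ 2 * qd d (y 1) + a 2 ^ 2 * qd d (y 2) +
      a 0 * a 1 * bd d (y 0) (y 1) + a 0 * a 2 * bd d (y 0) (y 2) +
      a 1 * a 2 * bd d (y 1) (y 2) := by
  simp only [Fin.sum_univ_three, qd, bd, Finset.mul_sum, ← Finset.sum_add_distrib]
  refine Finset.sum_congr rfl fun i _ => ?_
  simp only [Pi.add_apply, Pi.smul_apply, smul_eq_mul]
  ring

/-- ultrametric sums -/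
theorem norm_nat_le {K : Type*} [NormedField K] (hu : ∀ x y : K, ‖x + y‖ ≤ max ‖x‖ ‖y‖) (n : ℕ) :
    ‖(n : K)‖ ≤ 1 := by
  induction n with
  | zero => simp
  | succ n ih =>
    rw [Nat.cast_succ]
    exact (hu _ _).trans (max_le ih (by rw [norm_one]))

theorem exists_w [CompleteSpace K] (hu : ∀ x y : K, ‖x + y‖ ≤ max ‖x‖ ‖y‖) {z : K}
    (hz : ‖z‖ < 1) : ∃ w : K, w ^ 2 + w = z := by
  have hneg : ∀ x y : K, ‖x - y‖ ≤ max ‖x‖ ‖y‖ := fun x y => by
    rw [sub_eq_add_neg]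
    exact (hu _ _).trans (by rw [norm_neg])
  obtain ⟨f, hf⟩ : ∃ f : K → K, f = fun w => z - w ^ 2 := ⟨_, rfl⟩
  have hs : IsComplete (Metric.closedBall (0 : K) ‖z‖) := Metric.isClosed_closedBall.isComplete
  have hmaps : Set.MapsTo f (Metric.closedBall (0 : K) ‖z‖) (Metric.closedBall (0 : K) ‖z‖) := by
    intro w hw
    rw [mem_closedBall_zero_iff] at hw ⊢
    rw [hf]
    refine (hneg _ _).trans (max_le le_rfl ?_)
    rw [norm_pow, sq]
    calc ‖w‖ * ‖w‖ ≤ ‖z‖ * 1 := mul_le_mul hw (hw.trans hz.le) (norm_nonneg _) (norm_nonneg _)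
      _ = ‖z‖ := mul_one _
  have hc : ContractingWith ⟨‖z‖, norm_nonneg z⟩ (hmaps.restrict f _ _) := by
    refine ⟨by exact_mod_cast hz, LipschitzWith.of_dist_le_mul fun a b => ?_⟩
    rw [Subtype.dist_eq, Subtype.dist_eq, dist_eq_norm, dist_eq_norm]
    show ‖f a.1 - f b.1‖ ≤ ‖z‖ * ‖a.1 - b.1‖
    rw [hf]
    have e : z - a.1 ^ 2 - (z - b.1 ^ 2) = -((a.1 + b.1) * (a.1 - b.1)) := by ring
    show ‖z - a.1 ^ 2 - (z - b.1 ^ 2)‖ ≤ _
    rw [e, norm_neg, norm_mul]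
    refine mul_le_mul_of_nonneg_right ?_ (norm_nonneg _)
    exact (hu _ _).trans (max_le (mem_closedBall_zero_iff.1 a.2) (mem_closedBall_zero_iff.1 b.2))
  obtain ⟨w, -, hw, -⟩ := hc.exists_fixedPoint' hs hmaps
    (x := 0) (mem_closedBall_zero_iff.2 (by rw [norm_zero]; exact norm_nonneg z)) (edist_ne_top _ _)
  refine ⟨w, ?_⟩
  have h1 : f w = w := hw
  rw [hf] at h1
  have h2 : z - w ^ 2 = w := h1
  linear_combination -h2

/-- the Schwarz inequality for anisotropic forms -/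
theorem schwarz [CompleteSpace K] (hu : ∀ x y : K, ‖x + y‖ ≤ max ‖x‖ ‖y‖)
    (h0 : ∀ x, qd d x = 0 → x = 0) (x y : Fin 5 → K) :
    ‖bd d x y‖ ^ 2 ≤ ‖qd d x‖ * ‖qd d y‖ := by
  by_contra hcon
  rw [not_le] at hcon
  have hb : bd d x y ≠ 0 := by
    intro h
    rw [h, norm_zero, zero_pow two_ne_zero] at hcon
    exact absurd hcon (not_lt.2 (mul_nonneg (norm_nonneg _) (norm_nonneg _)))
  have hy : y ≠ 0 := by
    rintro rfl
    apply hb
    simp [bd]
  have hqy : qd d y ≠ 0 := fun h => hy (h0 y h)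
  obtain ⟨z, hz⟩ : ∃ z : K, z = -(qd d x * qd d y / bd d x y ^ 2) := ⟨_, rfl⟩
  have hzn : ‖z‖ < 1 := by
    rw [hz, norm_neg, norm_div, norm_mul, norm_pow]
    rw [div_lt_one (by positivity)]
    exact hcon
  obtain ⟨w, hw⟩ := exists_w hu hzn
  have key : ∀ w : K, w ^ 2 + w = z → qd d (x + (bd d x y * w / qd d y) • y) = 0 := by
    intro w hw
    rw [qd_add]
    have e : qd d x * qd d y = -(z * bd d x y ^ 2) := by
      rw [hz]
      field_simp
    field_simp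
    linear_combination e + bd d x y ^ 2 * hw
  have h1 := h0 _ (key w hw)
  have h2 := h0 _ (key (-1 - w) (by linear_combination hw))
  have h3 : (bd d x y * w / qd d y - bd d x y * (-1 - w) / qd d y) • y = 0 := by
    rw [sub_smul]
    have h4 := h1.trans h2.symm
    rw [add_right_inj] at h4
    rw [h4, sub_self]
  rcases smul_eq_zero.1 h3 with h4 | h4
  · have h5 : 2 * w = -1 := by
      field_simp at h4
      have h6 : bd d x y * (2 * w + 1) = 0 := by linear_combination h4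
      rcases mul_eq_zero.1 h6 with h7 | h7
      · exact absurd h7 hb
      · linear_combination h7
    have h6 : (4 : K) * z = -1 := by
      rw [← hw]
      linear_combination (2 * w + 1) * h5
    have h7 : ‖(4 : K) * z‖ < 1 := by
      rw [norm_mul]
      have h8 := norm_nat_le hu 4
      have h9 : ‖((4 : ℕ) : K)‖ = ‖(4 : K)‖ := by norm_num
      rw [h9] at h8
      calc ‖(4 : K)‖ * ‖z‖ ≤ 1 * ‖z‖ := mul_le_mul_of_nonneg_right h8 (norm_nonneg _)
        _ < 1 := by rw [one_mul]; exact hzn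
    rw [h6, norm_neg, norm_one] at h7
    exact lt_irrefl _ h7
  · exact hy h4

end

/-- quadratic forms in three variables over a finite field are isotropic -/
theorem exists_root3 {κ : Type*} [Field κ] [Finite κ] (r0 r1 r2 r01 r02 r12 : κ) :
    ∃ a : Fin 3 → κ, a ≠ 0 ∧ a 0 ^ 2 * r0 + a 1 ^ 2 * r1 + a 2 ^ 2 * r2 + a 0 * a 1 * r01 +
      a 0 * a 2 * r02 + a 1 * a 2 * r12 = 0 := by
  classical
  have : Fintype κ := Fintype.ofFinite κ
  obtain ⟨p, hp⟩ := CharP.exists κ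
  have hpp : p.Prime := CharP.char_is_prime κ p
  obtain ⟨P, hP⟩ : ∃ P : MvPolynomial (Fin 3) κ, P = MvPolynomial.X 0 ^ 2 * MvPolynomial.C r0 +
      MvPolynomial.X 1 ^ 2 * MvPolynomial.C r1 + MvPolynomial.X 2 ^ 2 * MvPolynomial.C r2 +
      MvPolynomial.X 0 * MvPolynomial.X 1 * MvPolynomial.C r01 +
      MvPolynomial.X 0 * MvPolynomial.X 2 * MvPolynomial.C r02 +
      MvPolynomial.X 1 * MvPolynomial.X 2 * MvPolynomial.C r12 := ⟨_, rfl⟩
  have hev : ∀ a : Fin 3 → κ, MvPolynomial.eval a P = a 0 ^ 2 * r0 + a 1 ^ 2 * r1 +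
      a 2 ^ 2 * r2 + a 0 * a 1 * r01 + a 0 * a 2 * r02 + a 1 * a 2 * r12 := by
    intro a
    rw [hP]
    simp
  have hd : P.totalDegree ≤ 2 := by
    have h1 : ∀ (i : Fin 3) (r : κ), (MvPolynomial.X i ^ 2 * MvPolynomial.C r :
        MvPolynomial (Fin 3) κ).totalDegree ≤ 2 := by
      intro i r
      refine (MvPolynomial.totalDegree_mul _ _).trans ?_
      rw [MvPolynomial.totalDegree_X_pow, MvPolynomial.totalDegree_C]
    have h2 : ∀ (i j : Fin 3) (r : κ), (MvPolynomial.X i * MvPolynomial.X j * MvPolynomial.C r :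
        MvPolynomial (Fin 3) κ).totalDegree ≤ 2 := by
      intro i j r
      refine (MvPolynomial.totalDegree_mul _ _).trans ?_
      rw [MvPolynomial.totalDegree_C, add_zero]
      refine (MvPolynomial.totalDegree_mul _ _).trans ?_
      rw [MvPolynomial.totalDegree_X, MvPolynomial.totalDegree_X]
    rw [hP]
    refine (MvPolynomial.totalDegree_add _ _).trans (max_le ?_ (h2 _ _ _))
    refine (MvPolynomial.totalDegree_add _ _).trans (max_le ?_ (h2 _ _ _))
    refine (MvPolynomial.totalDegree_add _ _).trans (max_le ?_ (h2 _ _ _))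
    refine (MvPolynomial.totalDegree_add _ _).trans (max_le ?_ (h1 _ _))
    exact (MvPolynomial.totalDegree_add _ _).trans (max_le (h1 _ _) (h1 _ _))
  have hcard := char_dvd_card_solutions p (f := P) (by rw [Fintype.card_fin]; omega)
  have h0 : MvPolynomial.eval (0 : Fin 3 → κ) P = 0 := by
    rw [hev]
    simp
  by_contra hcon
  push Not at hcon
  have h1 : Fintype.card {x : Fin 3 → κ // MvPolynomial.eval x P = 0} = 1 := by
    rw [Fintype.card_eq_one_iff]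
    refine ⟨⟨0, h0⟩, fun y => ?_⟩
    apply Subtype.ext
    by_contra hy
    exact hcon y.1 hy (by rw [← hev]; exact y.2)
  rw [h1] at hcard
  exact hpp.one_lt.ne' (Nat.dvd_one.1 hcard)

section
variable {K : Type*} [NormedField K] {R κ : Type*} [CommRing R] [Field κ] [Finite κ]
  {ψ : R →+* K} {red : R →+* κ} {π : K} {d : Fin 5 → K}

omit [Finite κ] in
theorem LocF.sub (h : LocF ψ red π) (x y : K) : ‖x - y‖ ≤ max ‖x‖ ‖y‖ := by
  rw [sub_eq_add_neg]
  exact (h.ultra _ _).trans (by rw [norm_neg])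

omit [Finite κ] in
theorem LocF.add_lt (h : LocF ψ red π) {x y : K} {r : ℝ} (hx : ‖x‖ < r) (hy : ‖y‖ < r) :
    ‖x + y‖ < r := (h.ultra x y).trans_lt (max_lt hx hy)

/-- a primitive combination of three vectors with a smaller value -/
theorem LocF.three (h : LocF ψ red π) {c : K} (hc : c ≠ 0) (y : Fin 3 → Fin 5 → K)
    (hy : ∀ i, ‖qd d (y i)‖ ≤ ‖c‖) (hb : ∀ i j, ‖bd d (y i) (y j)‖ ≤ ‖c‖) :
    ∃ (a : Fin 3 → R) (j : Fin 3), ‖ψ (a j)‖ = 1 ∧ ‖qd d (∑ i, ψ (a i) • y i)‖ < ‖c‖ := by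
  have hcn : 0 < ‖c‖ := norm_pos_iff.2 hc
  have hex : ∀ z : K, ‖z‖ ≤ ‖c‖ → ∃ r, ‖z / c - ψ r‖ < 1 := fun z hz =>
    h.dens _ (by rw [norm_div]; exact (div_le_one hcn).2 hz)
  obtain ⟨r0, h0⟩ := hex _ (hy 0)
  obtain ⟨r1, h1⟩ := hex _ (hy 1)
  obtain ⟨r2, h2⟩ := hex _ (hy 2)
  obtain ⟨r01, h01⟩ := hex _ (hb 0 1)
  obtain ⟨r02, h02⟩ := hex _ (hb 0 2)
  obtain ⟨r12, h12⟩ := hex _ (hb 1 2)
  obtain ⟨b, hb0, hbr⟩ := exists_root3 (red r0) (red r1) (red r2) (red r01) (red r02) (red r12)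
  choose a ha using fun i => h.surj (b i)
  obtain ⟨j, hj⟩ : ∃ j, b j ≠ 0 := by
    by_contra hcon
    push Not at hcon
    exact hb0 (funext hcon)
  refine ⟨a, j, ?_, ?_⟩
  · refine le_antisymm (h.int _) (not_lt.1 fun hlt => hj ?_)
    rw [← ha j]
    exact (h.ker _).2 hlt
  · have hmul : ∀ (s : R) {z : K} , ‖z‖ < 1 → ‖ψ s * z‖ < 1 := fun s z hz => by
      rw [norm_mul]
      exact (mul_le_mul_of_nonneg_right (h.int s) (norm_nonneg _)).trans_lt (by rwa [one_mul])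
    have hred : ‖ψ (a 0 ^ 2 * r0 + a 1 ^ 2 * r1 + a 2 ^ 2 * r2 + a 0 * a 1 * r01 +
        a 0 * a 2 * r02 + a 1 * a 2 * r12)‖ < 1 := by
      rw [← h.ker]
      simp only [map_add, map_mul, map_pow, ha]
      exact hbr
    have key : ‖qd d (∑ i, ψ (a i) • y i) / c‖ < 1 := by
      rw [qd_three (d := d) y (fun i => ψ (a i))]
      have e : (ψ (a 0) ^ 2 * qd d (y 0) + ψ (a 1) ^ 2 * qd d (y 1) + ψ (a 2) ^ 2 * qd d (y 2) +
          ψ (a 0) * ψ (a 1) * bd d (y 0) (y 1) + ψ (a 0) * ψ (a 2) * bd d (y 0) (y 2) +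
          ψ (a 1) * ψ (a 2) * bd d (y 1) (y 2)) / c =
          ψ (a 0 ^ 2 * r0 + a 1 ^ 2 * r1 + a 2 ^ 2 * r2 + a 0 * a 1 * r01 +
            a 0 * a 2 * r02 + a 1 * a 2 * r12) +
          (ψ (a 0 ^ 2) * (qd d (y 0) / c - ψ r0) + (ψ (a 1 ^ 2) * (qd d (y 1) / c - ψ r1) +
          (ψ (a 2 ^ 2) * (qd d (y 2) / c - ψ r2) +
          (ψ (a 0 * a 1) * (bd d (y 0) (y 1) / c - ψ r01) +
          (ψ (a 0 * a 2) * (bd d (y 0) (y 2) / c - ψ r02) +
          ψ (a 1 * a 2) * (bd d (y 1) (y 2) / c - ψ r12)))))) := by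
        simp only [map_add, map_mul, map_pow]
        ring
      rw [e]
      exact h.add_lt hred (h.add_lt (hmul _ h0) (h.add_lt (hmul _ h1) (h.add_lt (hmul _ h2)
        (h.add_lt (hmul _ h01) (h.add_lt (hmul _ h02) (hmul _ h12))))))
    rw [norm_div, div_lt_one hcn] at key
    exact key

end

end NF83
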