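import Pool.Agent.H.MP_83e36b_nt.tw.CDef
import Pool.Agent.H.MP_83e36b_nt.dc.Clf

/-! `twoAlt n n` and `dAlt n`. -/

set_option autoImplicit false

open Matrix DC83

namespace NF83

private theorem CBn_sq {n : ℕ} {i j : Fin n} (h : i ≠ j) :
    (cE ℚ n i - cE ℚ n j) * (cE ℚ n i - cE ℚ n j) = (2 : ℚ) • 1 := by
  have h1 := cE_anti ℚ n h
  rw [sub_mul, mul_sub, mul_sub, cE_sq, cE_sq, h1, two_smul]
  abel

private theorem CBn_inv {n : ℕ} {i j k l : Fin n} (h : i ≠ j) (h' : k ≠ l) :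
    ((1 / 2 : ℚ) • ((cE ℚ n i - cE ℚ n j) * (cE ℚ n k - cE ℚ n l))) *
      ((1 / 2 : ℚ) • ((cE ℚ n k - cE ℚ n l) * (cE ℚ n i - cE ℚ n j))) = 1 := by
  have e1 := CBn_sq h
  have e2 := CBn_sq h'
  generalize cE ℚ n i - cE ℚ n j = a at *
  generalize cE ℚ n k - cE ℚ n l = b at *
  have e3 : a * b * (b * a) = (4 : ℚ) • 1 := by
    calc a * b * (b * a) = a * (b * b) * a := by simp only [mul_assoc]
      _ = (2 : ℚ) • (a * a) := by
          rw [e2, Matrix.mul_smul, mul_one, Matrix.smul_mul]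
      _ = (4 : ℚ) • 1 := by rw [e1, smul_smul]; norm_num
  rw [Matrix.smul_mul, Matrix.mul_smul, e3, smul_smul, smul_smul]
  norm_num

/-- the elements `x` with `x + x = y` -/
private theorem CBn_half {N : ℕ} (x y : Matrix (Ix N) (Ix N) ℚ) :
    x + x = y ↔ x = (1 / 2 : ℚ) • y := by
  constructor
  · rintro rfl
    rw [← two_smul ℚ x, smul_smul]
    norm_num
  · rintro rfl
    rw [← two_smul ℚ ((1 / 2 : ℚ) • y), smul_smul]
    norm_num

/-- the generators, as units -/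
private noncomputable def CBn_u {N : ℕ} {i j k l : Fin N} (h : i ≠ j) (h' : k ≠ l) :
    (Matrix (Ix N) (Ix N) ℚ)ˣ :=
  ⟨(1 / 2 : ℚ) • ((cE ℚ N i - cE ℚ N j) * (cE ℚ N k - cE ℚ N l)),
    (1 / 2 : ℚ) • ((cE ℚ N k - cE ℚ N l) * (cE ℚ N i - cE ℚ N j)), CBn_inv h h', CBn_inv h' h⟩

private theorem CBn_fwd {N : ℕ} (u : (Matrix (Ix N) (Ix N) ℚ)ˣ) (hu : u ∈ dAlt N) :
    (show CMat N from u.1) ∈ twoAlt N N ∧ (show CMat N from u⁻¹.1) ∈ twoAlt N N := by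
  refine Subgroup.closure_induction (p := fun u _ => (show CMat N from u.1) ∈ twoAlt N N ∧
    (show CMat N from u⁻¹.1) ∈ twoAlt N N) ?_ ?_ ?_ ?_ hu
  · rintro x ⟨i, j, k, l, h, h', hx⟩
    constructor
    · refine Submonoid.subset_closure ⟨i, j, k, l, i.2, j.2, k.2, l.2, h, h', ?_⟩
      exact (CBn_half _ _).2 hx
    · refine Submonoid.subset_closure ⟨k, l, i, j, k.2, l.2, i.2, j.2, h', h, ?_⟩
      refine (CBn_half _ _).2 ?_
      have h1 : x = CBn_u h h' := Units.ext hx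
      rw [h1]
      rfl
  · exact ⟨one_mem _, by
      have := one_mem (twoAlt N N)
      rw [inv_one]
      exact this⟩
  · rintro x y _ _ ⟨h1, h2⟩ ⟨h3, h4⟩
    refine ⟨mul_mem h1 h3, ?_⟩
    rw [_root_.mul_inv_rev]
    exact mul_mem h4 h2
  · rintro x _ ⟨h1, h2⟩
    refine ⟨h2, ?_⟩
    rw [inv_inv]
    exact h1

theorem twoAlt_fwd {n : ℕ} (y : dAlt n) :
    (show CMat n from (y.1.1 : Matrix (Ix n) (Ix n) ℚ)) ∈ twoAlt n n :=
  (CBn_fwd y.1 y.2).1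

theorem twoAlt_bwd {N : ℕ} (x : CMat N) (hx : x ∈ twoAlt N N) :
    ∃ u ∈ dAlt N, (u.1 : Matrix (Ix N) (Ix N) ℚ) = x := by
  refine Submonoid.closure_induction (motive := fun x _ => ∃ u ∈ dAlt N,
    (u.1 : Matrix (Ix N) (Ix N) ℚ) = x) ?_ ?_ ?_ hx
  · rintro x ⟨i, j, k, l, hi, hj, hk, hl, h, h', hx⟩
    have h1 := (CBn_half (N := N) _ _).1 hx
    exact ⟨CBn_u h h', Subgroup.subset_closure ⟨i, j, k, l, h, h', rfl⟩, h1.symm⟩
  · exact ⟨1, one_mem _, rfl⟩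
  · rintro x y _ _ ⟨u, hu, rfl⟩ ⟨w, hw, rfl⟩
    exact ⟨u * w, mul_mem hu hw, rfl⟩

end NF83
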