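import Pool.Agent.H.MP_83e36b_nt.nf.Qc
import Pool.Agent.H.MP_83e36b_nt.sp.LCls
import Pool.Agent.H.MP_83e36b_nt.sp.PMap
import Pool.Agent.H.MP_83e36b_nt.sp.PCont
import Pool.Agent.H.MP_83e36b_nt.sp.KKry
import Pool.Agent.H.MP_83e36b_nt.sp.KKryB

/-! The parametrisation of the polynomials of degree two: continuity, naturality, the local step. -/

set_option autoImplicit false

open Matrix SpinWA Topology

namespace NF83

section maps
variable {K : Type*} [Field K]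

/-- the rows of the parameters -/
def qrow (x : Fin 5 × Fin 4 → K) (i : Fin 5) : Fin 4 → K := fun j => x (i, j)

/-- `v` -/
def qV (x : Fin 5 × Fin 4 → K) : Fin 4 → K :=
  Rv (qrow x 2) (qrow x 3) (Rv (qrow x 0) (qrow x 1) (Z0 K) 0) (Ru (qrow x 0) (qrow x 1) (Z0 K) 0)

/-- `u` -/
def qU (x : Fin 5 × Fin 4 → K) : Fin 4 → K :=
  Ru (qrow x 2) (qrow x 3) (Rv (qrow x 0) (qrow x 1) (Z0 K) 0) (Ru (qrow x 0) (qrow x 1) (Z0 K) 0)

/-- `s` -/
def qS (x : Fin 5 × Fin 4 → K) : Fin 4 → K :=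
  fun j => qrow x 4 j - Bq (qrow x 4) (qU x) / Bq (qU x) (qU x) * qU x j -
    Bq (qrow x 4) (qV x) / Bq (qV x) (qV x) * qV x j

/-- the polynomial -/
def qG (x : Fin 5 × Fin 4 → K) : Fin (1 + 1) → K :=
  ![(Bq (qS x) (qS x) / 2) ^ 2 * Bq (qU x) (qU x) / 2, Bq (qS x) (qS x) / 2]

/-- the conditions -/
def qOk (x : Fin 5 × Fin 4 → K) : Prop :=
  Dq (qrow x 0) (qrow x 1) ≠ 0 ∧ Dq (qrow x 2) (qrow x 3) ≠ 0 ∧ Bq (qU x) (qU x) ≠ 0 ∧
    Bq (qV x) (qV x) ≠ 0 ∧ Bq (qS x) (qS x) ≠ 0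

theorem qG_good (h2 : (2 : K) ≠ 0) {x : Fin 5 × Fin 4 → K} (hx : qOk x) :
    (hk (qG x)).det ≠ 0 ∧ qG x 0 ≠ 0 ∧ coreF (1 : K) 1 (qG x) = 6 • cl 1 := by
  obtain ⟨h1, h2', h3, h4, h5⟩ := hx
  have e1 : Bq (qV x) (qV x) + 2 * Bq (qU x) (qU x) = 1 := by
    unfold qV qU
    rw [Qc_one h2', Qc_one h1]
    exact Qc_z0.1
  have e2 : Bq (qU x) (qV x) = 0 := by
    unfold qV qU
    rw [Qc_two h2 h2', Qc_two h2 h1]
    exact Qc_z0.2
  have hs : ∀ y : Fin 4 → K, Bq y (qS x) = Bq y (qrow x 4) -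
      Bq (qrow x 4) (qU x) / Bq (qU x) (qU x) * Bq y (qU x) -
      Bq (qrow x 4) (qV x) / Bq (qV x) (qV x) * Bq y (qV x) := by
    intro y
    obtain ⟨a, ha⟩ : ∃ a, a = Bq (qrow x 4) (qU x) / Bq (qU x) (qU x) := ⟨_, rfl⟩
    obtain ⟨b, hb⟩ : ∃ b, b = Bq (qrow x 4) (qV x) / Bq (qV x) (qV x) := ⟨_, rfl⟩
    have e : qS x = fun j => qrow x 4 j - a * qU x j - b * qV x j := by
      rw [ha, hb]; rfl
    rw [← ha, ← hb, e]
    simp only [Bq]
    ring
  have e3 : Bq (qU x) (qS x) = 0 := by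
    rw [hs, e2, div_mul_cancel₀ _ h3, Bq_comm (qU x) (qrow x 4)]
    ring
  have e4 : Bq (qV x) (qS x) = 0 := by
    rw [hs, Bq_comm (qV x) (qU x), e2, div_mul_cancel₀ _ h4, Bq_comm (qV x) (qrow x 4)]
    ring
  exact Qb_fwd h2 e2 e3 e4 e1 h3 h4 h5 (qG x) rfl rfl

end maps

section nat
variable {K : Type*} [Field K] {L : Type*} [Field L] (φ : K →+* L)

theorem two_map' : φ 2 = 2 := map_ofNat φ 2

theorem Bq_map (x y : Fin 4 → K) : φ (Bq x y) = Bq (fun i => φ (x i)) fun i => φ (y i) := by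
  simp [Bq, two_map' φ]

theorem Nq_map (x y : Fin 4 → K) : φ (Nq x y) = Nq (fun i => φ (x i)) fun i => φ (y i) := by
  simp [Nq, Bq_map, two_map' φ]

theorem Mq_map (x y : Fin 4 → K) : φ (Mq x y) = Mq (fun i => φ (x i)) fun i => φ (y i) := by
  simp [Mq, Bq_map, two_map' φ]

theorem Dq_map (x y : Fin 4 → K) : φ (Dq x y) = Dq (fun i => φ (x i)) fun i => φ (y i) := by
  simp [Dq, Nq_map, Mq_map, two_map' φ]

theorem L1q_map (n m v u : Fin 4 → K) : φ (L1q n m v u) =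
    L1q (fun i => φ (n i)) (fun i => φ (m i)) (fun i => φ (v i)) fun i => φ (u i) := by
  simp [L1q, Dq_map, Nq_map, Mq_map, Bq_map, two_map' φ]

theorem L2q_map (n m v u : Fin 4 → K) : φ (L2q n m v u) =
    L2q (fun i => φ (n i)) (fun i => φ (m i)) (fun i => φ (v i)) fun i => φ (u i) := by
  simp [L2q, Dq_map, Nq_map, Mq_map, Bq_map, two_map' φ]

theorem Rv_map (n m v u : Fin 4 → K) : (fun i => φ (Rv n m v u i)) =
    Rv (fun i => φ (n i)) (fun i => φ (m i)) (fun i => φ (v i)) fun i => φ (u i) := by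
  funext i
  simp [Rv, L1q_map, L2q_map, two_map' φ]

theorem Ru_map (n m v u : Fin 4 → K) : (fun i => φ (Ru n m v u i)) =
    Ru (fun i => φ (n i)) (fun i => φ (m i)) (fun i => φ (v i)) fun i => φ (u i) := by
  funext i
  simp [Ru, L1q_map, L2q_map, two_map' φ]

theorem Z0_map : (fun i => φ (Z0 K i)) = Z0 L := by
  funext i
  fin_cases i <;> simp [Z0]

theorem zero_map' : (fun i => φ ((0 : Fin 4 → K) i)) = (0 : Fin 4 → L) := by
  funext i
  simp

theorem qV_map (x : Fin 5 × Fin 4 → K) : (fun i => φ (qV x i)) = qV fun p => φ (x p) := by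
  unfold qV
  rw [Rv_map, Rv_map, Ru_map, Z0_map, zero_map']
  rfl

theorem qU_map (x : Fin 5 × Fin 4 → K) : (fun i => φ (qU x i)) = qU fun p => φ (x p) := by
  unfold qU
  rw [Ru_map, Rv_map, Ru_map, Z0_map, zero_map']
  rfl

theorem qS_map (x : Fin 5 × Fin 4 → K) : (fun i => φ (qS x i)) = qS fun p => φ (x p) := by
  funext i
  have h1 := qU_map φ x
  have h2 := qV_map φ x
  have h3 := congrFun h1 i
  have h4 := congrFun h2 i
  simp only [qS, map_sub, map_mul, map_div₀, Bq_map, h1, h2, h3, h4]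
  rfl

theorem qG_map (x : Fin 5 × Fin 4 → K) : (fun i => φ (qG x i)) = qG fun p => φ (x p) := by
  have h1 := qU_map φ x
  have h3 := qS_map φ x
  funext i
  fin_cases i
  · show φ ((Bq (qS x) (qS x) / 2) ^ 2 * Bq (qU x) (qU x) / 2) = _
    rw [map_div₀, map_mul, map_pow, map_div₀, Bq_map, Bq_map, h1, h3, map_ofNat]
    rfl
  · show φ (Bq (qS x) (qS x) / 2) = _
    rw [map_div₀, Bq_map, h3, map_ofNat]
    rfl

theorem qOk_map {x : Fin 5 × Fin 4 → K} (h : qOk fun p => φ (x p)) : qOk x := by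
  obtain ⟨h1, h2, h3, h4, h5⟩ := h
  refine ⟨fun h => h1 ?_, fun h => h2 ?_, fun h => h3 ?_, fun h => h4 ?_, fun h => h5 ?_⟩
  · have e := Dq_map φ (qrow x 0) (qrow x 1)
    rw [h, map_zero] at e
    exact e.symm
  · have e := Dq_map φ (qrow x 2) (qrow x 3)
    rw [h, map_zero] at e
    exact e.symm
  · rw [← qU_map, ← Bq_map, h, map_zero]
  · rw [← qV_map, ← Bq_map, h, map_zero]
  · rw [← qS_map, ← Bq_map, h, map_zero]

end nat

section cont
variable {K : Type*} [NontriviallyNormedField K] {X : Type*} [TopologicalSpace X] {p : X}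

theorem Bq_cont {a b : X → Fin 4 → K} (ha : ContinuousAt a p) (hb : ContinuousAt b p) :
    ContinuousAt (fun y => Bq (a y) (b y)) p := by
  have h1 := fun i => (continuousAt_pi.1 ha) i
  have h2 := fun i => (continuousAt_pi.1 hb) i
  unfold Bq
  have a0 := h1 0
  have a1 := h1 1
  have a2 := h1 2
  have a3 := h1 3
  have b0 := h2 0
  have b1 := h2 1
  have b2 := h2 2
  have b3 := h2 3
  fun_prop

theorem Nq_cont {a b : X → Fin 4 → K} (ha : ContinuousAt a p) (hb : ContinuousAt b p) :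
    ContinuousAt (fun y => Nq (a y) (b y)) p := by
  have h1 := Bq_cont ha ha
  have h2 := Bq_cont hb hb
  unfold Nq
  fun_prop

theorem Mq_cont {a b : X → Fin 4 → K} (ha : ContinuousAt a p) (hb : ContinuousAt b p) :
    ContinuousAt (fun y => Mq (a y) (b y)) p := by
  have h1 := Bq_cont ha hb
  unfold Mq
  fun_prop

theorem Dq_cont {a b : X → Fin 4 → K} (ha : ContinuousAt a p) (hb : ContinuousAt b p) :
    ContinuousAt (fun y => Dq (a y) (b y)) p := by
  have h1 := Nq_cont ha hb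
  have h2 := Mq_cont ha hb
  unfold Dq
  fun_prop

theorem Lq_cont {n m v u : X → Fin 4 → K} (hn : ContinuousAt n p) (hm : ContinuousAt m p)
    (hv : ContinuousAt v p) (hu : ContinuousAt u p) (hD : Dq (n p) (m p) ≠ 0) :
    ContinuousAt (fun y => L1q (n y) (m y) (v y) (u y)) p ∧
    ContinuousAt (fun y => L2q (n y) (m y) (v y) (u y)) p := by
  have h1 := Nq_cont hn hm
  have h2 := Mq_cont hn hm
  have h3 := Dq_cont hn hm
  have h4 := Bq_cont hv hn
  have h5 := Bq_cont hu hm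
  have h6 := Bq_cont hv hm
  have h7 := Bq_cont hu hn
  constructor
  · unfold L1q
    exact ContinuousAt.div (by fun_prop) h3 hD
  · unfold L2q
    exact ContinuousAt.div (by fun_prop) h3 hD

theorem R_cont {n m v u : X → Fin 4 → K} (hn : ContinuousAt n p) (hm : ContinuousAt m p)
    (hv : ContinuousAt v p) (hu : ContinuousAt u p) (hD : Dq (n p) (m p) ≠ 0) :
    ContinuousAt (fun y => Rv (n y) (m y) (v y) (u y)) p ∧
    ContinuousAt (fun y => Ru (n y) (m y) (v y) (u y)) p := by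
  obtain ⟨h1, h2⟩ := Lq_cont hn hm hv hu hD
  constructor
  · rw [continuousAt_pi]
    intro i
    have a1 := continuousAt_pi.1 hn i
    have a2 := continuousAt_pi.1 hm i
    have a3 := continuousAt_pi.1 hv i
    unfold Rv
    fun_prop
  · rw [continuousAt_pi]
    intro i
    have a1 := continuousAt_pi.1 hn i
    have a2 := continuousAt_pi.1 hm i
    have a3 := continuousAt_pi.1 hu i
    unfold Ru
    fun_prop

theorem qrow_cont (i : Fin 5) (x : Fin 5 × Fin 4 → K) :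
    ContinuousAt (fun y : Fin 5 × Fin 4 → K => qrow y i) x := by
  rw [continuousAt_pi]
  intro j
  exact (continuous_apply (i, j)).continuousAt

theorem qVU_cont {x : Fin 5 × Fin 4 → K} (hx : qOk x) :
    ContinuousAt (fun y : Fin 5 × Fin 4 → K => qV y) x ∧
    ContinuousAt (fun y : Fin 5 × Fin 4 → K => qU y) x := by
  have h := R_cont (qrow_cont 0 x) (qrow_cont 1 x) (continuousAt_const (y := Z0 K))
    (continuousAt_const (y := (0 : Fin 4 → K))) hx.1
  exact R_cont (qrow_cont 2 x) (qrow_cont 3 x) h.1 h.2 hx.2.1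

theorem qS_cont {x : Fin 5 × Fin 4 → K} (hx : qOk x) :
    ContinuousAt (fun y : Fin 5 × Fin 4 → K => qS y) x := by
  obtain ⟨hV, hU⟩ := qVU_cont hx
  rw [continuousAt_pi]
  intro j
  have h1 := continuousAt_pi.1 (qrow_cont 4 x) j
  have h2 := continuousAt_pi.1 hV j
  have h3 := continuousAt_pi.1 hU j
  have h4 := (Bq_cont (qrow_cont 4 x) hU).div (Bq_cont hU hU) hx.2.2.1
  have h5 := (Bq_cont (qrow_cont 4 x) hV).div (Bq_cont hV hV) hx.2.2.2.1
  unfold qS
  exact (h1.sub (h4.mul h3)).sub (h5.mul h2)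

theorem qG_cont {x : Fin 5 × Fin 4 → K} (hx : qOk x) :
    ContinuousAt (fun y : Fin 5 × Fin 4 → K => qG y) x := by
  obtain ⟨hV, hU⟩ := qVU_cont hx
  have hS := qS_cont hx
  have h1 := Bq_cont hS hS
  have h2 := Bq_cont hU hU
  rw [continuousAt_pi]
  intro j
  fin_cases j
  · show ContinuousAt (fun y : Fin 5 × Fin 4 → K =>
      (Bq (qS y) (qS y) / 2) ^ 2 * Bq (qU y) (qU y) / 2) x
    fun_prop
  · show ContinuousAt (fun y : Fin 5 × Fin 4 → K => Bq (qS y) (qS y) / 2) x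
    fun_prop

theorem qOk_nhds {x : Fin 5 × Fin 4 → K} (hx : qOk x) : ∀ᶠ y in 𝓝 x, qOk y := by
  obtain ⟨hV, hU⟩ := qVU_cont hx
  have hS := qS_cont hx
  exact ((Dq_cont (qrow_cont 0 x) (qrow_cont 1 x)).eventually_ne hx.1).and
    (((Dq_cont (qrow_cont 2 x) (qrow_cont 3 x)).eventually_ne hx.2.1).and
    (((Bq_cont hU hU).eventually_ne hx.2.2.1).and
    (((Bq_cont hV hV).eventually_ne hx.2.2.2.1).and
    ((Bq_cont hS hS).eventually_ne hx.2.2.2.2))))

end cont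

section loc
variable {K : Type*} [NontriviallyNormedField K] [CharZero K]

theorem qparam (a : Fin (1 + 1) → K) (h0 : a 0 ≠ 0) (h1 : a 1 ≠ 0) (hd : a 1 ^ 2 - 4 * a 0 ≠ 0)
    (hc : coreF (1 : K) 1 a = 6 • cl 1) : ∃ x : Fin 5 × Fin 4 → K, qOk x ∧ qG x = a := by
  obtain ⟨u, v, s, huv, hus, hvs, h1', hu, hv, hs, ha1, ha0⟩ := Qb_bwd two_ne_zero a h0 h1 hd hc
  obtain ⟨n, m, n', m', hD, hD', hV, hU⟩ := Qc_loc (v := v) (u := u) h1' huv
  obtain ⟨x, hx⟩ : ∃ x : Fin 5 × Fin 4 → K, x = fun p => (![n, m, n', m', s] : Fin 5 → Fin 4 → K)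
      p.1 p.2 := ⟨_, rfl⟩
  have r0 : qrow x 0 = n := by rw [hx]; rfl
  have r1 : qrow x 1 = m := by rw [hx]; rfl
  have r2 : qrow x 2 = n' := by rw [hx]; rfl
  have r3 : qrow x 3 = m' := by rw [hx]; rfl
  have r4 : qrow x 4 = s := by rw [hx]; rfl
  have eV : qV x = v := by
    unfold qV
    rw [r0, r1, r2, r3]
    exact hV
  have eU : qU x = u := by
    unfold qU
    rw [r0, r1, r2, r3]
    exact hU
  have eS : qS x = s := by
    unfold qS
    rw [r4, eU, eV, Bq_comm s u, hus, Bq_comm s v, hvs]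
    funext j
    simp
  refine ⟨x, ⟨?_, ?_, ?_, ?_, ?_⟩, ?_⟩
  · rw [r0, r1]; exact hD
  · rw [r2, r3]; exact hD'
  · rw [eU]; exact hu
  · rw [eV]; exact hv
  · rw [eS]; exact hs
  · unfold qG
    rw [eS, eU]
    funext i
    fin_cases i
    · exact ha0.symm
    · exact ha1.symm

theorem q_nhds [CompleteSpace K] {n : ℕ} (g : Fin n → K) (hd : (hk g).det ≠ 0) (h0 : cf g 0 ≠ 0) :
    ∀ᶠ a in 𝓝 g, (hk a).det ≠ 0 ∧ cf a 0 ≠ 0 ∧ cls ((2 : K) • hk a) = cls ((2 : K) • hk g) ∧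
      cls ((-2 : K) • hk1 a) = cls ((-2 : K) • hk1 g) := by
  have h2 : (2 : K) ≠ 0 := two_ne_zero
  have e1 : ∀ᶠ a in 𝓝 g, (hk a).det ≠ 0 :=
    (Continuous.matrix_det continuous_hk).continuousAt.eventually_ne hd
  have e2 : ∀ᶠ a in 𝓝 g, cf a 0 ≠ 0 := (continuous_cf 0).continuousAt.eventually_ne h0
  have hd1 : (hk1 g).det ≠ 0 := by
    rw [det_hk1]
    exact mul_ne_zero (mul_ne_zero (pow_ne_zero _ (neg_ne_zero.mpr one_ne_zero)) h0) hd
  have hs : ∀ (c : K) (a : Fin n → K), (c • hk a)ᵀ = c • hk a := fun c a => by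
    rw [Matrix.transpose_smul, hk_transpose]
  have hs1 : ∀ (c : K) (a : Fin n → K), (c • hk1 a)ᵀ = c • hk1 a := fun c a => by
    rw [Matrix.transpose_smul, hk1_transpose]
  have hd2 : ((2 : K) • hk g).det ≠ 0 := by
    rw [Matrix.det_smul]
    exact mul_ne_zero (pow_ne_zero _ h2) hd
  have hd3 : ((-2 : K) • hk1 g).det ≠ 0 := by
    rw [Matrix.det_smul]
    exact mul_ne_zero (pow_ne_zero _ (neg_ne_zero.mpr h2)) hd1
  have e3 := (continuous_hk.const_smul (2 : K)).continuousAt.eventually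
    (cls_nhds h2 (hs 2 g) hd2)
  have e4 := (continuous_hk1.const_smul (-2 : K)).continuousAt.eventually
    (cls_nhds h2 (hs1 (-2) g) hd3)
  filter_upwards [e1, e2, e3, e4] with a h3 h4 h5 h6
  exact ⟨h3, h4, (h5 (hs 2 a)).2, (h6 (hs1 (-2) a)).2⟩

theorem qloc [CompleteSpace K] (g : Fin (1 + 1) → K) (hd : (hk g).det ≠ 0) (h0 : g 0 ≠ 0)
    (hc : coreF (1 : K) 1 g = 6 • cl 1) {U : Set (Fin (1 + 1) → K)} (hU : U ∈ 𝓝 g) :
    ∃ x : Fin 5 × Fin 4 → K, qOk x ∧ qG x ∈ interior U := by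
  have t2 : (2 : K) ≠ 0 := two_ne_zero
  have e0 : ∀ a : Fin (1 + 1) → K, cf a 0 = a 0 := fun a => rfl
  have h1 := q_nhds g hd (by rw [e0]; exact h0)
  have h7 : ∀ᶠ a in 𝓝 g, cl (2 * 1 * cf a 0) = cl (2 * 1 * cf g 0) := by
    have hcont : Continuous fun a : Fin (1 + 1) → K => 2 * 1 * cf a 0 := by
      simp only [e0]
      exact continuous_const.mul (continuous_apply 0)
    exact hcont.continuousAt.eventually
      (cl_nhds t2 (mul_ne_zero (mul_ne_zero t2 one_ne_zero) (by rw [e0]; exact h0)))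
  have h8 : ∀ᶠ a in 𝓝 g, (hk a).det ≠ 0 ∧ a 0 ≠ 0 ∧ coreF (1 : K) 1 a = 6 • cl 1 ∧
      a ∈ interior U := by
    filter_upwards [h1, h7, interior_mem_nhds.2 hU] with a ha hb hcU
    refine ⟨ha.1, ha.2.1, ?_, hcU⟩
    rw [← hc]
    unfold coreF
    rw [hb, mul_one (-2 : K), ha.2.2.1, ha.2.2.2]
  -- perturb
  obtain ⟨a, ha, ha1⟩ : ∃ a : Fin (1 + 1) → K, ((hk a).det ≠ 0 ∧ a 0 ≠ 0 ∧
      coreF (1 : K) 1 a = 6 • cl 1 ∧ a ∈ interior U) ∧ a 1 ≠ 0 := by
    by_cases hg1 : g 1 = 0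
    · have ht : Filter.Tendsto (fun t : K => Function.update g 1 t) (𝓝[≠] 0) (𝓝 g) := by
        have hcont : Continuous fun t : K => Function.update g 1 t :=
          continuous_const.update 1 continuous_id
        have h := hcont.tendsto 0
        have e : Function.update g 1 (0 : K) = g := by
          rw [← hg1, Function.update_eq_self]
        rw [e] at h
        exact h.mono_left nhdsWithin_le_nhds
      have h9 := (ht.eventually h8).and self_mem_nhdsWithin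
      obtain ⟨t, ht1, ht2⟩ := h9.exists
      refine ⟨_, ht1, ?_⟩
      rw [Function.update_self]
      exact ht2
    · exact ⟨g, h8.self_of_nhds, hg1⟩
  obtain ⟨hda, ha0, hca, haU⟩ := ha
  rw [Qa_hk] at hda
  obtain ⟨x, hx, hxa⟩ := qparam a ha0 ha1 hda hca
  exact ⟨x, hx, by rw [hxa]; exact haU⟩

end loc

end NF83
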