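import Pool.Agent.H.MP_83e36b_nt.nf.Base
import Pool.Agent.H.MP_83e36b_nt.nf.Qd

/-! The core of the second duality for polynomials of degree two over an arbitrary field. -/

set_option autoImplicit false

open Topology Matrix Polynomial SpinWA

namespace NF83

variable {kk : Type} [Field kk] [CharZero kk] [PlSys kk]

theorem core2 (S : Finset (Pk kk)) (hS : p0 kk ∈ S) (g : ∀ v : Pk kk, Fin (1 + 1) → Cp v)
    (hgd : ∀ v ∈ S, (hk (g v)).det ≠ 0) (hg0 : ∀ v ∈ S, g v 0 ≠ 0)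
    (hcl : ∀ v ∈ S, coreF (1 : Cp v) 1 (g v) = 6 • cl 1)
    (U : ∀ v : Pk kk, Set (Fin (1 + 1) → Cp v)) (hU : ∀ v ∈ S, U v ∈ 𝓝 (g v)) :
    ∃ G : Fin (1 + 1) → kk, (hk G).det ≠ 0 ∧ G 0 ≠ 0 ∧ coreF (1 : kk) 1 G = 6 • cl 1 ∧
      ∀ v ∈ S, (fun i => em v (G i)) ∈ U v := by
  classical
  have hx : ∀ v : Pk kk, ∃ x : Fin 5 × Fin 4 → Cp v, v ∈ S → (qOk x ∧ qG x ∈ interior (U v)) := by
    intro v
    by_cases hv : v ∈ S
    · obtain ⟨x, hx⟩ := qloc (g v) (hgd v hv) (hg0 v hv) (hcl v hv) (hU v hv)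
      exact ⟨x, fun _ => hx⟩
    · exact ⟨fun _ => 0, fun h => absurd h hv⟩
  choose x hx using hx
  obtain ⟨r, hr⟩ := wa_fun S x (fun v => {y | qOk y ∧ qG y ∈ interior (U v)}) (fun v hv => by
    obtain ⟨h1, h2⟩ := hx v hv
    exact (qOk_nhds h1).and ((qG_cont h1).eventually (isOpen_interior.mem_nhds h2)))
  have hok : qOk r := qOk_map (em (p0 kk)) (hr (p0 kk) hS).1
  obtain ⟨h1, h2, h3⟩ := qG_good (K := kk) two_ne_zero hok
  refine ⟨qG r, h1, h2, h3, fun v hv => ?_⟩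
  rw [qG_map (em v) r]
  exact interior_subset (hr v hv).2

end NF83
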