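import Pool.Agent.H.MP_83e36b_nt.nr.Galois

/-! Descent of the coefficients for a product `Gal(K/k) × P`. -/

set_option autoImplicit false

namespace NF83

open CM83 NR83

universe u v w z

private theorem LX_fix {k : Type u} [Field k] {E : Type w} [Field E] [Algebra k E] {G : Type v}
    [Group G] {H : Type z} [Group H] (α : G →* (E ≃ₐ[k] E)) (f : H →* G)
    (hf : Function.Surjective f) : fixF (α.comp f) = fixF α := by
  ext x
  rw [mem_fixF, mem_fixF]
  constructor
  · intro h g
    obtain ⟨g', rfl⟩ := hf g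
    exact h g'
  · intro h g
    exact h _

/-- the linear action of a faithful representation -/
private theorem LX_gam (k : Type u) [Field k] {P : Type z} [Group P] {c : ℕ}
    (ρ : P →* Matrix.GeneralLinearGroup (Fin c) k) (hρ : Function.Injective ρ)
    (γ : P →* (RF k c ≃ₐ[k] RF k c))
    (hγ : ∀ g i, γ g (xv k i) = ∑ j, algebraMap k (RF k c)
        ((ρ g : Matrix (Fin c) (Fin c) k) j i) * xv k j) :
    SemiLin (1 : P →* (k ≃ₐ[k] k)) γ := by
  refine ⟨fun g a => ?_, fun g i => ?_, fun g g' hgg => ?_⟩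
  · rw [AlgEquiv.commutes]
    rfl
  · rw [hγ]
    refine Submodule.sum_mem _ fun j _ => ?_
    rw [← Algebra.smul_def]
    exact Submodule.smul_mem _ _ (Submodule.subset_span ⟨j, rfl⟩)
  · apply hρ
    apply Units.ext
    apply Matrix.ext
    intro j i
    have h3 : γ g (xv k i) = γ g' (xv k i) := by rw [hgg]
    rw [hγ, hγ] at h3
    exact congrFun (semi_uniq h3) j

/-- the product action is faithful -/
private theorem LX_bet {k : Type u} [Field k] {K : Type w} [Field K] [Algebra k K]
    {A : Type v} [Group A] {P : Type z} [Group P] (α : A →* (K ≃ₐ[k] K)) (χ : A →* P)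
    (hinj : ∀ g, α g = 1 → χ g = 1 → g = 1) {c : ℕ}
    (ρ : P →* Matrix.GeneralLinearGroup (Fin c) k) (hρ : Function.Injective ρ)
    (β' : A →* (RF K c ≃ₐ[k] RF K c))
    (h1 : ∀ g (a : K), β' g (algebraMap K (RF K c) a) = algebraMap K (RF K c) (α g a))
    (h2' : ∀ g i, β' g (xv K i) = ∑ j, algebraMap K (RF K c)
        (algebraMap k K ((ρ (χ g) : Matrix (Fin c) (Fin c) k) j i)) * xv K j) :
    SemiLin α β' := by
  refine ⟨h1, fun g i => ?_, fun g g' hgg => ?_⟩
  · rw [h2']
    refine Submodule.sum_mem _ fun j _ => ?_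
    rw [← Algebra.smul_def]
    exact Submodule.smul_mem _ _ (Submodule.subset_span ⟨j, rfl⟩)
  · have hα : α g = α g' := by
      ext a
      apply (algebraMap K (RF K c)).injective
      rw [← h1, ← h1, hgg]
    have hχ : χ g = χ g' := by
      apply hρ
      apply Units.ext
      apply Matrix.ext
      intro j i
      have h3 : β' g (xv K i) = β' g' (xv K i) := by rw [hgg]
      rw [h2', h2'] at h3
      exact (algebraMap k K).injective (congrFun (semi_uniq h3) j)
    have h3 : g * g'⁻¹ = 1 := by
      apply hinj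
      · rw [map_mul, map_inv, hα, mul_inv_cancel]
      · rw [map_mul, map_inv, hχ, mul_inv_cancel]
    exact mul_inv_eq_one.1 h3

/-- descent of the coefficients -/
private theorem LX_desc {k : Type u} [Field k] [CharZero k] {K : Type w} [Field K] [Algebra k K]
    {A : Type v} [Group A] [Finite A] {P : Type z} [Group P]
    (α : A →* (K ≃ₐ[k] K)) (hfix : fixF α = ⊥) (χ : A →* P)
    (hsurj : ∀ g x, ∃ h, α h = α g ∧ χ h = x) {c : ℕ}
    (ρ : P →* Matrix.GeneralLinearGroup (Fin c) k)
    (β' : A →* (RF K c ≃ₐ[k] RF K c))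
    (h1 : ∀ g (a : K), β' g (algebraMap K (RF K c) a) = algebraMap K (RF K c) (α g a))
    (h2 : ∀ g i, β' g (xv K i) = ∑ j, algebraMap k (RF K c)
        ((ρ (χ g) : Matrix (Fin c) (Fin c) k) j i) * xv K j)
    (f : RF K c) (hf : ∀ g, χ g = 1 → β' g f = f) :
    f ∈ IntermediateField.adjoin k (Set.range (xv K : Fin c → RF K c)) := by
  have : CharZero K := charZero_of_injective_algebraMap (algebraMap k K).injective
  letI : MulSemiringAction χ.ker (RF K c) :=
    MulSemiringAction.compHom (RF K c) (β'.comp χ.ker.subtype)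
  have hsmul : ∀ (g : χ.ker) (x : RF K c), g • x = β' (g : A) x := fun g x => rfl
  have hcoeff : ∀ (g : χ.ker) (a : K), ∃ b : K,
      g • algebraMap K (RF K c) a = algebraMap K (RF K c) b :=
    fun g a => ⟨α g a, by rw [hsmul, h1]⟩
  have hu : ∀ p (g : χ.ker), g • (xv K p : RF K c) = xv K p := by
    intro p g
    have h3 : χ (g : A) = 1 := g.2
    rw [hsmul, h2, h3, map_one, Finset.sum_eq_single p]
    · rw [Units.val_one, Matrix.one_apply_eq, map_one, one_mul]
    · intro j _ hj
      rw [Units.val_one, Matrix.one_apply_ne hj, map_zero, zero_mul]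
    · intro h
      exact absurd (Finset.mem_univ p) h
  have h4 := descent (L := K) (E := RF K c) (G := χ.ker) hcoeff hu f
    (by rw [adjoin_xv]; exact IntermediateField.mem_top) (fun g => by
      rw [hsmul]
      exact hf g g.2)
  clear hf
  induction h4 using IntermediateField.adjoin_induction with
  | mem x hx => exact IntermediateField.subset_adjoin _ _ hx
  | algebraMap x =>
    have hx : (x : K) ∈ fixF α := by
      rw [mem_fixF]
      intro g
      obtain ⟨h, e1, e2⟩ := hsurj g 1
      have h5 : (⟨h, e2⟩ : χ.ker) • algebraMap K (RF K c) (x : K) = algebraMap K (RF K c) x :=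
        x.2 _
      rw [hsmul, h1, e1] at h5
      exact (algebraMap K (RF K c)).injective h5
    rw [hfix] at hx
    obtain ⟨a, ha⟩ := IntermediateField.mem_bot.1 hx
    have h6 : algebraMap (fixedCoeff K (RF K c) χ.ker) (RF K c) x = algebraMap k (RF K c) a := by
      rw [IsScalarTower.algebraMap_apply k K (RF K c), ha]
      rfl
    exact h6 ▸ IntermediateField.algebraMap_mem _ a
  | add x y _ _ h3 h4 => exact add_mem h3 h4
  | inv x _ h3 => exact inv_mem h3
  | mul x y _ _ h3 h4 => exact mul_mem h3 h4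

theorem exists_lin {k : Type u} [Field k] [CharZero k] {K : Type w} [Field K] [Algebra k K]
    {A : Type v} [Group A] [Finite A] {P : Type z} [Group P] [Finite P]
    (α : A →* (K ≃ₐ[k] K)) (hfix : fixF α = ⊥) (χ : A →* P)
    (hinj : ∀ g, α g = 1 → χ g = 1 → g = 1) (hsurj : ∀ g x, ∃ h, α h = α g ∧ χ h = x) {d : ℕ}
    (β : A →* (RF K d ≃ₐ[k] RF K d)) (hβ : SemiLin α β) :
    ∃ (c : ℕ) (γ : P →* (RF k c ≃ₐ[k] RF k c)), SemiLin (1 : P →* (k ≃ₐ[k] k)) γ ∧
      StablyIso k (fixF β) (fixF γ) := by
  obtain ⟨c, ρ, hρ⟩ := exists_faithful k P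
  obtain ⟨γ, hγ⟩ := exists_repAct' ρ
  obtain ⟨β', h1, h2⟩ := exists_repAct α (ρ.comp χ)
  have h2' : ∀ g i, β' g (xv K i) = ∑ j, algebraMap K (RF K c)
      (algebraMap k K ((ρ (χ g) : Matrix (Fin c) (Fin c) k) j i)) * xv K j := by
    intro g i
    rw [h2]
    refine Finset.sum_congr rfl fun j _ => ?_
    rw [← IsScalarTower.algebraMap_apply k K]
    rfl
  have hβ' : SemiLin α β' := LX_bet α χ hinj ρ hρ β' h1 h2'
  refine ⟨c, γ, LX_gam k ρ hρ γ hγ, ?_⟩
  -- first step
  have hs1 : StablyIso k (fixF β) (fixF β') := by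
    let q : A ⧸ (⊥ : Subgroup A) ≃* A := QuotientGroup.quotientBot
    have e1 : (α.comp q.toMonoidHom).comp (QuotientGroup.mk' (⊥ : Subgroup A)) = α := by
      ext g a
      rfl
    have h3 := red_bot (k := k) (K := K) (⊥ : Subgroup A) rfl (α.comp q.toMonoidHom) d c β
      (by rw [e1]; exact hβ) (β'.comp q.toMonoidHom) (hβ'.comp q.toMonoidHom q.injective)
    rwa [fixF_comp β' q.toMonoidHom q.surjective] at h3
  refine hs1.trans ?_
  -- second step
  have hxk : AlgebraicIndependent k (xv K : Fin c → RF K c) :=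
    (xv_algInd (k := K) (n := c)).restrictScalars (algebraMap k K).injective
  have hinj' : Function.Injective
      (MvPolynomial.aeval (xv K : Fin c → RF K c) : MvPolynomial (Fin c) k →ₐ[k] RF K c) := hxk
  let φ : RF k c →ₐ[k] RF K c := IsFractionRing.liftAlgHom (K := RF k c) hinj'
  have hφ : ∀ i, φ (xv k i) = xv K i := by
    intro i
    show IsFractionRing.liftAlgHom (K := RF k c) hinj' (xv k i) = xv K i
    unfold xv
    rw [IsFractionRing.liftAlgHom_apply, IsFractionRing.lift_algebraMap]
    exact MvPolynomial.aeval_X _ i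
  letI : Algebra (RF k c) (RF K c) := φ.toRingHom.toAlgebra
  have hmapφ : ∀ a : RF k c, algebraMap (RF k c) (RF K c) a = φ a := fun a => rfl
  have : IsScalarTower k (RF k c) (RF K c) :=
    IsScalarTower.of_algebraMap_eq fun a => (φ.commutes a).symm
  have hαβ : ∀ (g : A) (a : RF k c), β' g (algebraMap (RF k c) (RF K c) a) =
      algebraMap (RF k c) (RF K c) ((γ.comp χ) g a) := by
    intro g
    have h3 : ((β' g : RF K c ≃ₐ[k] RF K c) : RF K c →ₐ[k] RF K c).comp φ =
        φ.comp ((γ (χ g) : RF k c ≃ₐ[k] RF k c) : RF k c →ₐ[k] RF k c) := by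
      apply hom_ext
      intro i
      show β' g (φ (xv k i)) = φ (γ (χ g) (xv k i))
      rw [hφ, h2, hγ, map_sum]
      refine Finset.sum_congr rfl fun j _ => ?_
      rw [map_mul, hφ, AlgHom.commutes]
      rfl
    intro a
    exact DFunLike.congr_fun h3 a
  have hχ : Function.Surjective χ := fun x => by
    obtain ⟨h, -, e⟩ := hsurj 1 x
    exact ⟨h, e⟩
  have hs2 : StablyIso k (fixF (γ.comp χ)) (fixF β') := by
    refine stably_of_fixed (L := RF k c) (E := RF K c) (γ.comp χ) β' hαβ
      (κ := Fin 0) (fun p => p.elim0) (fun p => p.elim0) ?_ ?_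
    · rw [algebraicIndependent_empty_type_iff]
      exact (algebraMap (fixF (γ.comp χ)) (RF K c)).injective
    · intro f hf
      have h3 := LX_desc α hfix χ hsurj ρ β' h1 h2 f fun g _ => hf g
      have h4 : IntermediateField.adjoin k (Set.range (xv K : Fin c → RF K c)) ≤
          φ.fieldRange := by
        rw [IntermediateField.adjoin_le_iff]
        rintro _ ⟨i, rfl⟩
        exact ⟨xv k i, hφ i⟩
      obtain ⟨y, hy⟩ := h4 h3
      have hy' : algebraMap (RF k c) (RF K c) y = f := hy
      have h5 : y ∈ fixF (γ.comp χ) := by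
        rw [mem_fixF]
        intro g
        apply (algebraMap (RF k c) (RF K c)).injective
        rw [← hαβ, hy', hf]
      rw [← hy']
      exact IntermediateField.algebraMap_mem
        (IntermediateField.adjoin (fixF (γ.comp χ)) (Set.range fun p : Fin 0 => p.elim0))
        (⟨y, h5⟩ : fixF (γ.comp χ))
  rw [LX_fix γ χ hχ] at hs2
  exact hs2.symm

end NF83
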