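import Pool.Agent.H.MP_83e36b_nt.dc.LocR

/-! The trace form of an algebra of degree at most seven over a field isomorphic to `ℝ` whose Galois
representation lifts to `2.A_n`. -/

set_option autoImplicit false

open Matrix SpinWA DC83

namespace NF83

private theorem LocR_card {n : ℕ} (hn : n ≤ 7) {σ : Equiv.Perm (Fin n)} (hσ : σ * σ = 1)
    (h4 : 4 ∣ (Finset.univ.filter fun i : Fin n => σ i < i).card) :
    (Finset.univ.filter fun i : Fin n => σ i < i).card = 0 := by
  classical
  set S := Finset.univ.filter fun i : Fin n => σ i < i with hS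
  have hσσ : ∀ i, σ (σ i) = i := fun i => by
    have := Equiv.congr_fun hσ i
    simpa using this
  have hd : Disjoint S (S.map σ.toEmbedding) := by
    rw [Finset.disjoint_left]
    intro a ha hb
    rw [Finset.mem_map] at hb
    obtain ⟨b, hb, rfl⟩ := hb
    have h1 := (Finset.mem_filter.1 ha).2
    have h2 := (Finset.mem_filter.1 hb).2
    have h3 : σ (σ b) < σ b := h1
    rw [hσσ] at h3
    exact lt_asymm h2 h3
  have h1 : (S ∪ S.map σ.toEmbedding).card = 2 * S.card := by
    rw [Finset.card_union_of_disjoint hd, Finset.card_map]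
    ring
  have h2 : (S ∪ S.map σ.toEmbedding).card ≤ n := by
    refine (Finset.card_le_univ _).trans ?_
    rw [Fintype.card_fin]
  omega

theorem loc_real {K : Type} [Field K] (φ : K ≃+* ℝ) {Ω : Type} [Field Ω] [CharZero Ω]
    [Algebra K Ω] [IsAlgClosed Ω] [Algebra.IsAlgebraic K Ω] {n : ℕ} (hn : n ≤ 7)
    (ρ : (Ω ≃ₐ[K] Ω) →* dAlt n) {V : Matrix (Fin n) (Fin n) Ω} (hV : V.det ≠ 0)
    (hτ : ∀ τ : Ω ≃ₐ[K] Ω, V.map τ = pM Ω (pi n (ρ τ)) * V) {H : Matrix (Fin n) (Fin n) K}
    (hH : H.map (algebraMap K Ω) = Vᵀ * V) : Cong 1 H := by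
  classical
  letI : Algebra ℝ Ω := ((algebraMap K Ω).comp (φ.symm : ℝ →+* K)).toAlgebra
  have hmap : ∀ a : K, algebraMap ℝ Ω (φ a) = algebraMap K Ω a := fun a => by
    show algebraMap K Ω (φ.symm (φ a)) = _
    rw [φ.symm_apply_apply]
  have halg : Algebra.IsAlgebraic ℝ Ω := by
    refine ⟨fun z => ?_⟩
    obtain ⟨p, hp, hpz⟩ := Algebra.IsAlgebraic.isAlgebraic (R := K) z
    refine ⟨p.map (φ : K →+* ℝ), ?_, ?_⟩
    · rw [Ne, Polynomial.map_eq_zero_iff (φ : K →+* ℝ).injective]
      exact hp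
    · rw [Polynomial.aeval_def, Polynomial.eval₂_map]
      have h1 : (algebraMap ℝ Ω).comp (φ : K →+* ℝ) = algebraMap K Ω := RingHom.ext hmap
      rw [h1]
      exact hpz
  have hac : IsAlgClosure ℝ Ω := ⟨inferInstance, inferInstance⟩
  have hac' : IsAlgClosure ℝ ℂ := ⟨inferInstance, inferInstance⟩
  obtain ⟨e⟩ : Nonempty (Ω ≃ₐ[ℝ] ℂ) := ⟨IsAlgClosure.equiv ℝ Ω ℂ⟩
  obtain ⟨c, hca⟩ : ∃ c : Ω ≃ₐ[K] Ω, ∀ z, e (c z) = (starRingEnd ℂ) (e z) := by
    obtain ⟨c, hcdef⟩ : ∃ c : Ω ≃ₐ[ℝ] Ω, c = (e.trans Complex.conjAe).trans e.symm := ⟨_, rfl⟩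
    refine ⟨AlgEquiv.ofRingEquiv (f := c.toRingEquiv) fun a => ?_, fun z => ?_⟩
    · rw [← hmap]
      exact c.commutes _
    · show e (c z) = _
      rw [hcdef]
      show e (e.symm (Complex.conjAe (e z))) = _
      rw [e.apply_symm_apply]
      rfl
  have hcc : c * c = 1 := by
    ext z
    apply e.injective
    show e (c (c z)) = e z
    rw [hca, hca, Complex.conj_conj]
  have hx : ρ c * ρ c = 1 := by rw [← map_mul, hcc, map_one]
  have hσ : pi n (ρ c) * pi n (ρ c) = 1 := by rw [← map_mul, hx, map_one]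
  have hs := LocR_card hn hσ (four_dvd hx)
  have h1 := real_form hσ (V := V.map e) (H := H.map φ) ?_ (fun i j => ?_) ?_
  · rw [hs, zero_nsmul, zero_add, Nat.sub_zero] at h1
    have hd : (H.map φ).det ≠ 0 := by
      intro h
      have h2 : φ H.det = 0 := by
        have h3 := RingHom.map_det (φ : K →+* ℝ) H
        exact h3.trans h
      have h3 : H.det = 0 := (map_eq_zero φ).1 h2
      have h4 := congrArg Matrix.det hH
      have h5 : (H.map (algebraMap K Ω)).det = algebraMap K Ω H.det := by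
        rw [← RingHom.mapMatrix_apply, ← RingHom.map_det]
      rw [h5, h3, map_zero, Matrix.det_mul, Matrix.det_transpose] at h4
      exact mul_ne_zero hV hV h4.symm
    have hHt : Hᵀ = H := by
      apply Matrix.map_injective (algebraMap K Ω).injective
      show Hᵀ.map (algebraMap K Ω) = H.map (algebraMap K Ω)
      rw [Matrix.transpose_map, hH, Matrix.transpose_mul, Matrix.transpose_transpose]
    have hHt' : (H.map φ)ᵀ = H.map φ := by
      rw [← Matrix.transpose_map, hHt]
    have hone : cls (1 : Matrix (Fin n) (Fin n) ℝ) = n • cl (1 : ℝ) := by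
      have h1 : (1 : Matrix (Fin n) (Fin n) ℝ) = diagonal fun _ => (1 : ℝ) := diagonal_one.symm
      rw [cls_eq_sum two_ne_zero (d := fun _ => (1 : ℝ)) (fun _ => one_ne_zero)
        (by rw [h1]; exact Cong.refl _)]
      simp
    obtain ⟨P, hP, hP'⟩ := cong_of_cls (K := ℝ) two_ne_zero transpose_one
      (by rw [det_one]; exact one_ne_zero) hHt' hd (hone.trans h1.symm)
    refine ⟨P.map φ.symm, ?_, ?_⟩
    · intro h
      have h3 := RingHom.map_det (φ.symm : ℝ →+* K) P
      have h4 : φ.symm P.det = 0 := h3.trans h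
      exact hP ((map_eq_zero φ.symm).1 h4)
    · have h3 := congrArg (fun M : Matrix (Fin n) (Fin n) ℝ => M.map (φ.symm : ℝ →+* K)) hP'
      simp only [Matrix.mul_one] at h3 ⊢
      rw [Matrix.map_mul, Matrix.transpose_map] at h3
      refine Eq.trans h3 ?_
      ext i j
      exact φ.symm_apply_apply _
  · have h1 : (V.map e).det = e V.det := by
      have := RingHom.map_det (e : Ω →+* ℂ) V
      exact this.symm
    rw [h1]
    exact (map_ne_zero e).2 hV
  · rw [Matrix.map_apply, ← hca, Matrix.map_apply]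
    have h1 := congrFun (congrFun (hτ c) i) j
    rw [Matrix.map_apply, pM_mul_apply] at h1
    rw [h1]
  · ext a b
    have h1 := congrArg e (congrFun (congrFun hH a) b)
    rw [Matrix.map_apply, Matrix.mul_apply, map_sum, ← hmap, AlgEquiv.commutes] at h1
    rw [Matrix.map_apply, Matrix.map_apply, Matrix.mul_apply, h1]
    refine Finset.sum_congr rfl fun i _ => ?_
    rw [Matrix.transpose_apply, Matrix.transpose_apply, Matrix.map_apply, Matrix.map_apply,
      map_mul]

end NF83
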