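import Pool.Agent.H.MP_83e36b_nt.nf.GDef
import Pool.Agent.H.MP_83e36b_nt.dc.Gal

/-! The Grunwald problem for products. -/

set_option autoImplicit false

open DC83

namespace NF83

theorem cts_pi {K : Type} [Field K] {Ω : Type} [Field Ω] [Algebra K Ω] {r : ℕ} {P : Fin r → Type}
    [∀ i, Group (P i)] (ρ : ∀ i, (Ω ≃ₐ[K] Ω) →* P i) (h : ∀ i, Cts (ρ i)) :
    Cts (MonoidHom.pi ρ : (Ω ≃ₐ[K] Ω) →* ∀ i, P i) := by
  choose L hL hfix using h
  refine ⟨⨆ i, L i, IntermediateField.finiteDimensional_iSup_of_finite, fun τ hτ => ?_⟩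
  funext i
  exact hfix i τ fun x hx => hτ x ((le_iSup L i) hx)

theorem grun_pi {kk : Type} [Field kk] [PlSys kk] {r : ℕ} {P : Fin r → Type} [∀ i, Group (P i)]
    (h : ∀ i, Grunwald kk (P i)) : Grunwald kk (∀ i, P i) := by
  intro S ι hι ρ hρ
  have h1 := fun i => h i S ι hι (fun v => (Pi.evalMonoidHom P i).comp (ρ v))
    fun v => (hρ v).comp (Pi.evalMonoidHom P i)
  choose ρ₀ hc hg using h1
  refine ⟨MonoidHom.pi ρ₀, cts_pi ρ₀ hc, fun v hv => ?_⟩
  choose g hg' using fun i => hg i v hv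
  refine ⟨g, fun τ τ₀ hτ => ?_⟩
  funext i
  exact hg' i τ τ₀ hτ

end NF83
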