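import Pool.Agent.H.MP_83e36b_nt.nf.NDef
import Pool.Agent.H.MP_83e36b_nt.nf.LX
import Pool.Agent.H.MP_83e36b_nt.nf.PiG
import Pool.Agent.H.MP_83e36b_nt.nf.Fin
import Pool.Agent.H.MP_83e36b_nt.nf.CBn

/-! Weak approximation over number fields: `2.A_6`, `2.A_7`, alternating groups, Weyl groups. -/

set_option autoImplicit false

open Polynomial NumberField IsDedekindDomain DC83

namespace NF83

open CM83 NR83 WA83 AnWA

universe u v w x

/-- a homomorphism to `twoAlt n n` is a homomorphism to `dAlt n` -/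
private theorem Main_hom {n : ℕ} {G : Type v} [Group G] (φ : G →* CMat n)
    (h : ∀ g, φ g ∈ twoAlt n n) : ∃ ψ : G →* dAlt n, (∀ g, ψ g = 1 ↔ φ g = 1) ∧
      (∀ y : dAlt n, ∃ x ∈ twoAlt n n, ∀ g, φ g = x → ψ g = y) := by
  have hu : ∀ g, (φ.toHomUnits g : (Matrix (Ix n) (Ix n) ℚ)ˣ) ∈ dAlt n := by
    intro g
    obtain ⟨u, hu, hx⟩ := twoAlt_bwd _ (h g)
    have h1 : (φ.toHomUnits g : (Matrix (Ix n) (Ix n) ℚ)ˣ) = u := Units.ext hx.symm
    rw [h1]
    exact hu
  let ψ : G →* dAlt n :=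
    { toFun := fun g => ⟨(φ.toHomUnits g : (Matrix (Ix n) (Ix n) ℚ)ˣ), hu g⟩
      map_one' := by
        apply Subtype.ext
        apply Units.ext
        exact map_one φ
      map_mul' := fun a b => by
        apply Subtype.ext
        apply Units.ext
        exact map_mul φ a b }
  have hψ : ∀ g, (((ψ g).1 : (Matrix (Ix n) (Ix n) ℚ)ˣ).1 : CMat n) = φ g := fun g => rfl
  refine ⟨ψ, fun g => ⟨fun h1 => ?_, fun h1 => ?_⟩, fun y => ?_⟩
  · rw [← hψ, h1]
    rfl
  · apply Subtype.ext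
    apply Units.ext
    exact (hψ g).trans h1
  · refine ⟨(show CMat n from y.1.1), twoAlt_fwd y, fun g hg => ?_⟩
    apply Subtype.ext
    apply Units.ext
    exact (hψ g).trans hg

/-- Main theorem. -/
theorem main {k : Type} [Field k] [NumberField k] {K : Type w} [Field K] [Algebra k K]
    {G : Type v} [Group G] [Finite G] (N : Subgroup G) [N.Normal] (hN : AltSeries N ∨ Tower G N)
    (α : G ⧸ N →* (K ≃ₐ[k] K)) (hfix : fixF α = ⊥) {r : ℕ} (n : Fin r → ℕ)
    (χ : ∀ i, G ⧸ N →* CMat (n i)) (hχ : GalDbl α n χ) {d : ℕ} (β : G →* (RF K d ≃ₐ[k] RF K d))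
    (hβ : SemiLin (α.comp (QuotientGroup.mk' N)) β)
    {m : ℕ} {f g : (MvPolynomial (Fin m) k)[X]} {F : Type x} [Field F] [Algebra k F]
    {ξ : Fin m → F} {η : F} (h : Generic f F ξ η) (hg : evP (algebraMap k F) ξ η g ≠ 0)
    (hF : StablyIso k F (fixF β)) :
    DenseRange (fun p : Pts f g (RingHom.id k) =>
      ((fun v : InfinitePlace k => mapPts (algebraMap k v.Completion) p),
       (fun v : HeightOneSpectrum (𝓞 k) => mapPts (algebraMap k (v.adicCompletion k)) p))) := by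
  have hT : Tower G N := hN.elim (Tower.of_alt N) id
  obtain ⟨e, γ, hγ⟩ := exists_semi α
  have h1 : StablyIso k (fixF β) (fixF γ) := red_tower hT α d e β hβ γ hγ
  choose ψ hψ1 hψ2 using fun i => Main_hom (χ i) (hχ.mem i)
  have hfin : ∀ i, Finite (dAlt (n i)) := fun i => finite_dAlt (n i)
  obtain ⟨c, δ, hδ, h2⟩ := exists_lin α hfix (MonoidHom.pi ψ : G ⧸ N →* ∀ i, dAlt (n i))
    (fun g hg hg' => hχ.inj g hg fun i => (hψ1 i g).1 (congrFun hg' i))
    (fun g y => by
      choose x hx hxy using fun i => hψ2 i (y i)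
      obtain ⟨t, ht, ht'⟩ := hχ.surj g x hx
      exact ⟨t, ht, funext fun i => hxy i t (ht' i)⟩) γ hγ
  exact dense_all (fun T => @grun_pi k _ (plSys k T) r (fun i => dAlt (n i)) _
    fun i => grun_nf T (hχ.deg i)) δ hδ h hg (hF.trans (h1.trans h2))

end NF83
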