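import Pool.Agent.H.MP_83e36b_nt.tw.CDef

/-! Products of a Galois group with groups `2.A_6`, `2.A_7`. -/

set_option autoImplicit false

namespace NF83

open DC83

universe u v w

/-- The homomorphisms `α : A → Gal(K/k)` and `χ i : A → 2.A_{n i}`, `n i = 6` or `n i = 7`, identify
the group `A` with the product of the image of `α` and of the groups `2.A_{n i}`. -/
structure GalDbl {k : Type u} [Field k] {K : Type w} [Field K] [Algebra k K] {A : Type v} [Group A]
    (α : A →* (K ≃ₐ[k] K)) {r : ℕ} (n : Fin r → ℕ) (χ : ∀ i, A →* CMat (n i)) : Prop where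
  deg : ∀ i, n i = 6 ∨ n i = 7
  mem : ∀ i g, χ i g ∈ twoAlt (n i) (n i)
  inj : ∀ g, α g = 1 → (∀ i, χ i g = 1) → g = 1
  surj : ∀ (g : A) (x : ∀ i, CMat (n i)), (∀ i, x i ∈ twoAlt (n i) (n i)) →
    ∃ h, α h = α g ∧ ∀ i, χ i h = x i

end NF83
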