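import Pool.Agent.H.MP_83e36b_nt.sp.WApi
import Pool.Agent.H.MP_83e36b_nt.sp.PDefs

/-! The core of the second duality in degree two: algebra. -/

set_option autoImplicit false

open Matrix SpinWA

namespace NF83

section
variable {K : Type*} [Field K]

/-- the bilinear form of `<2, 1, 1, 1>` -/
def Bq (x y : Fin 4 → K) : K := 2 * x 0 * y 0 + x 1 * y 1 + x 2 * y 2 + x 3 * y 3

theorem Qa_p0 (a : Fin (1 + 1) → K) : psum a 0 = 2 := by
  simp [psum, Matrix.trace]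

theorem Qa_p1 (a : Fin (1 + 1) → K) : psum a 1 = - a 1 := by
  simp [psum, Matrix.trace, Fin.sum_univ_two, SpinWA.cmp]

theorem Qa_p2 (a : Fin (1 + 1) → K) : psum a 2 = a 1 ^ 2 - 2 * a 0 := by
  simp [psum, Matrix.trace, Fin.sum_univ_two, SpinWA.cmp, pow_succ, Matrix.mul_apply]
  ring

theorem Qa_p3 (a : Fin (1 + 1) → K) : psum a 3 = - a 1 ^ 3 + 3 * a 1 * a 0 := by
  simp [psum, Matrix.trace, Fin.sum_univ_two, SpinWA.cmp, pow_succ, Matrix.mul_apply]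
  ring

theorem Qa_hk (a : Fin (1 + 1) → K) : (hk a).det = a 1 ^ 2 - 4 * a 0 := by
  have h := Matrix.det_fin_two (hk a)
  rw [show (hk a).det = hk a 0 0 * hk a 1 1 - hk a 0 1 * hk a 1 0 from h]
  have e00 : hk a 0 0 = psum a 0 := rfl
  have e01 : hk a 0 1 = psum a 1 := rfl
  have e10 : hk a 1 0 = psum a 1 := rfl
  have e11 : hk a 1 1 = psum a 2 := rfl
  rw [e00, e01, e10, e11, Qa_p0, Qa_p1, Qa_p2]
  ring

theorem Qa_cls (h2 : (2 : K) ≠ 0) (a : Fin (1 + 1) → K) (hd : a 1 ^ 2 - 4 * a 0 ≠ 0) :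
    cls ((2 : K) • hk a) = cl 1 + cl (a 1 ^ 2 - 4 * a 0) := by
  have h1 := cls_eq_sum h2 (A := (2 : K) • hk a) (d := (![1, a 1 ^ 2 - 4 * a 0] : Fin 2 → K))
    (by intro i; fin_cases i <;> simp [hd]) ?_
  · rw [h1, Fin.sum_univ_two]
    rfl
  · refine ⟨!![1 / 2, a 1 / 2; 0, 1], ?_, ?_⟩
    · rw [Matrix.det_fin_two]
      simp [h2]
    · have e00 : hk a 0 0 = psum a 0 := rfl
      have e01 : hk a 0 1 = psum a 1 := rfl
      have e10 : hk a 1 0 = psum a 1 := rfl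
      have e11 : hk a 1 1 = psum a 2 := rfl
      ext i j
      fin_cases i <;> fin_cases j <;>
        simp [Matrix.mul_apply, Fin.sum_univ_two, e00, e01, e10, e11, Qa_p0, Qa_p1, Qa_p2]
      all_goals try field_simp
      all_goals try ring
      all_goals tauto

theorem Qa_cls1 (h2 : (2 : K) ≠ 0) (a : Fin (1 + 1) → K) (h0 : a 0 ≠ 0) (h1 : a 1 ≠ 0)
    (hd : a 1 ^ 2 - 4 * a 0 ≠ 0) :
    cls ((-2 : K) • hk1 a) = cl (2 * a 1) + cl (2 * a 1 * a 0 * (a 1 ^ 2 - 4 * a 0)) := by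
  have h3 : 2 * a 1 * a 0 * (a 1 ^ 2 - 4 * a 0) ≠ 0 :=
    mul_ne_zero (mul_ne_zero (mul_ne_zero h2 h1) h0) hd
  have h4 := cls_eq_sum h2 (A := (-2 : K) • hk1 a)
    (d := (![2 * a 1, 2 * a 1 * a 0 * (a 1 ^ 2 - 4 * a 0)] : Fin 2 → K))
    (by
      intro i
      fin_cases i
      · exact mul_ne_zero h2 h1
      · exact h3) ?_
  · rw [h4, Fin.sum_univ_two]
    rfl
  · refine ⟨!![1, a 1 ^ 2 - 2 * a 0; 0, a 1], ?_, ?_⟩
    · rw [Matrix.det_fin_two]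
      simp [h1]
    · have e00 : hk1 a 0 0 = psum a 1 := rfl
      have e01 : hk1 a 0 1 = psum a 2 := rfl
      have e10 : hk1 a 1 0 = psum a 2 := rfl
      have e11 : hk1 a 1 1 = psum a 3 := rfl
      ext i j
      fin_cases i <;> fin_cases j <;>
        simp [Matrix.mul_apply, Fin.sum_univ_two, e00, e01, e10, e11, Qa_p1, Qa_p2, Qa_p3]
      all_goals try ring
      all_goals tauto

/-- the Witt class of the core in degree two -/
theorem Qa_core (h2 : (2 : K) ≠ 0) (a : Fin (1 + 1) → K) (h0 : a 0 ≠ 0) (h1 : a 1 ≠ 0)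
    (hd : a 1 ^ 2 - 4 * a 0 ≠ 0) :
    coreF (1 : K) 1 a = cl 2 + cl (2 * a 0) + (cl 1 + cl (a 1 ^ 2 - 4 * a 0)) +
      (cl (2 * a 1) + cl (2 * a 1 * a 0 * (a 1 ^ 2 - 4 * a 0))) := by
  unfold coreF
  have e : cf a 0 = a 0 := rfl
  rw [e, mul_one, mul_one, Qa_cls h2 a hd, Qa_cls1 h2 a h0 h1 hd]

end

end NF83
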