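import Pool.Agent.H.MP_83e36b_nt.nf.Qa

/-! The core of the second duality in degree two: the parametrisation. -/

set_option autoImplicit false

open Matrix SpinWA

namespace NF83

section
variable {K : Type*} [Field K]

/-- the fourth vector -/
def Q4 (u v s : Fin 4 → K) : Fin 4 → K :=
  ![(u 1 * (v 2 * s 3 - v 3 * s 2) - u 2 * (v 1 * s 3 - v 3 * s 1) +
      u 3 * (v 1 * s 2 - v 2 * s 1)) / 2,
    -(u 0 * (v 2 * s 3 - v 3 * s 2) - u 2 * (v 0 * s 3 - v 3 * s 0) +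
      u 3 * (v 0 * s 2 - v 2 * s 0)),
    u 0 * (v 1 * s 3 - v 3 * s 1) - u 1 * (v 0 * s 3 - v 3 * s 0) +
      u 3 * (v 0 * s 1 - v 1 * s 0),
    -(u 0 * (v 1 * s 2 - v 2 * s 1) - u 1 * (v 0 * s 2 - v 2 * s 0) +
      u 2 * (v 0 * s 1 - v 1 * s 0))]

theorem Q4_u (h2 : (2 : K) ≠ 0) (u v s : Fin 4 → K) : Bq u (Q4 u v s) = 0 := by
  simp only [Bq, Q4, Matrix.cons_val_zero, Matrix.cons_val_one, Matrix.cons_val]
  field_simp
  ring

theorem Q4_v (h2 : (2 : K) ≠ 0) (u v s : Fin 4 → K) : Bq v (Q4 u v s) = 0 := by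
  simp only [Bq, Q4, Matrix.cons_val_zero, Matrix.cons_val_one, Matrix.cons_val]
  field_simp
  ring

theorem Q4_s (h2 : (2 : K) ≠ 0) (u v s : Fin 4 → K) : Bq s (Q4 u v s) = 0 := by
  simp only [Bq, Q4, Matrix.cons_val_zero, Matrix.cons_val_one, Matrix.cons_val]
  field_simp
  ring

theorem Q4_gram (h2 : (2 : K) ≠ 0) (u v s : Fin 4 → K) :
    Bq u u * Bq v v * Bq s s + 2 * Bq u v * Bq v s * Bq u s - Bq u u * Bq v s ^ 2 -
      Bq v v * Bq u s ^ 2 - Bq s s * Bq u v ^ 2 = 2 * Bq (Q4 u v s) (Q4 u v s) := by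
  simp only [Bq, Q4, Matrix.cons_val_zero, Matrix.cons_val_one, Matrix.cons_val]
  field_simp
  ring

theorem Bq_comm (x y : Fin 4 → K) : Bq x y = Bq y x := by
  simp only [Bq]
  ring

/-- the form `<2, 1, 1, 1>` -/
def d4 (K : Type*) [Field K] : Fin 4 → K := ![2, 1, 1, 1]

theorem Qb_entry (P : Matrix (Fin 4) (Fin 4) K) (i j : Fin 4) :
    (Pᵀ * diagonal (d4 K) * P) i j = Bq (fun l => P l i) (fun l => P l j) := by
  rw [Matrix.mul_apply]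
  simp only [Matrix.mul_diagonal, Matrix.transpose_apply]
  simp [d4, Bq, Fin.sum_univ_four]
  left
  ring

theorem Qb_two : cl (2 : K) + cl 2 = cl (1 : K) + cl 1 ∨ (2 : K) = 0 := by
  by_cases h2 : (2 : K) = 0
  · exact Or.inr h2
  · left
    have h := cl_add (K := K) one_ne_zero one_ne_zero (by norm_num; exact h2)
    rw [h]
    norm_num

theorem Qb_four (h2 : (2 : K) ≠ 0) {u v s : Fin 4 → K} (huv : Bq u v = 0) (hus : Bq u s = 0)
    (hvs : Bq v s = 0) (hu : Bq u u ≠ 0) (hv : Bq v v ≠ 0) (hs : Bq s s ≠ 0) :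
    cl 2 + cl (1 : K) + cl 1 + cl 1 =
      cl (Bq u u) + cl (Bq v v) + cl (Bq s s) + cl (Bq u u * Bq v v * Bq s s / 2) := by
  obtain ⟨t, ht⟩ : ∃ t, t = Q4 u v s := ⟨_, rfl⟩
  have hut : Bq u t = 0 := by rw [ht]; exact Q4_u h2 u v s
  have hvt : Bq v t = 0 := by rw [ht]; exact Q4_v h2 u v s
  have hst : Bq s t = 0 := by rw [ht]; exact Q4_s h2 u v s
  have htt : Bq t t = Bq u u * Bq v v * Bq s s / 2 := by
    have h := Q4_gram h2 u v s
    rw [huv, hus, hvs, ← ht] at h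
    field_simp
    linear_combination -h
  have ht0 : Bq t t ≠ 0 := by
    rw [htt]
    exact div_ne_zero (mul_ne_zero (mul_ne_zero hu hv) hs) h2
  rw [← htt]
  have hd4 : ∀ i, d4 K i ≠ 0 := by
    intro i
    fin_cases i <;> simp [d4, h2]
  have e1 := cls_diagonal h2 hd4
  have hdd : ∀ i, (![Bq u u, Bq v v, Bq s s, Bq t t] : Fin 4 → K) i ≠ 0 := by
    intro i
    fin_cases i
    · exact hu
    · exact hv
    · exact hs
    · exact ht0
  obtain ⟨P, hP⟩ : ∃ P : Matrix (Fin 4) (Fin 4) K, P = (Matrix.of ![u, v, s, t])ᵀ := ⟨_, rfl⟩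
  have hc : Pᵀ * diagonal (d4 K) * P = diagonal ![Bq u u, Bq v v, Bq s s, Bq t t] := by
    ext i j
    rw [Qb_entry, hP]
    have e : ∀ i, (fun l => ((Matrix.of ![u, v, s, t])ᵀ : Matrix (Fin 4) (Fin 4) K) l i) =
        (![u, v, s, t] : Fin 4 → Fin 4 → K) i := fun i => rfl
    rw [e, e]
    fin_cases i <;> fin_cases j <;>
      simp [huv, hus, hvs, hut, hvt, hst, Bq_comm v u, Bq_comm s u, Bq_comm s v, Bq_comm t u,
        Bq_comm t v, Bq_comm t s]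
  have hPd : P.det ≠ 0 := by
    intro h
    have h1 := congrArg Matrix.det hc
    rw [det_mul, h, mul_zero, det_diagonal] at h1
    exact Finset.prod_ne_zero_iff.2 (fun i _ => hdd i) h1.symm
  have e2 := cls_eq_sum h2 hdd (A := diagonal (d4 K)) ⟨P, hPd, hc⟩
  rw [e1] at e2
  rw [Fin.sum_univ_four, Fin.sum_univ_four] at e2
  exact e2

/-- the parametrisation -/
theorem Qb_fwd (h2 : (2 : K) ≠ 0) {u v s : Fin 4 → K} (huv : Bq u v = 0) (hus : Bq u s = 0)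
    (hvs : Bq v s = 0) (h1 : Bq v v + 2 * Bq u u = 1) (hu : Bq u u ≠ 0) (hv : Bq v v ≠ 0)
    (hs : Bq s s ≠ 0) (a : Fin (1 + 1) → K) (ha1 : a 1 = Bq s s / 2)
    (ha0 : a 0 = (Bq s s / 2) ^ 2 * Bq u u / 2) :
    (hk a).det ≠ 0 ∧ a 0 ≠ 0 ∧ coreF (1 : K) 1 a = 6 • cl 1 := by
  have hr : Bq s s / 2 ≠ 0 := div_ne_zero hs h2
  have h4 : (4 : K) ≠ 0 := by
    have : (4 : K) = 2 * 2 := by norm_num
    rw [this]
    exact mul_ne_zero h2 h2
  have hΔ : a 1 ^ 2 - 4 * a 0 = Bq v v * (Bq s s / 2) ^ 2 := by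
    rw [ha1, ha0]
    have e : Bq v v = 1 - 2 * Bq u u := by rw [← h1]; ring
    rw [e]
    field_simp
    ring
  have hd : a 1 ^ 2 - 4 * a 0 ≠ 0 := by
    rw [hΔ]
    exact mul_ne_zero hv (pow_ne_zero _ hr)
  have hb : a 0 ≠ 0 := by
    rw [ha0]
    exact div_ne_zero (mul_ne_zero (pow_ne_zero _ hr) hu) h2
  have hρ : a 1 ≠ 0 := by rw [ha1]; exact hr
  refine ⟨by rw [Qa_hk]; exact hd, hb, ?_⟩
  rw [Qa_core h2 a hb hρ hd]
  have c1 : cl (2 * a 0) = cl (Bq u u) := by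
    rw [← cl_mul_sq (Bq u u) hr]
    congr 1
    rw [ha0]
    field_simp
  have c2 : cl (a 1 ^ 2 - 4 * a 0) = cl (Bq v v) := by
    rw [hΔ, cl_mul_sq _ hr]
  have c3 : cl (2 * a 1) = cl (Bq s s) := by
    congr 1
    rw [ha1]
    field_simp
  have c4 : cl (2 * a 1 * a 0 * (a 1 ^ 2 - 4 * a 0)) = cl (Bq u u * Bq v v * Bq s s / 2) := by
    rw [← cl_mul_sq (Bq u u * Bq v v * Bq s s / 2) (pow_ne_zero 2 hr), hΔ]
    congr 1
    rw [ha0, ha1]
    field_simp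
  rw [c1, c2, c3, c4]
  have h4' := Qb_four h2 huv hus hvs hu hv hs
  have h5 := (Qb_two (K := K)).resolve_right h2
  have e : cl 2 + cl (Bq u u) + (cl 1 + cl (Bq v v)) +
      (cl (Bq s s) + cl (Bq u u * Bq v v * Bq s s / 2)) =
      cl 2 + cl 1 + (cl (Bq u u) + cl (Bq v v) + cl (Bq s s) +
        cl (Bq u u * Bq v v * Bq s s / 2)) := by abel
  rw [e, ← h4']
  have e2 : cl 2 + cl (1 : K) + (cl 2 + cl 1 + cl 1 + cl 1) = (cl 2 + cl 2) + 4 • cl 1 := by abel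
  rw [e2, h5]
  abel

/-- the converse -/
theorem Qb_bwd (h2 : (2 : K) ≠ 0) (a : Fin (1 + 1) → K) (h0 : a 0 ≠ 0) (h1 : a 1 ≠ 0)
    (hd : a 1 ^ 2 - 4 * a 0 ≠ 0) (hc : coreF (1 : K) 1 a = 6 • cl 1) :
    ∃ u v s : Fin 4 → K, Bq u v = 0 ∧ Bq u s = 0 ∧ Bq v s = 0 ∧ Bq v v + 2 * Bq u u = 1 ∧
      Bq u u ≠ 0 ∧ Bq v v ≠ 0 ∧ Bq s s ≠ 0 ∧ a 1 = Bq s s / 2 ∧
      a 0 = (Bq s s / 2) ^ 2 * Bq u u / 2 := by
  have h4 : (4 : K) ≠ 0 := by
    have : (4 : K) = 2 * 2 := by norm_num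
    rw [this]
    exact mul_ne_zero h2 h2
  have hX : 2 * a 1 * a 0 * (a 1 ^ 2 - 4 * a 0) ≠ 0 :=
    mul_ne_zero (mul_ne_zero (mul_ne_zero h2 h1) h0) hd
  rw [Qa_core h2 a h0 h1 hd] at hc
  have h5 := (Qb_two (K := K)).resolve_right h2
  have hd4 : ∀ i, d4 K i ≠ 0 := by
    intro i
    fin_cases i <;> simp [d4, h2]
  obtain ⟨D, hD⟩ : ∃ D : Fin 4 → K, D = ![2 * a 0, a 1 ^ 2 - 4 * a 0, 2 * a 1,
    2 * a 1 * a 0 * (a 1 ^ 2 - 4 * a 0)] := ⟨_, rfl⟩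
  have hDD : ∀ i, D i ≠ 0 := by
    intro i
    rw [hD]
    fin_cases i
    · exact mul_ne_zero h2 h0
    · exact hd
    · exact mul_ne_zero h2 h1
    · exact hX
  have e1 := cls_diagonal h2 hd4
  have e2 := cls_diagonal h2 hDD
  have e3 : cls (diagonal (d4 K)) = cls (diagonal D) := by
    rw [e1, e2, Fin.sum_univ_four, Fin.sum_univ_four, hD]
    show cl 2 + cl 1 + cl 1 + cl 1 = cl (2 * a 0) + cl (a 1 ^ 2 - 4 * a 0) + cl (2 * a 1) +
      cl (2 * a 1 * a 0 * (a 1 ^ 2 - 4 * a 0))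
    have e : (cl 2 + cl (1 : K)) + (cl 2 + cl 1 + cl 1 + cl 1) =
        (cl 2 + cl 1) + (cl (2 * a 0) + cl (a 1 ^ 2 - 4 * a 0) + cl (2 * a 1) +
          cl (2 * a 1 * a 0 * (a 1 ^ 2 - 4 * a 0))) := by
      have f1 : (cl 2 + cl (1 : K)) + (cl 2 + cl 1 + cl 1 + cl 1) = (cl 2 + cl 2) + 4 • cl 1 := by
        abel
      have f2 : (cl 2 + cl 1) + (cl (2 * a 0) + cl (a 1 ^ 2 - 4 * a 0) + cl (2 * a 1) +
          cl (2 * a 1 * a 0 * (a 1 ^ 2 - 4 * a 0))) =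
          cl 2 + cl (2 * a 0) + (cl 1 + cl (a 1 ^ 2 - 4 * a 0)) +
            (cl (2 * a 1) + cl (2 * a 1 * a 0 * (a 1 ^ 2 - 4 * a 0))) := by abel
      rw [f1, f2, hc, h5]
      abel
    exact add_left_cancel e
  obtain ⟨P, hP, hPD⟩ := cong_of_cls h2 (A := diagonal (d4 K)) (B := diagonal D)
    (diagonal_transpose _) (by rw [det_diagonal]; exact Finset.prod_ne_zero_iff.2 fun i _ => hd4 i)
    (diagonal_transpose _) (by rw [det_diagonal]; exact Finset.prod_ne_zero_iff.2 fun i _ => hDD i)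
    e3
  have hent : ∀ i j, Bq (fun l => P l i) (fun l => P l j) = diagonal D i j := fun i j => by
    rw [← Qb_entry, hPD]
  have hsm : ∀ (c c' : K) (x y : Fin 4 → K), Bq (c • x) (c' • y) = c * c' * Bq x y := by
    intro c c' x y
    simp only [Bq, Pi.smul_apply, smul_eq_mul]
    ring
  have D0 : D 0 = 2 * a 0 := by rw [hD]; rfl
  have D1 : D 1 = a 1 ^ 2 - 4 * a 0 := by rw [hD]; rfl
  have D2 : D 2 = 2 * a 1 := by rw [hD]; rfl
  have q0 := hent 0 0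
  rw [diagonal_apply_eq, D0] at q0
  have q1 := hent 1 1
  rw [diagonal_apply_eq, D1] at q1
  have q2 := hent 2 2
  rw [diagonal_apply_eq, D2] at q2
  have q01 := hent 0 1
  rw [diagonal_apply_ne _ (by decide)] at q01
  have q02 := hent 0 2
  rw [diagonal_apply_ne _ (by decide)] at q02
  have q12 := hent 1 2
  rw [diagonal_apply_ne _ (by decide)] at q12
  have hs1 : ∀ x : Fin 4 → K, Bq (((a 1)⁻¹ : K) • fun l => P l 0) x =
      (a 1)⁻¹ * Bq (fun l => P l 0) x := by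
    intro x
    have := hsm (a 1)⁻¹ 1 (fun l => P l 0) x
    rwa [one_smul, mul_one] at this
  have hs2 : ∀ x : Fin 4 → K, Bq (((a 1)⁻¹ : K) • fun l => P l 1) x =
      (a 1)⁻¹ * Bq (fun l => P l 1) x := by
    intro x
    have := hsm (a 1)⁻¹ 1 (fun l => P l 1) x
    rwa [one_smul, mul_one] at this
  refine ⟨(a 1)⁻¹ • (fun l => P l 0), (a 1)⁻¹ • (fun l => P l 1), fun l => P l 2,
    ?_, ?_, ?_, ?_, ?_, ?_, ?_, ?_, ?_⟩
  · rw [hsm, q01, mul_zero]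
  · rw [hs1, q02, mul_zero]
  · rw [hs2, q12, mul_zero]
  · rw [hsm, hsm, q0, q1]
    field_simp
    ring
  · rw [hsm, q0]
    exact mul_ne_zero (mul_ne_zero (inv_ne_zero h1) (inv_ne_zero h1)) (mul_ne_zero h2 h0)
  · rw [hsm, q1]
    exact mul_ne_zero (mul_ne_zero (inv_ne_zero h1) (inv_ne_zero h1)) hd
  · rw [q2]
    exact mul_ne_zero h2 h1
  · rw [q2]
    field_simp
  · rw [q2, hsm, q0]
    field_simp

end

end NF83
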