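import Pool.Agent.H.MP_83e36b_nt.nf.Qb

/-! The quadric `q(v + √2 u) = 1`, `q = <2, 1, 1, 1>`: two reflections. -/

set_option autoImplicit false

open Matrix SpinWA Topology

namespace NF83

section
variable {K : Type*} [Field K]

/-- `q (n + √2 m) = Nq + √2 Mq` -/
def Nq (n m : Fin 4 → K) : K := Bq n n + 2 * Bq m m

/-- `q (n + √2 m) = Nq + √2 Mq` -/
def Mq (n m : Fin 4 → K) : K := 2 * Bq n m

/-- the norm of `q (n + √2 m)` -/
def Dq (n m : Fin 4 → K) : K := Nq n m ^ 2 - 2 * Mq n m ^ 2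

/-- the first coordinate of `2 b / q` -/
def L1q (n m v u : Fin 4 → K) : K :=
  2 * ((Bq v n + 2 * Bq u m) * Nq n m - 2 * (Bq v m + Bq u n) * Mq n m) / Dq n m

/-- the second coordinate of `2 b / q` -/
def L2q (n m v u : Fin 4 → K) : K :=
  2 * ((Bq v m + Bq u n) * Nq n m - (Bq v n + 2 * Bq u m) * Mq n m) / Dq n m

/-- the reflection in `n + √2 m`, first coordinate -/
def Rv (n m v u : Fin 4 → K) : Fin 4 → K :=
  fun i => v i - (L1q n m v u * n i + 2 * L2q n m v u * m i)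

/-- the reflection in `n + √2 m`, second coordinate -/
def Ru (n m v u : Fin 4 → K) : Fin 4 → K :=
  fun i => u i - (L1q n m v u * m i + L2q n m v u * n i)

theorem Qc_vv (n m v : Fin 4 → K) (L1 L2 : K) :
    Bq (fun i => v i - (L1 * n i + 2 * L2 * m i)) (fun i => v i - (L1 * n i + 2 * L2 * m i)) =
      Bq v v - 2 * (L1 * Bq v n + 2 * L2 * Bq v m) + L1 ^ 2 * Bq n n + 4 * L1 * L2 * Bq n m +
        4 * L2 ^ 2 * Bq m m := by
  simp only [Bq]
  ring

theorem Qc_uu (n m u : Fin 4 → K) (L1 L2 : K) :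
    Bq (fun i => u i - (L1 * m i + L2 * n i)) (fun i => u i - (L1 * m i + L2 * n i)) =
      Bq u u - 2 * (L1 * Bq u m + L2 * Bq u n) + L1 ^ 2 * Bq m m + 2 * L1 * L2 * Bq n m +
        L2 ^ 2 * Bq n n := by
  simp only [Bq]
  ring

theorem Qc_uv (n m v u : Fin 4 → K) (L1 L2 : K) :
    Bq (fun i => u i - (L1 * m i + L2 * n i)) (fun i => v i - (L1 * n i + 2 * L2 * m i)) =
      Bq u v - (L1 * Bq u n + 2 * L2 * Bq u m) - (L1 * Bq v m + L2 * Bq v n) +
        L1 ^ 2 * Bq n m + L1 * L2 * (2 * Bq m m + Bq n n) + 2 * L2 ^ 2 * Bq n m := by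
  simp only [Bq]
  ring

theorem Qc_L {n m v u : Fin 4 → K} (hD : Dq n m ≠ 0) :
    L1q n m v u * Nq n m + 2 * L2q n m v u * Mq n m = 2 * (Bq v n + 2 * Bq u m) ∧
    L1q n m v u * Mq n m + L2q n m v u * Nq n m = 2 * (Bq v m + Bq u n) := by
  unfold L1q L2q
  constructor
  · field_simp
    unfold Dq
    ring
  · field_simp
    unfold Dq
    ring

theorem Qc_one {n m v u : Fin 4 → K} (hD : Dq n m ≠ 0) :
    Bq (Rv n m v u) (Rv n m v u) + 2 * Bq (Ru n m v u) (Ru n m v u) =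
      Bq v v + 2 * Bq u u := by
  obtain ⟨h1, h2⟩ := Qc_L (v := v) (u := u) hD
  unfold Rv Ru
  rw [Qc_vv n m v, Qc_uu n m u]
  unfold Nq Mq at h1 h2
  linear_combination L1q n m v u * h1 + 2 * L2q n m v u * h2

theorem Qc_two (h2' : (2 : K) ≠ 0) {n m v u : Fin 4 → K} (hD : Dq n m ≠ 0) :
    Bq (Ru n m v u) (Rv n m v u) = Bq u v := by
  obtain ⟨h1, h2⟩ := Qc_L (v := v) (u := u) hD
  unfold Rv Ru
  rw [Qc_uv n m v u]
  unfold Nq Mq at h1 h2
  apply mul_left_cancel₀ h2'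
  linear_combination L1q n m v u * h2 + L2q n m v u * h1

/-- the reflection in `Z - Z'` maps `Z'` to `Z` -/
theorem Qc_refl {v u v' u' : Fin 4 → K} (h1 : Bq v v + 2 * Bq u u = 1) (h2 : Bq u v = 0)
    (h1' : Bq v' v' + 2 * Bq u' u' = 1) (h2' : Bq u' v' = 0)
    (hD : Dq (fun i => v i - v' i) (fun i => u i - u' i) ≠ 0) :
    Rv (fun i => v i - v' i) (fun i => u i - u' i) v' u' = v ∧
    Ru (fun i => v i - v' i) (fun i => u i - u' i) v' u' = u := by
  obtain ⟨n, hn⟩ : ∃ n : Fin 4 → K, n = fun i => v i - v' i := ⟨_, rfl⟩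
  obtain ⟨m, hm⟩ : ∃ m : Fin 4 → K, m = fun i => u i - u' i := ⟨_, rfl⟩
  rw [← hn, ← hm] at hD ⊢
  have eP : 2 * (Bq v' n + 2 * Bq u' m) = - Nq n m := by
    have e1 : Bq v' n = Bq v v' - Bq v' v' := by
      rw [hn]; simp only [Bq]; ring
    have e2 : Bq u' m = Bq u u' - Bq u' u' := by
      rw [hm]; simp only [Bq]; ring
    have e3 : Bq n n = Bq v v - 2 * Bq v v' + Bq v' v' := by
      rw [hn]; simp only [Bq]; ring
    have e4 : Bq m m = Bq u u - 2 * Bq u u' + Bq u' u' := by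
      rw [hm]; simp only [Bq]; ring
    unfold Nq
    rw [e1, e2, e3, e4]
    linear_combination h1 - h1'
  have eQ : 2 * (Bq v' m + Bq u' n) = - Mq n m := by
    have e1 : Bq v' m = Bq u v' - Bq u' v' := by
      rw [hm]; simp only [Bq]; ring
    have e2 : Bq u' n = Bq v u' - Bq u' v' := by
      rw [hn]; simp only [Bq]; ring
    have e3 : Bq n m = Bq u v - Bq v u' - Bq u v' + Bq u' v' := by
      rw [hn, hm]; simp only [Bq]; ring
    unfold Mq
    rw [e1, e2, e3]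
    linear_combination 2 * h2 - 2 * h2'
  have l1 : L1q n m v' u' = -1 := by
    unfold L1q
    rw [div_eq_iff hD]
    unfold Dq
    linear_combination Nq n m * eP - 2 * Mq n m * eQ
  have l2 : L2q n m v' u' = 0 := by
    unfold L2q
    rw [div_eq_iff hD]
    linear_combination Nq n m * eQ - Mq n m * eP
  constructor
  · funext i
    unfold Rv
    rw [l1, l2, hn, hm]
    ring
  · funext i
    unfold Ru
    rw [l1, l2, hn, hm]
    ring

/-- the base point -/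
def Z0 (K : Type*) [Field K] : Fin 4 → K := ![0, 1, 0, 0]

theorem Qc_z0 : Bq (Z0 K) (Z0 K) + 2 * Bq (0 : Fin 4 → K) 0 = 1 ∧ Bq (0 : Fin 4 → K) (Z0 K) = 0 := by
  constructor <;> simp [Bq, Z0]

theorem Qc_fin {v u v' u' : Fin 4 → K} (h1 : Bq v v + 2 * Bq u u = 1) (h2 : Bq u v = 0)
    (h1' : Bq v' v' + 2 * Bq u' u' = 1) (h2' : Bq u' v' = 0)
    (hD : Dq (fun i => v i - v' i) (fun i => u i - u' i) ≠ 0)
    {c c' : Fin 4 → K} (hc : Dq c c' ≠ 0) (hv : Rv c c' (Z0 K) 0 = v')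
    (hu : Ru c c' (Z0 K) 0 = u') :
    ∃ n m n' m' : Fin 4 → K, Dq n m ≠ 0 ∧ Dq n' m' ≠ 0 ∧
      Rv n' m' (Rv n m (Z0 K) 0) (Ru n m (Z0 K) 0) = v ∧
      Ru n' m' (Rv n m (Z0 K) 0) (Ru n m (Z0 K) 0) = u := by
  refine ⟨c, c', _, _, hc, hD, ?_, ?_⟩
  · rw [hv, hu]
    exact (Qc_refl h1 h2 h1' h2' hD).1
  · rw [hv, hu]
    exact (Qc_refl h1 h2 h1' h2' hD).2

/-- a base point different from `Z0` with `D ≠ 0` is one reflection away from `Z0` -/
theorem Qc_fin' {v u v' u' : Fin 4 → K} (h1 : Bq v v + 2 * Bq u u = 1) (h2 : Bq u v = 0)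
    (h1' : Bq v' v' + 2 * Bq u' u' = 1) (h2' : Bq u' v' = 0)
    (hD : Dq (fun i => v i - v' i) (fun i => u i - u' i) ≠ 0)
    (hc : Dq (fun i => v' i - Z0 K i) (fun i => u' i - (0 : Fin 4 → K) i) ≠ 0) :
    ∃ n m n' m' : Fin 4 → K, Dq n m ≠ 0 ∧ Dq n' m' ≠ 0 ∧
      Rv n' m' (Rv n m (Z0 K) 0) (Ru n m (Z0 K) 0) = v ∧
      Ru n' m' (Rv n m (Z0 K) 0) (Ru n m (Z0 K) 0) = u := by
  have h := Qc_refl h1' h2' Qc_z0.1 Qc_z0.2 hc
  exact Qc_fin h1 h2 h1' h2' hD hc h.1 h.2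

theorem Qc_D {v u v' u' : Fin 4 → K} (h1 : Bq v v + 2 * Bq u u = 1) (h2 : Bq u v = 0)
    (h1' : Bq v' v' + 2 * Bq u' u' = 1) (h2' : Bq u' v' = 0) :
    Dq (fun i => v i - v' i) (fun i => u i - u' i) =
      4 * ((1 - (Bq v v' + 2 * Bq u u')) ^ 2 - 2 * (Bq v u' + Bq u v') ^ 2) := by
  have e3 : Nq (fun i => v i - v' i) (fun i => u i - u' i) =
      2 * (1 - (Bq v v' + 2 * Bq u u')) := by
    have e : Nq (fun i => v i - v' i) (fun i => u i - u' i) =
      (Bq v v + 2 * Bq u u) + (Bq v' v' + 2 * Bq u' u') - 2 * (Bq v v' + 2 * Bq u u') := by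
      simp only [Nq, Bq]; ring
    rw [e, h1, h1']
    ring
  have e4 : Mq (fun i => v i - v' i) (fun i => u i - u' i) = - 2 * (Bq v u' + Bq u v') := by
    have e : Mq (fun i => v i - v' i) (fun i => u i - u' i) =
      2 * (Bq u v + Bq u' v') - 2 * (Bq v u' + Bq u v') := by
      simp only [Mq, Bq]; ring
    rw [e, h2, h2']
    ring
  unfold Dq
  rw [e3, e4]
  ring

/-- every point is the image of the base point under two reflections -/
theorem Qc_loc [CharZero K] {v u : Fin 4 → K} (h1 : Bq v v + 2 * Bq u u = 1) (h2 : Bq u v = 0) :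
    ∃ n m n' m' : Fin 4 → K, Dq n m ≠ 0 ∧ Dq n' m' ≠ 0 ∧
      Rv n' m' (Rv n m (Z0 K) 0) (Ru n m (Z0 K) 0) = v ∧
      Ru n' m' (Rv n m (Z0 K) 0) (Ru n m (Z0 K) 0) = u := by
  have t2 : (2 : K) ≠ 0 := two_ne_zero
  have t3 : (3 : K) ≠ 0 := three_ne_zero
  have t4 : (4 : K) ≠ 0 := by norm_num
  by_contra hcon
  -- the points `± e_a`
  have hA : ∀ (v' : Fin 4 → K) (_ : Bq v' v' = 1)
      (_ : Dq (fun i => v' i - Z0 K i) (fun i => (0 : Fin 4 → K) i - (0 : Fin 4 → K) i) ≠ 0),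
      (1 - Bq v v') ^ 2 - 2 * Bq u v' ^ 2 = 0 := by
    intro v' h1' hc
    by_contra hne
    have z1 : ∀ x : Fin 4 → K, Bq x 0 = 0 := fun x => by simp [Bq]
    have z2 : ∀ x : Fin 4 → K, Bq 0 x = 0 := fun x => by simp [Bq]
    refine hcon (Qc_fin' (v' := v') (u' := 0) h1 h2 (by rw [h1', z1]; ring) (z2 _) ?_ hc)
    rw [Qc_D h1 h2 (by rw [h1', z1]; ring) (z2 _), z1, z1]
    intro h
    apply hne
    have h' := (mul_eq_zero.1 h).resolve_left t4
    rw [← h']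
    ring
  have hB : ∀ (u' : Fin 4 → K) (_ : 2 * Bq u' u' = 1)
      (_ : Dq (fun i => (0 : Fin 4 → K) i - Z0 K i) (fun i => u' i - (0 : Fin 4 → K) i) ≠ 0),
      (1 - 2 * Bq u u') ^ 2 - 2 * Bq v u' ^ 2 = 0 := by
    intro u' h1' hc
    by_contra hne
    have z1 : ∀ x : Fin 4 → K, Bq x 0 = 0 := fun x => by simp [Bq]
    have z2 : ∀ x : Fin 4 → K, Bq 0 x = 0 := fun x => by simp [Bq]
    refine hcon (Qc_fin' (v' := 0) (u' := u') h1 h2 (by rw [h1', z1]; ring) (z1 _) ?_ hc)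
    rw [Qc_D h1 h2 (by rw [h1', z1]; ring) (z1 _), z1, z1]
    intro h
    apply hne
    have h' := (mul_eq_zero.1 h).resolve_left t4
    rw [← h']
    ring
  -- the base point itself
  have hC : (1 - v 1) ^ 2 - 2 * u 1 ^ 2 = 0 := by
    by_contra hne
    have z1 : ∀ x : Fin 4 → K, Bq x 0 = 0 := fun x => by simp [Bq]
    have z2 : ∀ x : Fin 4 → K, Bq 0 x = 0 := fun x => by simp [Bq]
    have hv : Bq v (Z0 K) = v 1 := by simp [Bq, Z0]
    have hu : Bq u (Z0 K) = u 1 := by simp [Bq, Z0]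
    refine hcon (Qc_fin (v' := Z0 K) (u' := 0) (c := ![0, 0, 1, 0]) (c' := 0) h1 h2 Qc_z0.1
      Qc_z0.2 ?_ ?_ ?_ ?_)
    · rw [Qc_D h1 h2 Qc_z0.1 Qc_z0.2, z1, z1, hv, hu]
      intro h
      apply hne
      have h' := (mul_eq_zero.1 h).resolve_left t4
      rw [← h']
      ring
    · simp [Dq, Nq, Mq, Bq]
    · funext i
      simp [Rv, L1q, L2q, Dq, Nq, Mq, Bq, Z0]
    · funext i
      simp [Ru, L1q, L2q, Dq, Nq, Mq, Bq, Z0]
  have c1 := hA ![0, -1, 0, 0] (by simp [Bq]) (by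
    simp only [Dq, Nq, Mq, Bq, Z0, Matrix.cons_val_zero, Matrix.cons_val_one, Matrix.cons_val,
      Pi.zero_apply]
    norm_num)
  have c2 := hA ![0, 0, 1, 0] (by simp [Bq]) (by
    simp only [Dq, Nq, Mq, Bq, Z0, Matrix.cons_val_zero, Matrix.cons_val_one, Matrix.cons_val,
      Pi.zero_apply]
    norm_num)
  have c3 := hA ![0, 0, -1, 0] (by simp [Bq]) (by
    simp only [Dq, Nq, Mq, Bq, Z0, Matrix.cons_val_zero, Matrix.cons_val_one, Matrix.cons_val,
      Pi.zero_apply]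
    norm_num)
  have c4 := hA ![0, 0, 0, 1] (by simp [Bq]) (by
    simp only [Dq, Nq, Mq, Bq, Z0, Matrix.cons_val_zero, Matrix.cons_val_one, Matrix.cons_val,
      Pi.zero_apply]
    norm_num)
  have c5 := hA ![0, 0, 0, -1] (by simp [Bq]) (by
    simp only [Dq, Nq, Mq, Bq, Z0, Matrix.cons_val_zero, Matrix.cons_val_one, Matrix.cons_val,
      Pi.zero_apply]
    norm_num)
  have c6 := hB ![1 / 2, 0, 0, 0] (by simp [Bq]) (by
    simp only [Dq, Nq, Mq, Bq, Z0, Matrix.cons_val_zero, Matrix.cons_val_one, Matrix.cons_val,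
      Pi.zero_apply]
    norm_num)
  have c7 := hB ![-1 / 2, 0, 0, 0] (by simp [Bq]; ring) (by
    simp only [Dq, Nq, Mq, Bq, Z0, Matrix.cons_val_zero, Matrix.cons_val_one, Matrix.cons_val,
      Pi.zero_apply]
    norm_num)
  simp only [Bq, Matrix.cons_val_zero, Matrix.cons_val_one, Matrix.cons_val] at c1 c2 c3 c4 c5 c6 c7
  simp only [Bq] at h1
  have v1 : v 1 = 0 := by
    apply (mul_eq_zero.1 (show 4 * v 1 = 0 by linear_combination c1 - hC)).resolve_left t4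
  have v2 : v 2 = 0 := by
    apply (mul_eq_zero.1 (show 4 * v 2 = 0 by linear_combination c3 - c2)).resolve_left t4
  have v3 : v 3 = 0 := by
    apply (mul_eq_zero.1 (show 4 * v 3 = 0 by linear_combination c5 - c4)).resolve_left t4
  have u0 : u 0 = 0 := by
    apply (mul_eq_zero.1 (show 8 * u 0 = 0 by linear_combination c7 - c6)).resolve_left
    norm_num
  rw [v1] at hC
  rw [v2] at c2
  rw [v3] at c4
  rw [u0] at c6
  rw [v1, v2, v3, u0] at h1
  apply t3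
  linear_combination h1 + hC + c2 + c4 + c6

end

end NF83
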