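import Pool.Agent.H.MP_83e36b_nt.nf.Base
import Pool.Agent.H.MP_83e36b_nt.sp.LSo

/-! Weak approximation for the special orthogonal group: as sp/LSo.lean. -/

set_option autoImplicit false

open Topology Matrix SpinWA

namespace NF83

variable {kk : Type} [Field kk] [CharZero kk] [PlSys kk]

theorem lso_local {n : ℕ} {Q : Matrix (Fin n) (Fin n) kk} (hQ : Qᵀ = Q) (hd : Q.det ≠ 0)
    (S : Finset (Pk kk)) (O : ∀ v, Matrix (Fin n) (Fin n) (Cp v))
    (hO : ∀ v ∈ S, (O v)ᵀ * Q.map (em v) * O v = Q.map (em v)) (hO1 : ∀ v ∈ S, (O v).det = 1)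
    (v : Pk kk) : ∃ l : List (Fin n → Cp v), (∀ x ∈ l, qf (Q.map (em v)) x ≠ 0) ∧
      Even l.length ∧ (v ∈ S → O v = (l.map (rf (Q.map (em v)))).prod) := by
  by_cases hv : v ∈ S
  · have hQv : (Q.map (em v))ᵀ = Q.map (em v) := by rw [← transpose_map, hQ]
    have hdv : (Q.map (em v)).det ≠ 0 := by
      have h1 : (Q.map (em v)).det = em v Q.det := by
        rw [RingHom.map_det]
        rfl
      rw [h1]
      exact (map_ne_zero _).2 hd
    obtain ⟨l, hl1, hl2⟩ := exists_refl_prod (two_ne_zero : (2 : Cp v) ≠ 0) hQv hdv (hO v hv)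
    refine ⟨l, hl1, ?_, fun _ => hl2⟩
    have h2 := (refl_prod_isom hQv l hl1).2
    rw [← hl2, hO1 v hv] at h2
    refine (neg_one_pow_eq_one_iff_even (R := Cp v) ?_).1 h2.symm
    intro h3
    have h4 : (2 : Cp v) = 0 := by linear_combination -h3
    exact two_ne_zero h4
  · exact ⟨[], by simp, by simp, fun h => absurd h hv⟩

theorem so_wa {n : ℕ} {Q : Matrix (Fin n) (Fin n) kk} (hQ : Qᵀ = Q) (hd : Q.det ≠ 0)
    (S : Finset (Pk kk)) (O : ∀ v, Matrix (Fin n) (Fin n) (Cp v))
    (hO : ∀ v ∈ S, (O v)ᵀ * Q.map (em v) * O v = Q.map (em v)) (hO1 : ∀ v ∈ S, (O v).det = 1)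
    (U : ∀ v, Set (Matrix (Fin n) (Fin n) (Cp v))) (hU : ∀ v ∈ S, U v ∈ 𝓝 (O v)) :
    ∃ O' : Matrix (Fin n) (Fin n) kk, O'ᵀ * Q * O' = Q ∧ O'.det = 1 ∧
      ∀ v ∈ S, O'.map (em v) ∈ U v := by
  classical
  rcases Nat.eq_zero_or_pos n with hn | hn
  · subst hn
    refine ⟨1, by simp, by simp, fun v hv => ?_⟩
    have h1 := mem_of_mem_nhds (hU v hv)
    rwa [Subsingleton.elim (O v) ((1 : Matrix (Fin 0) (Fin 0) kk).map (em v))] at h1
  have _ : Nonempty (Fin n) := ⟨⟨0, hn⟩⟩
  obtain ⟨z, hz⟩ := exists_qf_ne (two_ne_zero : (2 : kk) ≠ 0) hQ hd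
  choose l hl1 hl2 hl3 using lso_local hQ hd S O hO hO1
  obtain ⟨k, hk⟩ : ∃ k, k = ∑ v ∈ insert (p0 kk) S, (l v).length := ⟨_, rfl⟩
  have hkeven : Even k := by
    rw [hk]
    exact Finset.even_sum _ fun v _ => hl2 v
  have hkle : ∀ v ∈ insert (p0 kk) S, (l v).length ≤ k := by
    intro v hv
    rw [hk]
    exact Finset.single_le_sum (f := fun v => (l v).length) (fun _ _ => Nat.zero_le _) hv
  have hQv : ∀ v, (Q.map (em v))ᵀ = Q.map (em v) := fun v => by rw [← transpose_map, hQ]
  have hg : ∀ v : Pk kk, ∃ g : Fin k → Fin n → Cp v, v ∈ insert (p0 kk) S →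
      ((∀ j, qf (Q.map (em v)) (g j) ≠ 0) ∧
        (v ∈ S → O v = ((List.finRange k).map fun j => rf (Q.map (em v)) (g j)).prod)) := by
    intro v
    by_cases hv : v ∈ insert (p0 kk) S
    · have hzv : qf (Q.map (em v)) (fun i => em v (z i)) ≠ 0 := by
        rw [← lso_qf_map]
        exact (map_ne_zero _).2 hz
      obtain ⟨m, hm⟩ : ∃ m, k - (l v).length = 2 * m := by
        have h1 : Even (k - (l v).length) := (Nat.even_sub (hkle v hv)).2
          (iff_of_true hkeven (hl2 v))
        obtain ⟨m, hm⟩ := h1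
        exact ⟨m, by omega⟩
      obtain ⟨g, hg⟩ := lso_list (l v ++ List.replicate (2 * m) fun i => em v (z i)) (k := k)
        (by
          rw [List.length_append, List.length_replicate, ← hm]
          have := hkle v hv
          omega)
      refine ⟨g, fun _ => ⟨fun j => ?_, fun hvS => ?_⟩⟩
      · have h1 : g j ∈ (List.finRange k).map g := List.mem_map.2 ⟨j, List.mem_finRange j, rfl⟩
        rw [hg, List.mem_append] at h1
        rcases h1 with h1 | h1
        · exact hl1 v _ h1
        · rw [List.eq_of_mem_replicate h1]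
          exact hzv
      · have h1 : ((List.finRange k).map fun j => rf (Q.map (em v)) (g j)) =
            ((List.finRange k).map g).map (rf (Q.map (em v))) := by
          rw [List.map_map]
          rfl
        rw [h1, hg, List.map_append, List.prod_append, lso_pad (hQv v) hzv, mul_one]
        exact hl3 v hvS
    · exact ⟨fun _ _ => 0, fun h => absurd h hv⟩
  choose g hg using hg
  obtain ⟨r, hr⟩ := wa_fun (insert (p0 kk) S) (fun v (p : Fin k × Fin n) => g v p.1 p.2)
    (fun v => {y | (∀ j, qf (Q.map (em v)) (fun i => y (j, i)) ≠ 0) ∧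
      (v ∈ S → ((List.finRange k).map fun j =>
        rf (Q.map (em v)) (fun i => y (j, i))).prod ∈ U v)}) (by
    intro v hv
    obtain ⟨h1, h2⟩ := hg v hv
    have hc : ∀ j : Fin k, Continuous fun y : Fin k × Fin n → Cp v =>
        (fun i => y (j, i) : Fin n → Cp v) := by
      intro j
      exact continuous_pi fun i => continuous_apply (j, i)
    have hqc : Continuous (qf (Q.map (em v))) := by
      unfold qf
      exact Continuous.dotProduct continuous_id
        (Continuous.matrix_mulVec continuous_const continuous_id)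
    have h3 : ∀ᶠ y in 𝓝 (fun p : Fin k × Fin n => g v p.1 p.2),
        ∀ j, qf (Q.map (em v)) (fun i => y (j, i)) ≠ 0 := by
      rw [Filter.eventually_all]
      intro j
      exact (hqc.comp (hc j)).continuousAt.eventually_ne (h1 j)
    have h4 : ∀ᶠ y in 𝓝 (fun p : Fin k × Fin n => g v p.1 p.2),
        (v ∈ S → ((List.finRange k).map fun j =>
          rf (Q.map (em v)) (fun i => y (j, i))).prod ∈ U v) := by
      by_cases hvS : v ∈ S
      · have h5 : Filter.Tendsto (fun y : Fin k × Fin n → Cp v => ((List.finRange k).map fun j =>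
            rf (Q.map (em v)) (fun i => y (j, i))).prod)
            (𝓝 (fun p : Fin k × Fin n => g v p.1 p.2))
            (𝓝 ((List.finRange k).map fun j => rf (Q.map (em v)) (g v j)).prod) := by
          apply tendsto_list_prod
          intro j _
          have h6 : Filter.Tendsto (fun y : Fin k × Fin n → Cp v =>
              (fun i => y (j, i) : Fin n → Cp v)) (𝓝 (fun p : Fin k × Fin n => g v p.1 p.2))
              (𝓝 (g v j)) := (hc j).tendsto _
          exact (lso_tendsto (h1 j)).comp h6
        rw [← h2 hvS] at h5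
        filter_upwards [h5 (hU v hvS)] with y hy
        exact fun _ => hy
      · exact Filter.Eventually.of_forall fun y h => absurd h hvS
    exact h3.and h4)
  have hqr : ∀ j : Fin k, qf Q (fun i => r (j, i)) ≠ 0 := by
    intro j h
    have h1 := (hr (p0 kk) (Finset.mem_insert_self _ _)).1 j
    apply h1
    have h2 := lso_qf_map (em (p0 kk)) Q (fun i => r (j, i))
    rw [h, map_zero] at h2
    exact h2.symm
  have hlr : ∀ x ∈ (List.finRange k).map (fun j => (fun i => r (j, i) : Fin n → kk)),
      qf Q x ≠ 0 := by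
    intro x hx
    obtain ⟨j, -, rfl⟩ := List.mem_map.1 hx
    exact hqr j
  obtain ⟨e1, e2⟩ := refl_prod_isom hQ _ hlr
  refine ⟨_, e1, ?_, ?_⟩
  · rw [e2, List.length_map, List.length_finRange, hkeven.neg_one_pow]
  · intro v hv
    have h1 := (hr v (Finset.mem_insert_of_mem hv)).2 hv
    have h2 : ((((List.finRange k).map (fun j => (fun i => r (j, i) : Fin n → kk))).map
        (rf Q)).prod).map (em v) = ((List.finRange k).map fun j =>
          rf (Q.map (em v)) (fun i => em v (r (j, i)))).prod := by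
      rw [← RingHom.mapMatrix_apply, map_list_prod, List.map_map, List.map_map]
      congr 1
      apply List.map_congr_left
      intro j _
      exact lso_rf_map (em v) Q _
    rw [h2]
    exact h1

end NF83
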