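import Pool.Agent.H.MP_83e36b_nt.nf.U5a

/-! Quadratic forms in five variables over a complete discretely valued field with finite residue
field are isotropic: reduction of lattices. -/

set_option autoImplicit false

open DC83 Matrix

namespace NF83

section
variable {K : Type*} [NormedField K] [CompleteSpace K] {R κ : Type*} [CommRing R] [Field κ]
  [Finite κ] {ψ : R →+* K} {red : R →+* κ} {π : K} {d : Fin 5 → K}

omit [CompleteSpace K] [Finite κ] in
private theorem U5b_det (x : Matrix (Fin 5) (Fin 5) K) (e : Fin 3 → Fin 5)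
    (he : Function.Injective e) (a : Fin 3 → K) (j : Fin 3) :
    (x.updateRow (e j) (∑ i, a i • x (e i))).det = a j * x.det := by
  classical
  have h1 : ∑ i, a i • x (e i) = ∑ k, (∑ i, if e i = k then a i else 0) • x k := by
    simp only [Finset.sum_smul]
    rw [Finset.sum_comm]
    refine Finset.sum_congr rfl fun i _ => ?_
    simp only [ite_smul, zero_smul]
    rw [Finset.sum_ite_eq]
    simp
  rw [h1, det_updateRow_sum x (e j) fun k => ∑ i, if e i = k then a i else 0]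
  have h2 : (∑ i, if e i = e j then a i else 0) = a j := by
    have h3 : ∀ i, (if e i = e j then a i else 0) = if i = j then a i else 0 := by
      intro i
      by_cases h : i = j
      · rw [if_pos h, if_pos (congrArg e h)]
      · rw [if_neg h, if_neg fun h' => h (he h')]
    simp only [h3]
    rw [Finset.sum_ite_eq']
    simp
  rw [h2]
  rfl

/-- a step: three rows `e i` of value at most `‖c‖` are used to diminish the value of a row -/
private theorem U5b_step (h : LocF ψ red π) (h0 : ∀ x, qd d x = 0 → x = 0) {c : K} (hc : c ≠ 0)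
    (x : Matrix (Fin 5) (Fin 5) K) (e : Fin 3 → Fin 5) (he : Function.Injective e)
    (hx : ∀ i, ‖qd d (x (e i))‖ ≤ ‖c‖) :
    ∃ (j : Fin 3) (y : Fin 5 → K), ‖qd d y‖ < ‖c‖ ∧ ‖(x.updateRow (e j) y).det‖ = ‖x.det‖ := by
  obtain ⟨a, j, haj, hlt⟩ := h.three hc (fun i => x (e i)) hx (fun i j => by
    have h1 := schwarz h.ultra h0 (x (e i)) (x (e j))
    have h2 : ‖bd d (x (e i)) (x (e j))‖ ^ 2 ≤ ‖c‖ ^ 2 := by
      refine h1.trans ?_
      rw [sq]
      exact mul_le_mul (hx i) (hx j) (norm_nonneg _) (norm_nonneg _)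
    exact (pow_le_pow_iff_left₀ (norm_nonneg _) (norm_nonneg _) two_ne_zero).1 h2)
  refine ⟨j, _, hlt, ?_⟩
  rw [U5b_det x e he (fun i => ψ (a i)) j, norm_mul, haj, one_mul]

/-- the increase of the lattice -/
private theorem U5b_incr (h : LocF ψ red π) (h0 : ∀ x, qd d x = 0 → x = 0)
    (x : Matrix (Fin 5) (Fin 5) K) (hx : ∀ i, ‖qd d (x i)‖ ≤ 1) :
    ∃ x' : Matrix (Fin 5) (Fin 5) K, (∀ i, ‖qd d (x' i)‖ ≤ 1) ∧
      ‖x'.det‖ = ‖π‖⁻¹ * ‖x.det‖ := by
  classical
  -- rows with small values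
  have key : ∀ m : ℕ, m ≤ 3 → ∃ (x' : Matrix (Fin 5) (Fin 5) K) (A : Finset (Fin 5)),
      A.card = m ∧ (∀ i, ‖qd d (x' i)‖ ≤ 1) ∧ (∀ i ∈ A, ‖qd d (x' i)‖ < 1) ∧
      ‖x'.det‖ = ‖x.det‖ := by
    intro m
    induction m with
    | zero => exact fun _ => ⟨x, ∅, rfl, hx, fun i hi => absurd hi (Finset.notMem_empty i), rfl⟩
    | succ m ih =>
      intro hm
      obtain ⟨x', A, hA, h1, h2, h3⟩ := ih (by omega)
      have hcard : 3 ≤ (Aᶜ).card := by
        rw [Finset.card_compl, Fintype.card_fin, hA]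
        omega
      obtain ⟨B, hBA, hB⟩ := Finset.exists_subset_card_eq hcard
      obtain ⟨e, he⟩ : ∃ e : Fin 3 → Fin 5, Function.Injective e ∧ ∀ i, e i ∈ B :=
        ⟨fun i => B.orderEmbOfFin hB i, (B.orderEmbOfFin hB).injective,
          fun i => B.orderEmbOfFin_mem hB i⟩
      obtain ⟨j, y, hy, hdet⟩ := U5b_step h h0 (c := 1) one_ne_zero x' e he.1 (fun i => by
        rw [norm_one]; exact h1 _)
      rw [norm_one] at hy
      have hj : e j ∉ A := fun hjA => (Finset.mem_compl.1 (hBA (he.2 j))) hjA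
      refine ⟨x'.updateRow (e j) y, insert (e j) A, ?_, ?_, ?_, hdet.trans h3⟩
      · rw [Finset.card_insert_of_notMem hj, hA]
      · intro i
        by_cases hi : i = e j
        · subst hi
          rw [Matrix.updateRow_self]
          exact hy.le
        · rw [Matrix.updateRow_ne hi]
          exact h1 i
      · intro i hi
        by_cases hi' : i = e j
        · subst hi'
          rw [Matrix.updateRow_self]
          exact hy
        · rw [Matrix.updateRow_ne hi']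
          exact h2 i ((Finset.mem_insert.1 hi).resolve_left hi')
  obtain ⟨x', A, hA, h1, h2, h3⟩ := key 3 le_rfl
  obtain ⟨j, y, hy, hdet⟩ := U5b_step h h0 h.pi0 x' (fun i => A.orderEmbOfFin hA i)
    (A.orderEmbOfFin hA).injective (fun i => h.disc _ (h2 _ (A.orderEmbOfFin_mem hA i)))
  have hpn : 0 < ‖π‖ := norm_pos_iff.2 h.pi0
  have hy2 : ‖qd d y‖ ≤ ‖π‖ ^ 2 := by
    have h4 : ‖qd d y / π‖ < 1 := by
      rw [norm_div, div_lt_one hpn]
      exact hy
    have h5 := h.disc _ h4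
    rw [norm_div, div_le_iff₀ hpn] at h5
    rw [sq]
    exact h5
  refine ⟨x'.updateRow (A.orderEmbOfFin hA j) (π⁻¹ • y), ?_, ?_⟩
  · intro i
    by_cases hi : i = A.orderEmbOfFin hA j
    · subst hi
      rw [Matrix.updateRow_self, qd_smul, norm_mul, norm_pow, norm_inv]
      rw [inv_pow, inv_mul_le_iff₀ (by positivity), mul_one]
      exact hy2
    · rw [Matrix.updateRow_ne hi]
      exact h1 i
  · rw [det_updateRow_smul, norm_mul, norm_inv, hdet, h3]

private theorem U5b_all (h : LocF ψ red π) (h0 : ∀ x, qd d x = 0 → x = 0) (n : ℕ)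
    (x : Matrix (Fin 5) (Fin 5) K) (hx : ∀ i, ‖qd d (x i)‖ ≤ 1) :
    ∃ x' : Matrix (Fin 5) (Fin 5) K, (∀ i, ‖qd d (x' i)‖ ≤ 1) ∧
      ‖x'.det‖ = ‖π‖⁻¹ ^ n * ‖x.det‖ := by
  induction n with
  | zero => exact ⟨x, hx, by rw [pow_zero, one_mul]⟩
  | succ n ih =>
    obtain ⟨x', h1, h2⟩ := ih
    obtain ⟨x'', h3, h4⟩ := U5b_incr h h0 x' h1
    exact ⟨x'', h3, by rw [h4, h2, pow_succ]; ring⟩

theorem LocF.u5 (h : LocF ψ red π) (h2 : (2 : K) ≠ 0) : U5 K := by
  classical
  intro d hd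
  by_contra hcon
  push Not at hcon
  have h0 : ∀ x, qd d x = 0 → x = 0 := by
    intro x hx
    by_contra hx0
    exact hcon x hx0 hx
  have hpn : 0 < ‖π‖ := norm_pos_iff.2 h.pi0
  -- the first lattice
  obtain ⟨N, hN⟩ : ∃ N : ℕ, ∀ i, ‖d i‖ * (‖π‖ ^ N) ^ 2 ≤ 1 := by
    have h1 : Filter.Tendsto (fun N : ℕ => ‖π‖ ^ N) Filter.atTop (nhds 0) :=
      tendsto_pow_atTop_nhds_zero_of_lt_one (norm_nonneg _) h.pi1
    have h3 : ∀ i, ∀ᶠ N : ℕ in Filter.atTop, ‖d i‖ * (‖π‖ ^ N) ^ 2 ≤ 1 := by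
      intro i
      have h4 : Filter.Tendsto (fun N : ℕ => ‖d i‖ * (‖π‖ ^ N) ^ 2) Filter.atTop
          (nhds (‖d i‖ * 0 ^ 2)) := (h1.pow 2).const_mul _
      rw [zero_pow two_ne_zero, mul_zero] at h4
      exact (h4.eventually_lt_const one_pos).mono fun _ h => h.le
    exact (Filter.eventually_all.2 h3).exists
  obtain ⟨x0, hx0⟩ : ∃ x0 : Matrix (Fin 5) (Fin 5) K, x0 = diagonal fun _ => π ^ N := ⟨_, rfl⟩
  have hx0q : ∀ i, ‖qd d (x0 i)‖ ≤ 1 := by
    intro i
    have h1 : qd d (x0 i) = d i * (π ^ N) ^ 2 := by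
      rw [qd, Finset.sum_eq_single i]
      · rw [hx0, diagonal_apply_eq]
      · intro j _ hj
        rw [hx0, diagonal_apply_ne' _ hj, zero_pow two_ne_zero, mul_zero]
      · intro hi
        exact absurd (Finset.mem_univ i) hi
    rw [h1, norm_mul, norm_pow, norm_pow]
    exact hN i
  have hx0d : x0.det ≠ 0 := by
    rw [hx0, det_diagonal]
    exact Finset.prod_ne_zero_iff.2 fun _ _ => pow_ne_zero _ h.pi0
  -- the bound
  obtain ⟨C, hC0, hC⟩ : ∃ C : ℝ, 0 ≤ C ∧ ∀ x : Fin 5 → K, ‖qd d x‖ ≤ 1 → ∀ j, ‖x j‖ ≤ C := by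
    have h1 : ∀ j : Fin 5, ∃ C : ℝ, ∀ x : Fin 5 → K, ‖qd d x‖ ≤ 1 → ‖x j‖ ≤ C := by
      intro j
      refine ⟨‖d j‖ / ‖2 * d j‖ ^ 2 + 1, fun x hx => ?_⟩
      have hs := schwarz h.ultra h0 x (Pi.single j 1)
      have e1 : bd d x (Pi.single j 1) = 2 * d j * x j := by
        rw [bd, Finset.sum_eq_single j]
        · rw [Pi.single_eq_same, mul_one]
        · intro i _ hi
          rw [Pi.single_eq_of_ne hi, mul_zero]
        · intro hi
          exact absurd (Finset.mem_univ j) hi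
      have e2 : qd d (Pi.single j 1) = d j := by
        rw [qd, Finset.sum_eq_single j]
        · rw [Pi.single_eq_same, one_pow, mul_one]
        · intro i _ hi
          rw [Pi.single_eq_of_ne hi, zero_pow two_ne_zero, mul_zero]
        · intro hi
          exact absurd (Finset.mem_univ j) hi
      rw [e1, e2, norm_mul, mul_pow] at hs
      have hpos : 0 < ‖2 * d j‖ ^ 2 := by
        have : 2 * d j ≠ 0 := mul_ne_zero h2 (hd j)
        positivity
      have h3 : ‖2 * d j‖ ^ 2 * ‖x j‖ ^ 2 ≤ ‖d j‖ := by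
        refine hs.trans ?_
        calc ‖qd d x‖ * ‖d j‖ ≤ 1 * ‖d j‖ := mul_le_mul_of_nonneg_right hx (norm_nonneg _)
          _ = ‖d j‖ := one_mul _
      have h4 : ‖x j‖ ^ 2 ≤ ‖d j‖ / ‖2 * d j‖ ^ 2 := by
        rw [le_div_iff₀ hpos]
        linarith
      nlinarith [norm_nonneg (x j), sq_nonneg (‖x j‖ - 1)]
    choose C hC using h1
    refine ⟨∑ j, |C j|, Finset.sum_nonneg fun j _ => abs_nonneg _, fun x hx j => ?_⟩
    exact (hC j x hx).trans ((le_abs_self _).trans
      (Finset.single_le_sum (f := fun j => |C j|) (fun i _ => abs_nonneg _) (Finset.mem_univ j)))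
  have hdet : ∀ x : Matrix (Fin 5) (Fin 5) K, (∀ i, ‖qd d (x i)‖ ≤ 1) →
      ‖x.det‖ ≤ (Fintype.card (Fin 5)).factorial • C ^ Fintype.card (Fin 5) := by
    intro x hx
    exact Matrix.det_le (abv := NormedField.toAbsoluteValue K) fun i j => hC _ (hx i) j
  -- contradiction
  have h1 : Filter.Tendsto (fun n : ℕ => ‖π‖⁻¹ ^ n * ‖x0.det‖) Filter.atTop Filter.atTop := by
    refine Filter.Tendsto.atTop_mul_const (norm_pos_iff.2 hx0d) ?_
    exact tendsto_pow_atTop_atTop_of_one_lt ((one_lt_inv₀ hpn).2 h.pi1)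
  obtain ⟨n, hn⟩ := (h1.eventually_gt_atTop
    ((Fintype.card (Fin 5)).factorial • C ^ Fintype.card (Fin 5))).exists
  obtain ⟨x', h3, h4⟩ := U5b_all h h0 n x0 hx0q
  rw [← h4] at hn
  exact absurd (hdet x' h3) (not_le.2 hn)

end

end NF83
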