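import Pool.Agent.H.MP_83e36b_nt.nf.ZWa
import Pool.Agent.H.MP_83e36b_nt.sp.XLoc

/-! Weak approximation for the variety of trace forms, `n = 6, 7`; as sp/XWa.lean. -/

set_option autoImplicit false

open Topology Matrix Polynomial SpinWA

namespace NF83

private theorem XWa_box {α β γ : Type*} [TopologicalSpace α] [TopologicalSpace β]
    [TopologicalSpace γ] {p : α × β × γ → Prop} {a : α} {b : β} {c : γ}
    (h : ∀ᶠ q in 𝓝 (a, b, c), p q) :
    ∃ U1 ∈ 𝓝 a, ∃ U2 ∈ 𝓝 b, ∃ U3 ∈ 𝓝 c, ∀ x ∈ U1, ∀ y ∈ U2, ∀ z ∈ U3, p (x, y, z) := by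
  rw [Filter.Eventually, mem_nhds_prod_iff] at h
  obtain ⟨U1, hU1, W, hW, h2⟩ := h
  rw [mem_nhds_prod_iff] at hW
  obtain ⟨U2, hU2, U3, hU3, h3⟩ := hW
  exact ⟨U1, hU1, U2, hU2, U3, hU3, fun x hx y hy z hz =>
    h2 (Set.mk_mem_prod hx (h3 (Set.mk_mem_prod hy hz)))⟩

variable {kk : Type} [Field kk] [CharZero kk] [PlSys kk]

theorem x_wa {e : ℕ} (he : e ≤ 1) (S : Finset (Pk kk))
    (x : ∀ v : Pk kk, (Fin (2 * (1 + 1 + 1) + e) → Cp v) ×
      Matrix (Fin (2 * (1 + 1 + 1) + e)) (Fin (2 * (1 + 1 + 1) + e)) (Cp v))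
    (hx : ∀ v, (x v).2ᵀ * (x v).2 = hk (x v).1 ∧ (x v).2.det ≠ 0)
    (U : ∀ v : Pk kk, Set ((Fin (2 * (1 + 1 + 1) + e) → Cp v) ×
      Matrix (Fin (2 * (1 + 1 + 1) + e)) (Fin (2 * (1 + 1 + 1) + e)) (Cp v)))
    (hU : ∀ v ∈ S, U v ∈ 𝓝 (x v)) :
    ∃ (a : Fin (2 * (1 + 1 + 1) + e) → kk)
      (B : Matrix (Fin (2 * (1 + 1 + 1) + e)) (Fin (2 * (1 + 1 + 1) + e)) kk),
      Bᵀ * B = hk a ∧ B.det ≠ 0 ∧
      ∀ v ∈ S, ((fun i => em v (a i)), B.map (em v)) ∈ U v := by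
  classical
  have hU' : ∀ v, (if v ∈ S then U v else Set.univ) ∈ 𝓝 (x v) := by
    intro v
    split_ifs with hv
    · exact hU v hv
    · exact Filter.univ_mem
  have hloc := fun v : Pk kk => x_loc (Rat.castHom (Cp v)) he
    (Q := (1 : Matrix (Fin (2 * (1 + 1 + 1) + e)) (Fin (2 * (1 + 1 + 1) + e)) (Cp v)))
    transpose_one (by rw [det_one]; exact one_ne_zero) (x v)
    (by rw [Matrix.mul_one]; exact (hx v).1) (hx v).2 (hU' v)
  choose g y C hC hCd hev using hloc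
  have hnb : ∀ v : Pk kk, ∃ U1 ∈ 𝓝 (g v), ∃ U2 ∈ 𝓝 (y v), ∃ U3 ∈ 𝓝 (C v),
      ∀ a ∈ U1, ∀ b ∈ U2, ∀ c ∈ U3, (kryM (xop e a b)).det ≠ 0 ∧
        (cpc (xop e a b), c * kryM (xop e a b)) ∈ (if v ∈ S then U v else Set.univ) := by
    intro v
    obtain ⟨U1, hU1, U2, hU2, U3, hU3, h1⟩ := XWa_box (hev v)
    refine ⟨U1, hU1, U2, hU2, U3, hU3, fun a ha b hb c hc => ?_⟩
    have h4 := h1 a ha b hb c hc
    dsimp only at h4
    exact h4
  choose U1 hU1 U2 hU2 U3 hU3 hmem using hnb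
  obtain ⟨G, C', hG, hC'd, hGC⟩ := z_wa he (insert (p0 kk) S) (Finset.mem_insert_self _ _) g C
    (fun v => by have h := hC v; rw [Matrix.mul_one] at h; exact h) hCd U1
    (fun v _ => hU1 v) U3 (fun v _ => hU3 v)
  obtain ⟨y', hy'⟩ := wa_fun (insert (p0 kk) S) y U2 (fun v _ => hU2 v)
  have hall : ∀ v ∈ insert (p0 kk) S,
      (kryM ((xop e G y').map (em v))).det ≠ 0 ∧
      (cpc ((xop e G y').map (em v)), C'.map (em v) * kryM ((xop e G y').map (em v))) ∈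
        (if v ∈ S then U v else Set.univ) := by
    intro v hv
    have h1 := hmem v _ (hGC v hv).1 _ (hy' v hv) _ (hGC v hv).2
    rw [← xop_map] at h1
    exact h1
  have hX : (kryM (xop e G y')).det ≠ 0 := by
    intro h0
    apply (hall (p0 kk) (Finset.mem_insert_self _ _)).1
    rw [← kryM_det_map, h0, map_zero]
  have hgam : (gamM (dbl e G)).det ≠ 0 := by
    rw [← hG, Matrix.det_mul, Matrix.det_transpose]
    exact mul_ne_zero hC'd hC'd
  have hhk : (hk (dbl e G)).det ≠ 0 := (det_hk_dbl he G).2 hgam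
  refine ⟨cpc (xop e G y'), C' * kryM (xop e G y'), ?_, ?_, ?_⟩
  · rw [← bwd he G y' hhk hX, ← hG, Matrix.transpose_mul]
    simp only [Matrix.mul_assoc]
  · rw [Matrix.det_mul]
    exact mul_ne_zero hC'd hX
  · intro v hv
    have h1 := (hall v (Finset.mem_insert_of_mem hv)).2
    rw [if_pos hv] at h1
    have e1 : (fun i => em v (cpc (xop e G y') i)) = cpc ((xop e G y').map (em v)) := by
      funext i
      exact cpc_map (em v) _ i
    rw [e1, Matrix.map_mul, kryM_map]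
    exact h1

end NF83
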